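import Pool.Agent.CLQ.Defs

/-!
# Clique dynamics at local girth six: basic lemmas (proved)
-/

namespace CLQ

universe u

variable {V : Type u} {G : SimpleGraph V}

theorem CAdj.refl (a : V) : CAdj G a a := Or.inl rfl

theorem CAdj.symm {a b : V} (h : CAdj G a b) : CAdj G b a := by
  rcases h with h | h
  · exact Or.inl h.symm
  · exact Or.inr h.symm

/-- distance at most one means equal or adjacent -/
theorem dist_le_one (hc : G.Connected) {a b : V} : G.dist a b ≤ 1 ↔ CAdj G a b := by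
  constructor
  · intro h
    rcases Nat.lt_or_ge (G.dist a b) 1 with h0 | h1
    · left
      exact (hc.dist_eq_zero_iff).1 (by omega)
    · right
      exact SimpleGraph.dist_eq_one_iff_adj.1 (by omega)
  · rintro (rfl | h)
    · simp
    · exact (SimpleGraph.dist_eq_one_iff_adj.2 h).le

theorem tri (hc : G.Connected) (a b c : V) : G.dist a c ≤ G.dist a b + G.dist b c :=
  hc.dist_triangle

theorem dist_adj (hc : G.Connected) (x : V) {a b : V} (h : CAdj G a b) :
    G.dist x a ≤ G.dist x b + 1 := by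
  have h1 := tri hc x b a
  have h2 := (dist_le_one hc).2 h.symm
  omega

theorem exists_between (hc : G.Connected) (a b : V) (k : ℕ) (hk : k ≤ G.dist a b) :
    ∃ c, G.dist a c = k ∧ k + G.dist c b = G.dist a b := by
  obtain ⟨p, hp⟩ := hc.exists_walk_length_eq_dist a b
  refine ⟨p.getVert k, ?_⟩
  have h1 : G.dist a (p.getVert k) ≤ k := by
    refine (SimpleGraph.dist_le (p.take k)).trans ?_
    simp
  have h2 : G.dist (p.getVert k) b ≤ p.length - k := by
    refine (SimpleGraph.dist_le (p.drop k)).trans ?_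
    simp
  have h3 := tri hc a (p.getVert k) b
  constructor <;> omega

theorem mem_par {x w p : V} : p ∈ par G x w ↔ G.Adj w p ∧ G.dist x w = G.dist x p + 1 :=
  Iff.rfl

theorem par_nonempty (hc : G.Connected) {x w : V} (h : w ≠ x) : (par G x w).Nonempty := by
  have h0 : 1 ≤ G.dist w x := hc.pos_dist_of_ne h
  obtain ⟨c, h1, h2⟩ := exists_between hc w x 1 h0
  refine ⟨c, SimpleGraph.dist_eq_one_iff_adj.1 h1, ?_⟩
  rw [SimpleGraph.dist_comm (u := x) (v := w), SimpleGraph.dist_comm (u := x) (v := c)]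
  omega

/-- If `z` is on a geodesic from `w` to `y` then the steps from `w` towards `z` go towards `y`. -/
theorem par_mono (hc : G.Connected) {w z y : V} (h : G.dist w z + G.dist z y = G.dist w y) :
    par G z w ⊆ par G y w := by
  rintro p ⟨h1, h2⟩
  refine ⟨h1, ?_⟩
  have h3 := tri hc y z p
  have h4 := dist_adj hc y (Or.inr h1)
  rw [SimpleGraph.dist_comm (u := w) (v := z), SimpleGraph.dist_comm (u := z) (v := y),
    SimpleGraph.dist_comm (u := w) (v := y)] at h
  omega

/-- Every nonempty complete set is contained in a clique. -/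
theorem exists_MC (Q0 : Set V) (h0 : Q0.Nonempty) (h : ∀ a ∈ Q0, ∀ b ∈ Q0, CAdj G a b) :
    ∃ Q : KV G, Q0 ⊆ Q.1 := by
  obtain ⟨m, hm, hmax⟩ := zorn_subset_nonempty
    {S : Set V | ∀ a ∈ S, ∀ b ∈ S, CAdj G a b} (by
      intro c hc hch hne
      refine ⟨⋃₀ c, ?_, fun s hs => Set.subset_sUnion_of_mem hs⟩
      rintro a ⟨s, hs, ha⟩ b ⟨t, ht, hb⟩
      rcases hch.total hs ht with hst | hst
      · exact hc ht a (hst ha) b hb
      · exact hc hs a ha b (hst hb)) Q0 h
  refine ⟨⟨m, h0.mono hm, hmax.prop, ?_⟩, hm⟩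
  intro v hv
  have : insert v m ⊆ m := by
    refine hmax.2 ?_ (Set.subset_insert _ _)
    rintro a (rfl | ha) b (rfl | hb)
    · exact CAdj.refl _
    · exact (hv b hb).symm
    · exact hv a ha
    · exact hmax.prop a ha b hb
  exact this (Set.mem_insert _ _)

/-- Every vertex is in a clique. -/
theorem exists_MC_vertex (v : V) : ∃ Q : KV G, v ∈ Q.1 := by
  obtain ⟨Q, hQ⟩ := exists_MC (G := G) {v} ⟨v, rfl⟩ (by
    rintro a rfl b rfl
    exact CAdj.refl _)
  exact ⟨Q, hQ rfl⟩

/-- Two equal or adjacent vertices are in a common clique. -/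
theorem exists_MC_pair {v w : V} (h : CAdj G v w) : ∃ Q : KV G, v ∈ Q.1 ∧ w ∈ Q.1 := by
  obtain ⟨Q, hQ⟩ := exists_MC (G := G) {v, w} ⟨v, by simp⟩ (by
    intro a ha b hb
    simp only [Set.mem_insert_iff, Set.mem_singleton_iff] at ha hb
    rcases ha with rfl | rfl <;> rcases hb with rfl | rfl
    · exact CAdj.refl _
    · exact h
    · exact h.symm
    · exact CAdj.refl _)
  exact ⟨Q, hQ (by simp), hQ (by simp)⟩

/-- In the clique graph, equal or adjacent means that the cliques share a vertex. -/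
theorem CAdj_kG {Q R : KV G} : CAdj (kG G) Q R ↔ (Q.1 ∩ R.1).Nonempty := by
  constructor
  · rintro (rfl | h)
    · rw [Set.inter_self]; exact Q.2.1
    · exact h.2
  · intro h
    by_cases hQR : Q = R
    · exact Or.inl hQR
    · exact Or.inr ⟨hQR, h⟩

/-- two members of a clique are equal or adjacent -/
theorem KV.cadj (Q : KV G) {a b : V} (ha : a ∈ Q.1) (hb : b ∈ Q.1) : CAdj G a b :=
  Q.2.2.1 a ha b hb

/-- membership in a clique -/
theorem KV.mem (Q : KV G) {v : V} (h : ∀ a ∈ Q.1, CAdj G a v) : v ∈ Q.1 := Q.2.2.2 v h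

/-- a clique contained in another one is equal to it -/
theorem KV.eq_of_subset {Q R : KV G} (h : Q.1 ⊆ R.1) : Q = R := by
  apply Subtype.ext
  apply Set.Subset.antisymm h
  intro v hv
  exact Q.mem fun a ha => R.cadj (h ha) hv

theorem Iso.refl (X : Gph.{u}) : Iso X X := ⟨SimpleGraph.Iso.refl⟩

theorem Iso.symm {X Y : Gph.{u}} (h : Iso X Y) : Iso Y X := by
  obtain ⟨f⟩ := h
  exact ⟨f.symm⟩

theorem Iso.trans {X Y Z : Gph.{u}} (h : Iso X Y) (h' : Iso Y Z) : Iso X Z := by
  obtain ⟨f⟩ := h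
  obtain ⟨g⟩ := h'
  exact ⟨g.comp f⟩

/-- a bijection preserving `CAdj` in both directions gives an isomorphism -/
theorem Iso.of_equiv {X Y : Gph.{u}} (e : X.V ≃ Y.V)
    (h : ∀ a b, CAdj Y.G (e a) (e b) ↔ CAdj X.G a b) : Iso X Y := by
  refine ⟨⟨e, ?_⟩⟩
  intro a b
  by_cases hab : a = b
  · subst hab
    simp
  · have h1 := h a b
    unfold CAdj at h1
    simpa [hab] using h1

/-- a bijective map preserving `CAdj` in both directions gives an isomorphism -/
theorem Iso.of_bij {X Y : Gph.{u}} (f : X.V → Y.V) (hf : Function.Bijective f)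
    (h : ∀ a b, CAdj Y.G (f a) (f b) ↔ CAdj X.G a b) : Iso X Y :=
  Iso.of_equiv (Equiv.ofBijective f hf) h

theorem Sys.par_ne {x w p q : V} (hS : Sys G) (hp : p ∈ par G x w) (hq : q ∈ par G x w)
    (h : p ≠ q) : G.Adj p q := by
  rcases hS.F1 x w p q hp hq with h1 | h1
  · exact absurd h1 h
  · exact h1

/-- nonempty sets of bounded diameter are contained in maximal ones, relative to a set `S` -/
theorem exists_rel_MD (n : ℕ) (S C : Set V) (h0 : C ⊆ S)
    (h : ∀ a ∈ C, ∀ b ∈ C, G.dist a b ≤ n) :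
    ∃ A : Set V, C ⊆ A ∧ A ⊆ S ∧ (∀ a ∈ A, ∀ b ∈ A, G.dist a b ≤ n) ∧
      ∀ v ∈ S, (∀ a ∈ A, G.dist a v ≤ n) → v ∈ A := by
  obtain ⟨m, hm, hmax⟩ := zorn_subset_nonempty
    {T : Set V | T ⊆ S ∧ ∀ a ∈ T, ∀ b ∈ T, G.dist a b ≤ n} (by
      intro c hc hch hne
      refine ⟨⋃₀ c, ⟨Set.sUnion_subset fun s hs => (hc hs).1, ?_⟩,
        fun s hs => Set.subset_sUnion_of_mem hs⟩
      rintro a ⟨s, hs, ha⟩ b ⟨t, ht, hb⟩
      rcases hch.total hs ht with hst | hst
      · exact (hc ht).2 a (hst ha) b hb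
      · exact (hc hs).2 a ha b (hst hb)) C ⟨h0, h⟩
  refine ⟨m, hm, hmax.prop.1, hmax.prop.2, ?_⟩
  intro v hvS hv
  have : insert v m ⊆ m := by
    refine hmax.2 ⟨Set.insert_subset hvS hmax.prop.1, ?_⟩ (Set.subset_insert _ _)
    rintro a (rfl | ha) b (rfl | hb)
    · simp
    · rw [SimpleGraph.dist_comm]; exact hv b hb
    · exact hv a ha
    · exact hmax.prop.2 a ha b hb
  exact this (Set.mem_insert _ _)

/-- nonempty sets of diameter at most `n` are contained in maximal ones -/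
theorem exists_MD (n : ℕ) (C : Set V) (h0 : C.Nonempty)
    (h : ∀ a ∈ C, ∀ b ∈ C, G.dist a b ≤ n) : ∃ A : Set V, MD G n A ∧ C ⊆ A := by
  obtain ⟨A, h1, h2, h3, h4⟩ := exists_rel_MD n Set.univ C (Set.subset_univ _) h
  exact ⟨A, ⟨h0.mono h1, h3, fun v hv => h4 v (Set.mem_univ _) hv⟩, h1⟩

end CLQ
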