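import Pool.Agent.CLQ.KConn

/-!
# Clique dynamics at local girth six: CDist

Iterates: induction on `n` (or `m`) with `KConn`.  In `cdist` the map `c` at stage `n + 1` is
`Q ↦ c (some element of Q)`.
-/

namespace CLQ

universe u

theorem cdist (X : Gph.{u}) (hc : X.G.Connected) (n : ℕ) :
    (kIter n X).G.Connected ∧ ∃ c : (kIter n X).V → X.V, ∀ z z' : (kIter n X).V,
      X.G.dist (c z) (c z') ≤ (kIter n X).G.dist z z' + n ∧
      (kIter n X).G.dist z z' ≤ X.G.dist (c z) (c z') + n := by
  induction n with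
  | zero =>
    refine ⟨hc, fun z => z, fun z z' => ?_⟩
    exact ⟨le_refl _, le_refl _⟩
  | succ n ih =>
    obtain ⟨hcn, c, h⟩ := ih
    refine ⟨kG_connected hcn, ?_⟩
    let e : KV (kIter n X).G → (kIter n X).V := fun Q => Q.2.1.some
    have he : ∀ Q : KV (kIter n X).G, e Q ∈ Q.1 := fun Q => Q.2.1.some_mem
    have key : ∀ Q R : KV (kIter n X).G,
        X.G.dist (c (e Q)) (c (e R)) ≤ (kG (kIter n X).G).dist Q R + (n + 1) ∧
        (kG (kIter n X).G).dist Q R ≤ X.G.dist (c (e Q)) (c (e R)) + (n + 1) := by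
      intro Q R
      have h1 := h (e Q) (e R)
      have h2 := kG_dist_le hcn Q R (he Q) (he R)
      have h3 := dist_le_kG hcn Q R (he Q) (he R)
      omega
    exact ⟨fun Q => c (e Q), key⟩

theorem below_dist (X : Gph.{u}) (hc : X.G.Connected) (m : ℕ) {w w' : X.V}
    {z z' : (kIter m X).V} (h : Below m X w z) (h' : Below m X w' z') :
    X.G.dist w w' ≤ (kIter m X).G.dist z z' + m := by
  induction m with
  | zero =>
    have h1 : w = z := h
    have h2 : w' = z' := h'
    rw [h1, h2]
    exact le_refl _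
  | succ m ih =>
    obtain ⟨a, ha, ha'⟩ := h
    obtain ⟨b, hb, hb'⟩ := h'
    have h1 := ih ha' hb'
    have hcm : (kIter m X).G.Connected := (cdist X hc m).1
    have key : ∀ Q R : KV (kIter m X).G, a ∈ Q.1 → b ∈ R.1 →
        (kIter m X).G.dist a b ≤ (kG (kIter m X).G).dist Q R + 1 :=
      fun Q R hQ hR => dist_le_kG hcm Q R hQ hR
    have h2 := key z z' ha hb
    change X.G.dist w w' ≤ (kG (kIter m X).G).dist z z' + (m + 1)
    omega

end CLQ
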