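import Pool.Agent.CLQ.Base

/-!
# Clique dynamics at local girth six: triangular covering maps (proved API)
-/

namespace CLQ

universe u

variable {V W Z : Type u} {H : SimpleGraph V} {G : SimpleGraph W} {K : SimpleGraph Z}

theorem TriCover.cadj {p : V → W} (hp : TriCover H G p) {a b : V} (h : CAdj H a b) :
    CAdj G (p a) (p b) := by
  rcases h with rfl | h
  · exact CAdj.refl _
  · exact Or.inr (hp.adj h)

theorem TriCover.clift {p : V → W} (hp : TriCover H G p) (v : V) (w : W)
    (h : CAdj G (p v) w) : ∃ a, CAdj H v a ∧ p a = w := by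
  rcases h with h | h
  · exact ⟨v, CAdj.refl _, h⟩
  · obtain ⟨a, h1, h2⟩ := hp.surj v w h
    exact ⟨a, Or.inr h1, h2⟩

theorem TriCover.cinj {p : V → W} (hp : TriCover H G p) {v a b : V} (ha : CAdj H v a)
    (hb : CAdj H v b) (h : p a = p b) : a = b := by
  rcases ha with rfl | ha
  · rcases hb with rfl | hb
    · rfl
    · exact absurd (h ▸ hp.adj hb) (G.loopless.irrefl _)
  · rcases hb with rfl | hb
    · exact absurd (h ▸ hp.adj ha) (G.loopless.irrefl _)
    · exact hp.inj v a b ha hb h

theorem TriCover.ctri {p : V → W} (hp : TriCover H G p) {v a b : V} (ha : CAdj H v a)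
    (hb : CAdj H v b) (h : CAdj G (p a) (p b)) : CAdj H a b := by
  rcases h with h | h
  · exact Or.inl (hp.cinj ha hb h)
  · rcases ha with rfl | ha
    · exact hb
    · rcases hb with rfl | hb
      · exact CAdj.symm (Or.inr ha)
      · exact Or.inr (hp.tri v a b ha hb h)

/-- The closed form of the covering property. -/
theorem TriCover.of_closed {p : V → W} (h1 : ∀ a b, CAdj H a b → CAdj G (p a) (p b))
    (h2 : ∀ v w, CAdj G (p v) w → ∃ a, CAdj H v a ∧ p a = w)
    (h3 : ∀ v a b, CAdj H v a → CAdj H v b → p a = p b → a = b)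
    (h4 : ∀ v a b, CAdj H v a → CAdj H v b → CAdj G (p a) (p b) → CAdj H a b) :
    TriCover H G p where
  adj := by
    intro a b hab
    rcases h1 a b (Or.inr hab) with h | h
    · exact absurd (h3 a a b (CAdj.refl _) (Or.inr hab) h) hab.ne
    · exact h
  surj := by
    intro v w hvw
    obtain ⟨a, ha, hpa⟩ := h2 v w (Or.inr hvw)
    rcases ha with rfl | ha
    · rw [hpa] at hvw
      exact absurd hvw (G.loopless.irrefl _)
    · exact ⟨a, ha, hpa⟩
  inj := fun v a b ha hb h => h3 v a b (Or.inr ha) (Or.inr hb) h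
  tri := by
    intro v a b ha hb h
    rcases h4 v a b (Or.inr ha) (Or.inr hb) (Or.inr h) with h' | h'
    · rw [h'] at h
      exact absurd h (G.loopless.irrefl _)
    · exact h'

theorem TriCover.id (G : SimpleGraph V) : TriCover G G id where
  adj := fun h => h
  surj := fun _ w h => ⟨w, h, rfl⟩
  inj := fun _ _ _ _ _ h => h
  tri := fun _ _ _ _ _ h => h

theorem TriCover.comp {p : V → W} {q : W → Z} (hp : TriCover H G p) (hq : TriCover G K q) :
    TriCover H K (fun a => q (p a)) where
  adj := fun h => hq.adj (hp.adj h)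
  surj := by
    intro v z h
    obtain ⟨w, h1, h2⟩ := hq.surj (p v) z h
    obtain ⟨a, h3, h4⟩ := hp.surj v w h1
    exact ⟨a, h3, by simp only [h4, h2]⟩
  inj := fun v a b ha hb h => hp.inj v a b ha hb (hq.inj _ _ _ (hp.adj ha) (hp.adj hb) h)
  tri := fun v a b ha hb h => hp.tri v a b ha hb (hq.tri _ _ _ (hp.adj ha) (hp.adj hb) h)

theorem TriCover.of_iso (f : H ≃g G) : TriCover H G (fun a => f a) where
  adj := fun h => f.map_rel_iff.2 h
  surj := by
    intro v w h
    refine ⟨f.symm w, ?_, by simp⟩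
    rw [← f.map_rel_iff]
    simpa using h
  inj := fun v a b _ _ h => f.injective h
  tri := fun v a b _ _ h => f.map_rel_iff.1 h

/-- If `q ∘ s = f` with `f`, `q` triangular covers and `s` a homomorphism then `s` is a
triangular cover. -/
theorem TriCover.factor {f : V → Z} {q : W → Z} (hf : TriCover H K f) (hq : TriCover G K q)
    (s : V → W) (hs : ∀ a b, H.Adj a b → G.Adj (s a) (s b)) (h : ∀ a, q (s a) = f a) :
    TriCover H G s where
  adj := fun {a b} hab => hs a b hab
  surj := by
    intro v w hvw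
    have h1 : K.Adj (f v) (q w) := by
      rw [← h v]
      exact hq.adj hvw
    obtain ⟨a, ha, hfa⟩ := hf.surj v (q w) h1
    refine ⟨a, ha, ?_⟩
    exact hq.inj (s v) (s a) w (hs v a ha) hvw (by rw [h a, hfa])
  inj := by
    intro v a b ha hb hab
    exact hf.inj v a b ha hb (by rw [← h a, ← h b, hab])
  tri := by
    intro v a b ha hb hab
    refine hf.tri v a b ha hb ?_
    rw [← h a, ← h b]
    exact hq.adj hab

theorem Iso.jcover {X Y : Gph.{u}} (h : Iso X Y) : JCover X Y := by
  obtain ⟨f⟩ := h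
  intro z
  exact ⟨fun a => f a, f.symm z, TriCover.of_iso f, by simp⟩

theorem Iso.sc_helper {X Y : Gph.{u}} (h : Iso X Y) :
    ∃ (f : X.V → Y.V) (g : Y.V → X.V), TriCover X.G Y.G f ∧ TriCover Y.G X.G g ∧
      (∀ a, g (f a) = a) ∧ ∀ b, f (g b) = b := by
  obtain ⟨f⟩ := h
  exact ⟨fun a => f a, fun a => f.symm a, TriCover.of_iso f, TriCover.of_iso f.symm,
    by simp, by simp⟩

end CLQ
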