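import Pool.Agent.CLQ.Cov

/-!
# Clique dynamics at local girth six: CovA

`unique_lift`: induction along walks from `x0`.
`surjective`: the range of `p` is closed under taking neighbours (`surj`).
`Good.cover`: images of the vertices of a forbidden configuration form a forbidden configuration.
-/

namespace CLQ

universe u

theorem TriCover.unique_lift {X Y Z : Type u} {GX : SimpleGraph X} {GY : SimpleGraph Y}
    {GZ : SimpleGraph Z} {q : Y → Z} (hc : GX.Connected) (hq : TriCover GY GZ q)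
    (s t : X → Y) (hs : ∀ a b, GX.Adj a b → GY.Adj (s a) (s b))
    (ht : ∀ a b, GX.Adj a b → GY.Adj (t a) (t b)) (h : ∀ a, q (s a) = q (t a)) (x0 : X)
    (h0 : s x0 = t x0) : ∀ a, s a = t a := by
  have key : ∀ a b, GX.Walk a b → s a = t a → s b = t b := by
    intro a b w
    induction w with
    | nil => exact fun e => e
    | @cons a b c hab w ih =>
      intro e
      apply ih
      refine hq.inj (s a) (s b) (t b) (hs a b hab) ?_ (h b)
      rw [e]
      exact ht a b hab
  intro a
  obtain ⟨w⟩ := hc.preconnected x0 a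
  exact key x0 a w h0

theorem TriCover.surjective {V W : Type u} {H : SimpleGraph V} {G : SimpleGraph W}
    {p : V → W} (hp : TriCover H G p) (hc : G.Connected) (v0 : V) :
    Function.Surjective p := by
  have key : ∀ a b, G.Walk a b → (∃ v, p v = a) → ∃ v, p v = b := by
    intro a b w
    induction w with
    | nil => exact fun e => e
    | @cons a b c hab w ih =>
      rintro ⟨v, rfl⟩
      apply ih
      obtain ⟨u, _, hu⟩ := hp.surj v b hab
      exact ⟨u, hu⟩
  intro b
  obtain ⟨w⟩ := hc.preconnected (p v0) b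
  exact key _ b w ⟨v0, rfl⟩

theorem Good.cover {V W : Type u} {H : SimpleGraph V} {G : SimpleGraph W}
    {p : V → W} (hG : Good G) (hp : TriCover H G p) : Good H where
  k4 := fun v a b c h1 h2 h3 h4 h5 h6 =>
    hG.k4 (p v) (p a) (p b) (p c) (hp.adj h1) (hp.adj h2) (hp.adj h3) (hp.adj h4) (hp.adj h5)
      (hp.adj h6)
  c4 := fun v a b c d h1 h2 h3 h4 h5 h6 h7 h8 h9 h10 =>
    hG.c4 (p v) (p a) (p b) (p c) (p d) (hp.adj h1) (hp.adj h2) (hp.adj h3) (hp.adj h4)
      (hp.adj h5) (hp.adj h6) (hp.adj h7) (hp.adj h8)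
      (fun e => h9 (hp.inj v a c h1 h3 e)) (fun e => h10 (hp.inj v b d h2 h4 e))
  c5 := fun v a b c d e h1 h2 h3 h4 h5 h6 h7 h8 h9 h10 =>
    hG.c5 (p v) (p a) (p b) (p c) (p d) (p e) (hp.adj h1) (hp.adj h2) (hp.adj h3) (hp.adj h4)
      (hp.adj h5) (hp.adj h6) (hp.adj h7) (hp.adj h8) (hp.adj h9) (hp.adj h10)
  deg := by
    intro v w hvw
    obtain ⟨a', b', hne, h1, h2, h3, h4⟩ := hG.deg (p v) (p w) (hp.adj hvw)
    obtain ⟨a, ha, rfl⟩ := hp.surj v a' h1
    obtain ⟨b, hb, rfl⟩ := hp.surj v b' h3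
    exact ⟨a, b, fun e => hne (by rw [e]), ha, hp.tri v w a hvw ha h2, hb,
      hp.tri v w b hvw hb h4⟩

end CLQ
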