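import Pool.Agent.CLQ.Base

/-!
# Clique dynamics at local girth six: KIso

Isomorphic graphs have isomorphic clique graphs.
-/

namespace CLQ

universe u

theorem Iso.cadj_iff {X Y : Gph.{u}} (f : X.G ≃g Y.G) (a b : X.V) :
    CAdj Y.G (f a) (f b) ↔ CAdj X.G a b := by
  unfold CAdj
  rw [f.injective.eq_iff, f.map_rel_iff]

theorem Iso.mc_image {X Y : Gph.{u}} (f : X.G ≃g Y.G) {Q : Set X.V} (h : MC X.G Q) :
    MC Y.G (f '' Q) := by
  obtain ⟨h1, h2, h3⟩ := h
  refine ⟨h1.image _, ?_, ?_⟩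
  · rintro _ ⟨a, ha, rfl⟩ _ ⟨b, hb, rfl⟩
    exact (Iso.cadj_iff f a b).2 (h2 a ha b hb)
  · intro v hv
    obtain ⟨w, rfl⟩ := f.surjective v
    exact ⟨w, h3 w fun a ha => (Iso.cadj_iff f a w).1 (hv _ ⟨a, ha, rfl⟩), rfl⟩

theorem Iso.k {X Y : Gph.{u}} (h : Iso X Y) : Iso X.k Y.k := by
  obtain ⟨f⟩ := h
  let F : KV X.G → KV Y.G := fun Q => ⟨f '' Q.1, Iso.mc_image f Q.2⟩
  have hb : Function.Bijective F := by
    constructor
    · intro Q R hQR
      apply Subtype.ext
      have : f '' Q.1 = f '' R.1 := congrArg Subtype.val hQR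
      exact (Set.image_injective.2 f.injective) this
    · intro R
      refine ⟨⟨f.symm '' R.1, Iso.mc_image f.symm R.2⟩, ?_⟩
      apply Subtype.ext
      change f '' (f.symm '' R.1) = R.1
      rw [Set.image_image]
      simp
  have ha : ∀ Q R : KV X.G, CAdj (kG Y.G) (F Q) (F R) ↔ CAdj (kG X.G) Q R := by
    intro Q R
    rw [CAdj_kG, CAdj_kG]
    change (f '' Q.1 ∩ f '' R.1).Nonempty ↔ _
    rw [← Set.image_inter f.injective, Set.image_nonempty]
  exact Iso.of_bij (X := X.k) (Y := Y.k) F hb ha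

theorem Iso.iter {X Y : Gph.{u}} (h : Iso X Y) (n : ℕ) : Iso (kIter n X) (kIter n Y) := by
  induction n with
  | zero => exact h
  | succ n ih => exact ih.k

theorem kIter_add (m n : ℕ) (X : Gph.{u}) : kIter (m + n) X = kIter m (kIter n X) := by
  induction m with
  | zero => rw [Nat.zero_add]; rfl
  | succ m ih =>
    rw [show m + 1 + n = (m + n) + 1 by omega]
    change (kIter (m + n) X).k = (kIter m (kIter n X)).k
    rw [ih]

theorem Iso.chain {X : Gph.{u}} {n p : ℕ} (h : Iso (kIter n X) (kIter (n + p) X)) (j : ℕ) :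
    Iso (kIter n X) (kIter (n + j * p) X) := by
  induction j with
  | zero => rw [Nat.zero_mul, Nat.add_zero]; exact Iso.refl _
  | succ j ih =>
    have h1 := h.iter (j * p)
    rw [← kIter_add, ← kIter_add] at h1
    rw [show j * p + n = n + j * p by omega,
      show j * p + (n + p) = n + (j + 1) * p by rw [Nat.add_mul, Nat.one_mul]; omega] at h1
    exact ih.trans h1

end CLQ
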