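import Pool.Agent.CLQ.SHD

/-!
# Clique dynamics at local girth six: NSQ

Systolic graphs of this kind have no large squares.  Levels = distances from `x`, `L = dist x y`.
`sh_walk`, by induction on `k`: if `dist y a ≤ k`, `t + k ≤ L`, `z ∈ Sh x a t`, there is
`z' ∈ Sh x y t` with `dist z z' + L ≤ k + dist x a`.  `a = y`: take `z' = z`.  Otherwise let
`a1 ∈ par y a` (one step closer to `y`), `dist y a1 ≤ k - 1`, `dist x a1 ≥ L - (k - 1) ≥ t`;
`sh_adj` (`p := a`, `p' := a1`) gives `z1 ∈ Sh a1` with `dist z z1 + dist x a1 ≤ dist x a + 1`;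
induction for `z1`.
`NSQ`: if `L < r + c` then `2 r ≤ L + c` gives `r < 2 c`.  Otherwise let `t = L - (r + c)`.
`a`, `b` have levels ≥ `L - (r + c) = t`; choose `za ∈ Sh x a t`, `zb ∈ Sh x b t`
(`exists_between x a t`), and `z0, z0' ∈ Sh x y t` from `sh_walk` with `k = r + c`.
`dist a b ≤ dist a za + dist za z0 + dist z0 z0' + dist z0' zb + dist zb b ≤
(l a - t) + (r + c + l a - L) + (L - t) + (r + c + l b - L) + (l b - t) ≤ 9 (r + c) - 4 L ≤
r + 13 c` with `l a, l b ≤ r + c`, `L ≥ 2 r - c`.  So `2 r - c ≤ r + 13 c`.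
-/

namespace CLQ

universe u

variable {V : Type u} {G : SimpleGraph V}

theorem sh_walk (hS : Sys G) (x y : V) (t k : ℕ) (a z : V) (hk : G.dist y a ≤ k)
    (ht : t + k ≤ G.dist x y) (hz : z ∈ Sh G x a t) :
    ∃ z' ∈ Sh G x y t, G.dist z z' + G.dist x y ≤ k + G.dist x a := by
  have hc := hS.conn
  induction k generalizing a z with
  | zero =>
    have h0 : y = a := hc.dist_eq_zero_iff.1 (by omega)
    subst h0
    refine ⟨z, hz, ?_⟩
    rw [SimpleGraph.dist_self]
  | succ k ih =>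
    by_cases hay : a = y
    · subst hay
      refine ⟨z, hz, ?_⟩
      rw [SimpleGraph.dist_self]
      omega
    · obtain ⟨a1, h1, h2⟩ := par_nonempty hc (x := y) hay
      have h3 := tri hc x a1 y
      have h4 : G.dist a1 y = G.dist y a1 := SimpleGraph.dist_comm
      obtain ⟨z1, hz1, hd1⟩ := sh_adj hS h1 (by omega) hz
      obtain ⟨z', hz', hd'⟩ := ih a1 z1 (by omega) (by omega) hz1
      have h5 := tri hc z z1 z'
      exact ⟨z', hz', by omega⟩

theorem NSQ (hS : Sys G) (a b x y : V) (r c : ℕ) (h1 : G.dist x a ≤ r + c)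
    (h2 : G.dist x b ≤ r + c) (h3 : G.dist y a ≤ r + c) (h4 : G.dist y b ≤ r + c)
    (h5 : 2 * r ≤ G.dist x y + c) (h6 : 2 * r ≤ G.dist a b + c) : r ≤ 14 * c := by
  have hc := hS.conn
  by_cases hL : G.dist x y < r + c
  · omega
  · obtain ⟨t, ht⟩ : ∃ t, G.dist x y = t + (r + c) := ⟨G.dist x y - (r + c), by omega⟩
    have a1 := tri hc x a y
    have a2 : G.dist a y = G.dist y a := SimpleGraph.dist_comm
    have b1 := tri hc x b y
    have b2 : G.dist b y = G.dist y b := SimpleGraph.dist_comm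
    obtain ⟨za, ha1, ha2⟩ := exists_between hc x a t (by omega)
    obtain ⟨zb, hb1, hb2⟩ := exists_between hc x b t (by omega)
    have hza : za ∈ Sh G x a t := ⟨ha1, by omega⟩
    have hzb : zb ∈ Sh G x b t := ⟨hb1, by omega⟩
    obtain ⟨z0, hz0, hd0⟩ := sh_walk hS x y t (r + c) a za h3 (by omega) hza
    obtain ⟨z1, hz1, hd1⟩ := sh_walk hS x y t (r + c) b zb h4 (by omega) hzb
    have hdiam := sh_diam hS hz0 hz1
    have t1 := tri hc a za b
    have t2 := tri hc za z0 b
    have t3 := tri hc z0 z1 b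
    have t4 := tri hc z1 zb b
    have s1 : G.dist a za = G.dist za a := SimpleGraph.dist_comm
    have s2 : G.dist z1 zb = G.dist zb z1 := SimpleGraph.dist_comm
    omega

end CLQ
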