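import Pool.Agent.CLQ.SQ
import Pool.Agent.CLQ.NSQ
import Pool.Agent.CLQ.KIso

/-!
# Clique dynamics at local girth six: DIV

If all flat triangles exist then no two iterated clique graphs of `X` are isomorphic.  Suppose
`Iso (kIter n X) (kIter (n + p) X)`, `p ≥ 1`.  By `Iso.chain` with `j = 30 n + 20` and
`m = n + j p`: `kIter n X ≅ kIter m X`.  Let `r = 14 n + 1`; `m ≥ 2 r + 10`.
-/

namespace CLQ

universe u

/-- a homomorphism of connected graphs does not increase distances -/
theorem dist_hom_le {V W : Type u} {G : SimpleGraph V} {H : SimpleGraph W} (hc : G.Connected)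
    (f : G →g H) (a b : V) : H.dist (f a) (f b) ≤ G.dist a b := by
  obtain ⟨p, hp⟩ := hc.exists_walk_length_eq_dist a b
  rw [← hp, ← SimpleGraph.Walk.length_map f p]
  exact SimpleGraph.dist_le _

/-- an isomorphism of connected graphs preserves distances -/
theorem dist_iso {V W : Type u} {G : SimpleGraph V} {H : SimpleGraph W} (hc : G.Connected)
    (hc' : H.Connected) (f : G ≃g H) (a b : V) : H.dist (f a) (f b) = G.dist a b := by
  apply le_antisymm
  · exact dist_hom_le hc f.toHom a b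
  · have h := dist_hom_le hc' f.symm.toHom (f a) (f b)
    simpa using h

theorem div_W (X : Gph.{u}) (hS : Sys X.G) (hT : ∀ n, 3 ≤ n → HasTri X.G n) (n p : ℕ)
    (hp : 1 ≤ p) : ¬ Iso (kIter n X) (kIter (n + p) X) := by
  intro h
  have hch := (Iso.chain h (30 * n + 20)).symm
  obtain ⟨m, hm⟩ : ∃ m, m = n + (30 * n + 20) * p := ⟨_, rfl⟩
  rw [← hm] at hch
  have hm1 : 2 * (14 * n + 1) + 10 ≤ m := by
    have : (30 * n + 20) * 1 ≤ (30 * n + 20) * p := Nat.mul_le_mul_left _ hp
    omega
  obtain ⟨a, b, x, y, h1, h2, h3, h4, h5, h6⟩ := squares X hS hT (14 * n + 1) m hm1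
  obtain ⟨f⟩ := hch
  obtain ⟨cn, c, hc⟩ := cdist X hS.conn n
  obtain ⟨cm, -⟩ := cdist X hS.conn m
  have hd : ∀ u v : (kIter m X).V,
      (kIter n X).G.dist (f u) (f v) = (kIter m X).G.dist u v := dist_iso cm cn f
  have e1 := hc (f x) (f a)
  have e2 := hc (f x) (f b)
  have e3 := hc (f y) (f a)
  have e4 := hc (f y) (f b)
  have e5 := hc (f x) (f y)
  have e6 := hc (f a) (f b)
  rw [hd] at e1 e2 e3 e4 e5 e6
  have := NSQ hS (c (f a)) (c (f b)) (c (f x)) (c (f y)) (14 * n + 1) n (by omega) (by omega)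
    (by omega) (by omega) (by omega) (by omega)
  omega

end CLQ
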