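import Mathlib

/-!
# Clique dynamics at local girth six: definitions
-/

namespace CLQ

universe u

/-- Equal or adjacent. -/
def CAdj {V : Type u} (G : SimpleGraph V) (a b : V) : Prop := a = b ∨ G.Adj a b

/-- `Q` is a clique of `G` (a maximal complete subgraph): `Q` is nonempty, any two vertices of
`Q` are equal or adjacent, and every vertex which is equal or adjacent to every vertex of `Q`
lies in `Q`. -/
def MC {V : Type u} (G : SimpleGraph V) (Q : Set V) : Prop :=
  Q.Nonempty ∧ (∀ a ∈ Q, ∀ b ∈ Q, CAdj G a b) ∧ ∀ v, (∀ a ∈ Q, CAdj G a v) → v ∈ Q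

/-- The type of the cliques of `G`. -/
def KV {V : Type u} (G : SimpleGraph V) : Type u := {Q : Set V // MC G Q}

/-- The clique graph: two different cliques are adjacent when they share a vertex. -/
def kG {V : Type u} (G : SimpleGraph V) : SimpleGraph (KV G) where
  Adj Q R := Q ≠ R ∧ (Q.1 ∩ R.1).Nonempty
  symm := ⟨fun _ _ h => ⟨h.1.symm, by rw [Set.inter_comm]; exact h.2⟩⟩
  loopless := ⟨fun _ h => h.1 rfl⟩

/-- A graph together with its vertex type. -/
structure Gph : Type (u + 1) where
  /-- the vertices -/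
  V : Type u
  /-- the graph -/
  G : SimpleGraph V

/-- The clique graph. -/
def Gph.k (X : Gph.{u}) : Gph.{u} := ⟨KV X.G, kG X.G⟩

/-- The iterated clique graphs. -/
def kIter : ℕ → Gph.{u} → Gph.{u}
  | 0, X => X
  | n + 1, X => (kIter n X).k

/-- Isomorphic graphs. -/
def Iso (X Y : Gph.{u}) : Prop := Nonempty (X.G ≃g Y.G)

/-- Clique convergent: two different iterated clique graphs are isomorphic. -/
def Convergent (X : Gph.{u}) : Prop := ∃ m n, m ≠ n ∧ Iso (kIter m X) (kIter n X)

/-- Triangular covering maps: graph homomorphisms which restrict, for every vertex `v`, to an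
isomorphism of the induced subgraphs on the closed neighbourhoods of `v` and of its image. -/
structure TriCover {V W : Type u} (H : SimpleGraph V) (G : SimpleGraph W) (p : V → W) :
    Prop where
  adj : ∀ {a b : V}, H.Adj a b → G.Adj (p a) (p b)
  surj : ∀ (v : V) (w : W), G.Adj (p v) w → ∃ a, H.Adj v a ∧ p a = w
  inj : ∀ (v a b : V), H.Adj v a → H.Adj v b → p a = p b → a = b
  tri : ∀ (v a b : V), H.Adj v a → H.Adj v b → G.Adj (p a) (p b) → H.Adj a b

/-- Every vertex of `X` is in the image of a triangular covering map from `Y` to `X`. -/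
def JCover (Y X : Gph.{u}) : Prop :=
  ∀ z : X.V, ∃ (p : Y.V → X.V) (y : Y.V), TriCover Y.G X.G p ∧ p y = z

/-- Triangularly simply connected: every triangular cover has a section through any given
point. -/
def SC (X : Gph.{u}) : Prop :=
  ∀ (Y : Gph.{u}) (q : Y.V → X.V), TriCover Y.G X.G q → ∀ y : Y.V,
    ∃ s : X.V → Y.V, (∀ a b, X.G.Adj a b → Y.G.Adj (s a) (s b)) ∧ (∀ a, q (s a) = a) ∧
      s (q y) = y

/-- Links without cycles of length 3, 4, 5 (`k4`, `c4`, `c5`) and with minimum degree at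
least 2 (`deg`). -/
structure Good {V : Type u} (G : SimpleGraph V) : Prop where
  k4 : ∀ v a b c, G.Adj v a → G.Adj v b → G.Adj v c → G.Adj a b → G.Adj b c → G.Adj a c →
    False
  c4 : ∀ v a b c d, G.Adj v a → G.Adj v b → G.Adj v c → G.Adj v d → G.Adj a b → G.Adj b c →
    G.Adj c d → G.Adj d a → a ≠ c → b ≠ d → False
  c5 : ∀ v a b c d e, G.Adj v a → G.Adj v b → G.Adj v c → G.Adj v d → G.Adj v e →
    G.Adj a b → G.Adj b c → G.Adj c d → G.Adj d e → G.Adj e a → False
  deg : ∀ v w, G.Adj v w → ∃ a b, a ≠ b ∧ G.Adj v a ∧ G.Adj w a ∧ G.Adj v b ∧ G.Adj w b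

/-- The parents of `w` with respect to the base point `x`: the neighbours of `w` which are
closer to `x`. -/
def par {V : Type u} (G : SimpleGraph V) (x w : V) : Set V :=
  {p | G.Adj w p ∧ G.dist x w = G.dist x p + 1}

/-- Two dimensional systolic graphs (used for the universal triangular cover). -/
structure Sys {V : Type u} (G : SimpleGraph V) : Prop where
  conn : G.Connected
  k4 : ∀ v a b c, G.Adj v a → G.Adj v b → G.Adj v c → G.Adj a b → G.Adj b c → G.Adj a c →
    False
  c4 : ∀ v a b c d, G.Adj v a → G.Adj v b → G.Adj v c → G.Adj v d → G.Adj a b → G.Adj b c →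
    G.Adj c d → G.Adj d a → a ≠ c → b ≠ d → False
  c5 : ∀ v a b c d e, G.Adj v a → G.Adj v b → G.Adj v c → G.Adj v d → G.Adj v e →
    G.Adj a b → G.Adj b c → G.Adj c d → G.Adj d e → G.Adj e a → False
  F1 : ∀ x w p q, p ∈ par G x w → q ∈ par G x w → CAdj G p q
  F2 : ∀ x w v, G.Adj w v → G.dist x w = G.dist x v → ∃ p, p ∈ par G x w ∧ p ∈ par G x v

/-- The maximal sets of diameter at most `n`. -/
def MD {V : Type u} (G : SimpleGraph V) (n : ℕ) (A : Set V) : Prop :=
  A.Nonempty ∧ (∀ a ∈ A, ∀ b ∈ A, G.dist a b ≤ n) ∧ ∀ v, (∀ a ∈ A, G.dist a v ≤ n) → v ∈ A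

/-- The graph of the maximal sets of diameter at most `n`; two of them are adjacent when their
union has diameter at most `n + 1`. -/
def GG {V : Type u} (G : SimpleGraph V) (n : ℕ) : Gph.{u} where
  V := {A : Set V // MD G n A}
  G :=
    { Adj := fun A B => A ≠ B ∧ ∀ a ∈ A.1, ∀ b ∈ B.1, G.dist a b ≤ n + 1
      symm := ⟨fun _ _ h => ⟨h.1.symm, fun a ha b hb => by
        rw [SimpleGraph.dist_comm]; exact h.2 b hb a ha⟩⟩
      loopless := ⟨fun _ h => h.1 rfl⟩ }

/-- There are three vertices at pairwise distance `n` such that the first steps from the first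
one towards the other two are different (they span a flat triangle). -/
def TriAt {V : Type u} (G : SimpleGraph V) (n : ℕ) (x u v : V) : Prop :=
  G.dist x u = n ∧ G.dist x v = n ∧ G.dist u v = n ∧ par G u x ∩ par G v x = ∅

/-- `G` has a flat triangle of side `n`. -/
def HasTri {V : Type u} (G : SimpleGraph V) (n : ℕ) : Prop := ∃ x u v, TriAt G n x u v

/-- `star v` is a maximal clique of the clique graph. -/
def S1 {V : Type u} (G : SimpleGraph V) : Prop :=
  ∀ (v : V) (Q : KV G), (∀ R : KV G, v ∈ R.1 → (Q.1 ∩ R.1).Nonempty) → v ∈ Q.1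

/-- The cliques in a clique of the clique graph have a common vertex. -/
def S2 {V : Type u} (G : SimpleGraph V) : Prop :=
  ∀ S : KV (kG G), ∃ v : V, ∀ Q ∈ S.1, v ∈ Q.1

/-- A vertex is determined by its cliques. -/
def S3 {V : Type u} (G : SimpleGraph V) : Prop :=
  ∀ v w : V, (∀ Q : KV G, v ∈ Q.1 ↔ w ∈ Q.1) → v = w

/-- `w` lies below the vertex `z` of the `m`-th iterated clique graph. -/
def Below : (m : ℕ) → (X : Gph.{u}) → X.V → (kIter m X).V → Prop
  | 0, _, w, z => w = z
  | m + 1, X, w, Q => ∃ z : (kIter m X).V, z ∈ Q.1 ∧ Below m X w z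

/-- Lattice points of level `m` (double coordinates). -/
def Valid (m : ℕ) (a b c : ℤ) : Prop :=
  (a - m) % 2 = 0 ∧ (b - m) % 2 = 0 ∧ (c - m) % 2 = 0 ∧ |a + b + c| ≤ m

end CLQ
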