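import Pool.Agent.CLQ.Base

/-!
# Clique dynamics at local girth six: definition of the universal triangular cover
-/

namespace CLQ

universe u

variable {V : Type u} {G : SimpleGraph V}

/-- a level -/
structure Lvl (G : SimpleGraph V) where
  /-- the vertices -/
  S : Type u
  /-- siblings -/
  sib : S → S → Prop
  /-- the map to `G` -/
  p : S → V
  /-- the images of the parents -/
  P : S → Set V

/-- the invariants of a level -/
structure Lvl.OK (L : Lvl G) : Prop where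
  symm : ∀ a b, L.sib a b → L.sib b a
  adj : ∀ a b, L.sib a b → G.Adj (L.p a) (L.p b)
  Padj : ∀ a, ∀ q ∈ L.P a, G.Adj (L.p a) q
  Pcl : ∀ a, ∀ q ∈ L.P a, ∀ q' ∈ L.P a, CAdj G q q'
  sibP : ∀ a b, L.sib a b → L.p b ∉ L.P a
  sibC : ∀ a b, L.sib a b → ∃ q, q ∈ L.P a ∧ q ∈ L.P b
  sib_ex : ∀ a s, G.Adj (L.p a) s → s ∉ L.P a → (∃ q ∈ L.P a, G.Adj q s) →
    ∃ b, L.sib a b ∧ L.p b = s
  sib_inj : ∀ a b b', L.sib a b → L.sib a b' → L.p b = L.p b' → b = b'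

/-- `g` is a child direction at `a` -/
def Ch (L : Lvl G) (a : L.S) (g : V) : Prop :=
  G.Adj (L.p a) g ∧ g ∉ L.P a ∧ ∀ q ∈ L.P a, ¬ G.Adj q g

/-- the parents of the child of `a` in the direction `g` -/
def cls (L : Lvl G) (a : L.S) (g : V) : Set L.S :=
  {b | (b = a ∨ L.sib a b) ∧ G.Adj (L.p b) g}

/-- the next level -/
def nxt (L : Lvl G) : Lvl G where
  S := {x : V × Set L.S // ∃ a, Ch L a x.1 ∧ x.2 = cls L a x.1}
  sib x y := G.Adj x.1.1 y.1.1 ∧ ∃ a, a ∈ x.1.2 ∧ a ∈ y.1.2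
  p x := x.1.1
  P x := L.p '' x.1.2

/-- the base level -/
def lev0 (G : SimpleGraph V) (g0 : V) : Lvl G where
  S := PUnit
  sib _ _ := False
  p _ := g0
  P _ := ∅

/-- the levels -/
def lev (G : SimpleGraph V) (g0 : V) : ℕ → Lvl G
  | 0 => lev0 G g0
  | n + 1 => nxt (lev G g0 n)

/-- adjacency in the universal cover -/
inductive UAdj (G : SimpleGraph V) (g0 : V) :
    (Σ n, (lev G g0 n).S) → (Σ n, (lev G g0 n).S) → Prop
  | sib {n : ℕ} (a b : (lev G g0 n).S) (h : (lev G g0 n).sib a b) : UAdj G g0 ⟨n, a⟩ ⟨n, b⟩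
  | up {n : ℕ} (a : (lev G g0 n).S) (b : (lev G g0 (n + 1)).S) (h : a ∈ b.1.2) :
      UAdj G g0 ⟨n, a⟩ ⟨n + 1, b⟩
  | down {n : ℕ} (a : (lev G g0 n).S) (b : (lev G g0 (n + 1)).S) (h : a ∈ b.1.2) :
      UAdj G g0 ⟨n + 1, b⟩ ⟨n, a⟩

/-- the universal triangular cover -/
def Un (G : SimpleGraph V) (g0 : V) : Gph.{u} where
  V := Σ n, (lev G g0 n).S
  G := SimpleGraph.fromRel (UAdj G g0)

/-- the projection -/
def Un.pr (G : SimpleGraph V) (g0 : V) (x : (Un G g0).V) : V := (lev G g0 x.1).p x.2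

/-- the base point -/
def Un.base (G : SimpleGraph V) (g0 : V) : (Un G g0).V := ⟨0, PUnit.unit⟩

end CLQ
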