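import Pool.Agent.CLQ.KMap

/-!
# Clique dynamics at local girth six: DescA

`S1` and `S3` descend along covers.
S1: let `v : X.V` and let the clique `Q` of `X` meet every clique through `v`.  Take `p`, `v'`
with `p v' = v`.  `Q` meets some clique through `v`, so there is `u ∈ Q` with `CAdj v u`; lift to
`u'` near `v'` and lift `Q` to `Q' ∋ u'` (`klift`).  Claim: `Q'` meets every clique `R' ∋ v'`:
`kmap R' ∋ v` meets `Q` in a vertex `w`; `CAdj v w`, `CAdj u w` (both in `Q`).  Let `w' ∈ R'` with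
`p w' = w`, `CAdj v' w'`.  `u'`, `w'` near `v'`, so `CAdj u' w'` by `ctri`.  Let `w'' ∈ Q'` with
`p w'' = w`; `w'`, `w''` near `u'` so `w' = w'' ∈ Q' ∩ R'`.  By `S1 Y.G`: `v' ∈ Q'`, so `v ∈ Q`.
S3: let `v, w` have the same cliques; then `CAdj v w`.  Take `v'` over `v` and the lift `w'` of
`w` near `v'`.  `v'` and `w'` have the same cliques: if `v' ∈ Q'` then `v ∈ kmap Q'`, so
`w ∈ kmap Q'`, `w = p w''` with `w'' ∈ Q'`, `w''` near `v'`, so `w'' = w'`; symmetric.  So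
`v' = w'`.
-/

namespace CLQ

universe u

theorem S1_desc {Y X : Gph.{u}} (h : JCover Y X) (h1 : S1 Y.G) : S1 X.G := by
  intro v Q hQ
  obtain ⟨p, v', hp, rfl⟩ := h v
  -- some vertex of Q near v
  obtain ⟨R0, hR0⟩ := exists_MC_vertex (G := X.G) (p v')
  obtain ⟨u, huQ, huR⟩ := hQ R0 hR0
  have hvu : CAdj X.G (p v') u := R0.cadj hR0 huR
  obtain ⟨u', hvu', rfl⟩ := hp.clift v' u hvu
  obtain ⟨Q', huQ', hQQ⟩ := klift hp u' Q huQ
  have himg : Q.1 = p '' Q'.1 := by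
    rw [← hQQ]; rfl
  have key : v' ∈ Q'.1 := by
    apply h1 v' Q'
    intro R' hR'
    obtain ⟨w, hwQ, hwR⟩ := hQ (kmap hp R') ⟨v', hR', rfl⟩
    obtain ⟨w', hw'R, rfl⟩ := hwR
    have hvw' : CAdj Y.G v' w' := R'.cadj hR' hw'R
    have huw : CAdj X.G (p u') (p w') := Q.cadj huQ hwQ
    have huw' : CAdj Y.G u' w' := hp.ctri hvu' hvw' huw
    rw [himg] at hwQ
    obtain ⟨w'', hw''Q, hw''⟩ := hwQ
    have huw'' : CAdj Y.G u' w'' := Q'.cadj huQ' hw''Q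
    have heq : w'' = w' := hp.cinj huw'' huw' hw''
    exact ⟨w', heq ▸ hw''Q, hw'R⟩
  rw [himg]
  exact ⟨v', key, rfl⟩

theorem S3_desc {Y X : Gph.{u}} (h : JCover Y X) (h3 : S3 Y.G) : S3 X.G := by
  intro v w hvw
  obtain ⟨p, v', hp, rfl⟩ := h v
  obtain ⟨R0, hR0⟩ := exists_MC_vertex (G := X.G) (p v')
  have hwR : w ∈ R0.1 := (hvw R0).1 hR0
  have hcw : CAdj X.G (p v') w := R0.cadj hR0 hwR
  obtain ⟨w', hvw', rfl⟩ := hp.clift v' w hcw
  have : v' = w' := by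
    apply h3
    intro Q'
    constructor
    · intro hv'
      have h1 : p v' ∈ (kmap hp Q').1 := ⟨v', hv', rfl⟩
      obtain ⟨w'', hw''Q, hw''⟩ := (hvw (kmap hp Q')).1 h1
      have h2 : CAdj Y.G v' w'' := Q'.cadj hv' hw''Q
      have h4 : w'' = w' := hp.cinj h2 hvw' hw''
      exact h4 ▸ hw''Q
    · intro hw'
      have h1 : p w' ∈ (kmap hp Q').1 := ⟨w', hw', rfl⟩
      obtain ⟨v'', hv''Q, hv''⟩ := (hvw (kmap hp Q')).2 h1
      have h2 : CAdj Y.G w' v'' := Q'.cadj hw' hv''Q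
      have h4 : v'' = v' := hp.cinj h2 hvw'.symm hv''
      exact h4 ▸ hv''Q
  rw [this]

end CLQ
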