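import Pool.Agent.CLQ.KCov

/-!
# Clique dynamics at local girth six: DescB

`S2` descends along covers: let `S` be a clique of `kG X.G`; take `Q ∈ S`, a cover `p : Y → X`
and `Q'` with `kmap hp Q' = Q` (take `z ∈ Q`, `p y = z`, `klift`).  `kcover hp` is a triangular
cover `kG Y.G → kG X.G`, so `klift` for it gives a clique `S'` of `kG Y.G` with image `S`.
`S2 Y.G` gives a common vertex `v'` of the members of `S'`; then `p v'` is a common vertex of the
members of `S`.
-/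

namespace CLQ

universe u

theorem S2_desc {Y X : Gph.{u}} (h : JCover Y X) (h2 : S2 Y.G) : S2 X.G := by
  intro S
  obtain ⟨Q, hQ⟩ := S.2.1
  obtain ⟨z, hz⟩ := Q.2.1
  obtain ⟨p, y, hp, hy⟩ := h z
  have hy' : p y ∈ Q.1 := by
    rw [hy]
    exact hz
  obtain ⟨Q', _, hQQ⟩ := klift hp y Q hy'
  obtain ⟨S', _, hSS⟩ := klift (kcover hp) Q' S (by rw [hQQ]; exact hQ)
  obtain ⟨v, hv⟩ := h2 S'
  refine ⟨p v, ?_⟩
  intro R hR
  have hR' : R ∈ (kmap (kcover hp) S').1 := by
    rw [hSS]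
    exact hR
  obtain ⟨R', hR1, rfl⟩ := hR'
  exact ⟨v, hv R' hR1, rfl⟩

end CLQ
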