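import Pool.Agent.CLQ.MDb

/-!
# Clique dynamics at local girth six: EXT

`ext`: geodesics can be extended.  Let `p ∈ par x a`.  There is a common neighbour `u` of `a` and
`p` which is not in `par x a` (the two common neighbours of `deg a p` are not both in `par x a`:
otherwise they would be adjacent, k4).  There is a common neighbour `q ≠ p` of `a` and `u`
(`deg a u`).  `q ∉ par x a`: otherwise `q ~ p` (F1) and `a, p, u, q` contradicts k4.  The level of
`q` (distance to `x`) is not that of `a`: otherwise F2 gives `p' ∈ par x a` adjacent to `q`; if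
`p' = p` : `a, p, u, q` contradicts k4; otherwise `p' ~ p` and `p, u, q, p'` is a 4-cycle in the
link of `a` (`u ≠ p'` as `u ∉ par x a`): c4.
`nb_eq`: `⊆` clear, `⊇` is `MD.nbhd`.
`grow`: diameter by `diam2`.  Maximality: let `v` be within `n + 2` of all points of `nb G A`,
and `a ∈ A`; if `dist a v ≥ n + 2` extend the geodesic from `v` beyond `a` (`ext`): `a' ∈ nb G A`
with `dist v a' ≥ n + 3`, contradiction; so `dist a v ≤ n + 1` for all `a ∈ A`: `nb_eq`.
`grow_inj`: let `a ∈ A` and `b ∈ B`; if `dist a b ≥ n + 1` extend beyond `a` to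
`a' ∈ nb G A = nb G B`, `dist b a' ≥ n + 2`, contradiction to `nb_eq` for `B`.  So `A ⊆ B` by
maximality, and symmetrically.
-/

namespace CLQ

universe u

variable {V : Type u} {G : SimpleGraph V}

/-- closed neighbourhood of a set -/
def nb (G : SimpleGraph V) (A : Set V) : Set V := {y | ∃ a ∈ A, G.dist a y ≤ 1}

theorem ext (hS : Sys G) (hG : Good G) (x a : V) (h : x ≠ a) :
    ∃ a', G.Adj a a' ∧ G.dist x a' = G.dist x a + 1 := by
  obtain ⟨p, hp⟩ := par_nonempty hS.conn (x := x) (w := a) h.symm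
  have hap : G.Adj a p := hp.1
  have hu : ∃ u, G.Adj a u ∧ G.Adj p u ∧ u ∉ par G x a := by
    obtain ⟨u1, u2, hne, h1, h2, h3, h4⟩ := hG.deg a p hap
    by_cases hu1 : u1 ∈ par G x a
    · by_cases hu2 : u2 ∈ par G x a
      · exact (hS.k4 a p u1 u2 hap h1 h3 h2 (hS.par_ne hu1 hu2 hne) h4).elim
      · exact ⟨u2, h3, h4, hu2⟩
    · exact ⟨u1, h1, h2, hu1⟩
  obtain ⟨u, hau, hpu, hunp⟩ := hu
  have hq : ∃ q, G.Adj a q ∧ G.Adj u q ∧ q ≠ p := by
    obtain ⟨q1, q2, hne, h1, h2, h3, h4⟩ := hG.deg a u hau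
    by_cases hq1 : q1 = p
    · refine ⟨q2, h3, h4, ?_⟩
      rintro rfl
      exact hne hq1
    · exact ⟨q1, h1, h2, hq1⟩
  obtain ⟨q, haq, huq, hqp⟩ := hq
  have hk : ¬ G.Adj p q := fun hpq => hS.k4 a p u q hap hau haq hpu huq hpq
  have hqn : q ∉ par G x a := fun hq => hk (hS.par_ne hp hq hqp.symm)
  have hne : G.dist x a ≠ G.dist x q := by
    intro he
    obtain ⟨p', hp', hp''⟩ := hS.F2 x a q haq he
    have hqp' : G.Adj q p' := hp''.1
    by_cases hpp : p = p'
    · subst hpp
      exact hk hqp'.symm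
    · have h1 : G.Adj p p' := hS.par_ne hp hp' hpp
      refine hS.c4 a p u q p' hap hau haq hp'.1 hpu huq hqp' h1.symm hqp.symm ?_
      rintro rfl
      exact hunp hp'
  refine ⟨q, haq, ?_⟩
  have h1 := dist_adj hS.conn x (Or.inr haq)
  have h2 := dist_adj hS.conn x (Or.inr haq.symm)
  have h3 : ¬ G.dist x a = G.dist x q + 1 := fun h => hqn ⟨haq, h⟩
  omega

theorem nb_eq (hS : Sys G) {n : ℕ} {A : Set V} (hA : MD G n A) :
    nb G A = {y | ∀ a ∈ A, G.dist a y ≤ n + 1} := by
  ext y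
  constructor
  · rintro ⟨a, ha, hay⟩ b hb
    have h1 := tri hS.conn b a y
    have h2 := hA.2.1 b hb a ha
    omega
  · intro h
    exact MD.nbhd hS hA h

theorem grow (hS : Sys G) (hG : Good G) {n : ℕ} {A : Set V} (hA : MD G n A) :
    MD G (n + 2) (nb G A) := by
  have hnb := nb_eq hS hA
  refine ⟨?_, ?_, ?_⟩
  · obtain ⟨a, ha⟩ := hA.1
    exact ⟨a, a, ha, by simp⟩
  · intro y hy z hz
    rw [hnb] at hy hz
    exact MD.diam2 hS hA hy hz
  · intro v hv
    rw [hnb]
    intro a ha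
    by_contra hlt
    have hva : v ≠ a := by
      rintro rfl
      simp at hlt
    obtain ⟨a', h1, h2⟩ := ext hS hG v a hva
    have h3 : a' ∈ nb G A := ⟨a, ha, (SimpleGraph.dist_eq_one_iff_adj.2 h1).le⟩
    have h4 := hv a' h3
    rw [SimpleGraph.dist_comm] at h4
    rw [SimpleGraph.dist_comm] at hlt
    omega

theorem grow_inj (hS : Sys G) (hG : Good G) {n : ℕ} {A B : Set V} (hA : MD G n A)
    (hB : MD G n B) (h : nb G A = nb G B) : A = B := by
  have key : ∀ {A B : Set V}, MD G n A → MD G n B → nb G A = nb G B → A ⊆ B := by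
    intro A B hA hB h a ha
    apply hB.2.2
    intro b hb
    by_contra hlt
    have hba : b ≠ a := by
      rintro rfl
      simp at hlt
    obtain ⟨a', h1, h2⟩ := ext hS hG b a hba
    have h3 : a' ∈ nb G A := ⟨a, ha, (SimpleGraph.dist_eq_one_iff_adj.2 h1).le⟩
    rw [h, nb_eq hS hB] at h3
    have h4 := h3 b hb
    omega
  exact Set.Subset.antisymm (key hA hB h) (key hB hA h.symm)

end CLQ
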