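import Pool.Agent.CLQ.TRI

/-!
# Clique dynamics at local girth six: FLT

The flat triangle, in coordinates `j + k ≤ n`, `t 0 0 = x`, `t n 0 = u`, `t 0 n = v`:
(a) `dist x (t j k) = j + k`, (b) `dist u (t j k) = n - j`, (c) `dist v (t j k) = n - k`,
(d) `t j k`, `t (j+1) k`, `t j (k+1)` are pairwise adjacent for `j + k + 1 ≤ n`.
Induction on `n`; `n = 0`: constant.  Step for `TriAt G (n + 1) x u v`: `shrink` gives `e`, `f` and
the triangle `t` for `(x, e, f)`.  The new row: `g j` (`j ≤ n + 1`) is a point with
`dist v (g j) = j`, `dist (g j) u = n + 1 - j` (`exists_between`); put `t' j k = t j k` if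
`j + k ≤ n` and `t' j k = g j` otherwise.
(a): `dist x (g j) = n + 1` by `side_dist`.
Row edges: the point at distance `j` from `v` on a geodesic from `g (j+1)` to `v` is on the side,
so it is `g j` by `side_unique`; so `g j ~ g (j + 1)`.
F2 (`x`; `g j`, `g (j+1)`) gives `c j ∈ par x (g j) ∩ par x (g (j+1))`, `j ≤ n`, at level `n`.
`c 0 ∈ par x v = {f}`, `c n ∈ par x u = {e}`, `CAdj (c j) (c (j+1))` (both in
`par x (g (j+1))`, F1), so `dist f (c j) ≤ j`, `dist (c j) e ≤ n - j`, and `dist e f = n`: `c j` is
on the side from `f` to `e` at distance `j` from `f`, so `c j = t j (n - j)` by `side_unique` for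
`(x, e, f)`.  So (d) holds for `j + k = n`.
(b): for the new row by definition.  For `j + k ≤ n`: `dist u (t j k) ≤ 1 + dist e (t j k) =
n + 1 - j`.  Lower bound: `t' 0 k'` (`k' ≤ n + 1`) is on a geodesic from `x` to `v`
(`dist x = k'` and `dist v ≤ 1 + (n - k')`), so `dist u (t' 0 k') = n + 1` by `side_dist` (for
`(u, v, x)` or so); and `dist (t j k) (t 0 (k + j)) ≤ j` by (d) (steps
`t (j+1) k ~ t j (k+1)`), so `dist u (t j k) ≥ n + 1 - j`.  (c) in the same way.
-/

namespace CLQ

universe u

variable {V : Type u} {G : SimpleGraph V}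

theorem flat_tri (hS : Sys G) (n : ℕ) (x u v : V) (h : TriAt G n x u v) :
    ∃ t : ℕ → ℕ → V, (∀ j k, j + k ≤ n → G.dist x (t j k) = j + k) ∧
      (∀ j k, j + k ≤ n → G.dist u (t j k) + j = n) ∧
      (∀ j k, j + k ≤ n → G.dist v (t j k) + k = n) ∧
      ∀ j k, j + k + 1 ≤ n → G.Adj (t j k) (t (j + 1) k) ∧ G.Adj (t j k) (t j (k + 1)) ∧
        G.Adj (t (j + 1) k) (t j (k + 1)) := by
  have hc := hS.conn
  induction n generalizing x u v with
  | zero =>
    have h1 : x = u := (hc.dist_eq_zero_iff).1 h.1
    have h2 : x = v := (hc.dist_eq_zero_iff).1 h.2.1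
    subst h1
    subst h2
    refine ⟨fun _ _ => x, ?_, ?_, ?_, ?_⟩
    · intro j k hjk
      simp only [SimpleGraph.dist_self]
      omega
    · intro j k hjk
      simp only [SimpleGraph.dist_self]
      omega
    · intro j k hjk
      simp only [SimpleGraph.dist_self]
      omega
    · intro j k hjk
      omega
  | succ n ih =>
    obtain ⟨e, f, he, hf, ht⟩ := h.shrink hS
    obtain ⟨t, ta, tb, tc, td⟩ := ih x e f ht
    have hxu := h.1
    have hxv := h.2.1
    have huv := h.2.2.1
    have heu : e ∈ par G x u := by rw [he]; rfl
    have hfv : f ∈ par G x v := by rw [hf]; rfl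
    have hue : G.dist u e = 1 := SimpleGraph.dist_eq_one_iff_adj.2 heu.1
    have hvf : G.dist v f = 1 := SimpleGraph.dist_eq_one_iff_adj.2 hfv.1
    have hvu : G.dist v u = n + 1 := by rw [SimpleGraph.dist_comm]; exact huv
    have hg0 : ∀ j, ∃ c, j ≤ n + 1 → G.dist v c = j ∧ j + G.dist c u = n + 1 := by
      intro j
      by_cases hj : j ≤ n + 1
      · obtain ⟨c, h1, h2⟩ := exists_between hc v u j (by omega)
        exact ⟨c, fun _ => ⟨h1, by omega⟩⟩
      · exact ⟨x, fun h' => absurd h' hj⟩
    choose g hg using hg0
    have hgu : ∀ j, j ≤ n + 1 → G.dist u (g j) + j = n + 1 := by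
      intro j hj
      have := (hg j hj).2
      rw [SimpleGraph.dist_comm] at this
      omega
    have hgs : ∀ j, j ≤ n + 1 → G.dist u (g j) + G.dist (g j) v = n + 1 := by
      intro j hj
      have h1 := hgu j hj
      have h2 := (hg j hj).1
      rw [SimpleGraph.dist_comm] at h2
      omega
    -- levels of the new row
    have hgx : ∀ j, j ≤ n + 1 → G.dist x (g j) = n + 1 := fun j hj =>
      h.side_dist hS (hgs j hj)
    -- edges of the new row
    have hge : ∀ j, j ≤ n → G.Adj (g (j + 1)) (g j) := by
      intro j hj
      obtain ⟨h1, h2⟩ := hg (j + 1) (by omega)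
      obtain ⟨c, h3, h4⟩ := exists_between hc (g (j + 1)) v 1
        (by rw [SimpleGraph.dist_comm]; omega)
      have h5 : G.dist (g (j + 1)) v = j + 1 := by rw [SimpleGraph.dist_comm]; exact h1
      have h6 : G.dist u c ≤ G.dist u (g (j + 1)) + G.dist (g (j + 1)) c := tri hc _ _ _
      have h7 : G.dist u v ≤ G.dist u c + G.dist c v := tri hc _ _ _
      have h8 := hgu (j + 1) (by omega)
      have h9 := hgu j (by omega)
      have h10 : c = g j := by
        refine h.side_unique hS ?_ (hgs j (by omega)) ?_
        · omega
        · omega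
      rw [← h10]
      exact SimpleGraph.dist_eq_one_iff_adj.1 h3
    -- common parents
    have hc0 : ∀ j, ∃ c, j ≤ n → c ∈ par G x (g j) ∧ c ∈ par G x (g (j + 1)) := by
      intro j
      by_cases hj : j ≤ n
      · obtain ⟨c, h1, h2⟩ := hS.F2 x (g j) (g (j + 1)) (hge j hj).symm
          (by rw [hgx j (by omega), hgx (j + 1) (by omega)])
        exact ⟨c, fun _ => ⟨h1, h2⟩⟩
      · exact ⟨x, fun h' => absurd h' hj⟩
    choose c hcc using hc0
    have hcs : ∀ j, j + 1 ≤ n → CAdj G (c j) (c (j + 1)) := by
      intro j hj
      exact hS.F1 x (g (j + 1)) _ _ (hcc j (by omega)).2 (hcc (j + 1) hj).1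
    have hg00 : v = g 0 := (hc.dist_eq_zero_iff).1 (hg 0 (by omega)).1
    have hgn : u = g (n + 1) := by
      refine (hc.dist_eq_zero_iff).1 ?_
      have := hgu (n + 1) le_rfl
      omega
    have hcf : c 0 = f := by
      have h1 := (hcc 0 (by omega)).1
      rw [← hg00, hf] at h1
      exact h1
    have hce : c n = e := by
      have h1 := (hcc n le_rfl).2
      rw [← hgn, he] at h1
      exact h1
    have hfc : ∀ j, j ≤ n → G.dist f (c j) ≤ j := by
      intro j
      induction j with
      | zero => intro _; rw [hcf]; simp
      | succ j ihj =>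
        intro hj
        have h1 := ihj (by omega)
        have h2 := dist_adj hc f (hcs j hj).symm
        omega
    have hec : ∀ i j, i + j = n → G.dist e (c j) ≤ i := by
      intro i
      induction i with
      | zero =>
        intro j hj
        have : j = n := by omega
        rw [this, hce]
        simp
      | succ i ihi =>
        intro j hj
        have h1 := ihi (j + 1) (by omega)
        have h2 := dist_adj hc e (hcs j (by omega))
        omega
    have hct : ∀ j k, j + k = n → c j = t j k := by
      intro j k hjk
      have h1 := hfc j (by omega)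
      have h2 := hec k j (by omega)
      have h3 : G.dist e f ≤ G.dist e (c j) + G.dist (c j) f := tri hc _ _ _
      have h4 : G.dist (c j) f = G.dist f (c j) := SimpleGraph.dist_comm
      have h5 := ht.2.2.1
      have h6 := tb j k (by omega)
      have h7 := tc j k (by omega)
      have h8 : G.dist (t j k) f = G.dist f (t j k) := SimpleGraph.dist_comm
      refine ht.side_unique hS ?_ ?_ ?_
      · omega
      · omega
      · omega
    -- paths in the old triangle
    have hp1 : ∀ j k, j + k ≤ n → G.dist (t j k) (t 0 (k + j)) ≤ j := by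
      intro j
      induction j with
      | zero => intro k _; simp
      | succ j ihj =>
        intro k hk
        have h1 := ihj (k + 1) (by omega)
        have h2 := SimpleGraph.dist_eq_one_iff_adj.2 (td j k (by omega)).2.2
        have h3 := tri hc (t (j + 1) k) (t j (k + 1)) (t 0 (k + 1 + j))
        have h4 : k + 1 + j = k + (j + 1) := by omega
        rw [h4] at h3 h1
        omega
    have hp2 : ∀ k j, j + k ≤ n → G.dist (t j k) (t (j + k) 0) ≤ k := by
      intro k
      induction k with
      | zero => intro j _; simp
      | succ k ihk =>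
        intro j hj
        have h1 := ihk (j + 1) (by omega)
        have h2 := SimpleGraph.dist_eq_one_iff_adj.2 (td j k (by omega)).2.2
        have h3 := tri hc (t j (k + 1)) (t (j + 1) k) (t (j + 1 + k) 0)
        have h4 : j + 1 + k = j + (k + 1) := by omega
        have h5 : G.dist (t j (k + 1)) (t (j + 1) k) = G.dist (t (j + 1) k) (t j (k + 1)) :=
          SimpleGraph.dist_comm
        rw [h4] at h3 h1
        omega
    have hb0 : ∀ k, k ≤ n → G.dist u (t 0 k) = n + 1 := by
      intro k hk
      refine (h.rot hS).side_dist hS ?_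
      have h1 := ta 0 k (by omega)
      have h2 := tc 0 k (by omega)
      have h3 := tri hc v f (t 0 k)
      have h4 := tri hc v (t 0 k) x
      have h5 : G.dist v x = G.dist x v := SimpleGraph.dist_comm
      have h6 : G.dist (t 0 k) x = G.dist x (t 0 k) := SimpleGraph.dist_comm
      omega
    have hc1 : ∀ j, j ≤ n → G.dist v (t j 0) = n + 1 := by
      intro j hj
      refine ((h.rot hS).rot hS).side_dist hS ?_
      have h1 := ta j 0 (by omega)
      have h2 := tb j 0 (by omega)
      have h3 := tri hc u e (t j 0)
      have h4 := tri hc x (t j 0) u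
      have h6 : G.dist (t j 0) u = G.dist u (t j 0) := SimpleGraph.dist_comm
      omega
    have hb : ∀ j k, j + k ≤ n → G.dist u (t j k) + j = n + 1 := by
      intro j k hjk
      have h1 := tb j k hjk
      have h2 := tri hc u e (t j k)
      have h3 := hb0 (k + j) (by omega)
      have h4 := hp1 j k hjk
      have h5 := tri hc u (t j k) (t 0 (k + j))
      omega
    have hcv : ∀ j k, j + k ≤ n → G.dist v (t j k) + k = n + 1 := by
      intro j k hjk
      have h1 := tc j k hjk
      have h2 := tri hc v f (t j k)
      have h3 := hc1 (j + k) (by omega)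
      have h4 := hp2 k j hjk
      have h5 := tri hc v (t j k) (t (j + k) 0)
      omega
    refine ⟨fun j k => if j + k ≤ n then t j k else g j, ?_, ?_, ?_, ?_⟩
    · intro j k hjk
      by_cases h1 : j + k ≤ n
      · simp only [h1, if_true]
        exact ta j k h1
      · simp only [h1, if_false]
        rw [hgx j (by omega)]
        omega
    · intro j k hjk
      by_cases h1 : j + k ≤ n
      · simp only [h1, if_true]
        exact hb j k h1
      · simp only [h1, if_false]
        exact hgu j (by omega)
    · intro j k hjk
      by_cases h1 : j + k ≤ n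
      · simp only [h1, if_true]
        exact hcv j k h1
      · simp only [h1, if_false]
        rw [(hg j (by omega)).1]
        omega
    · intro j k hjk
      have h0 : j + k ≤ n := by omega
      by_cases h1 : j + k + 1 ≤ n
      · have h2 : j + 1 + k ≤ n := by omega
        have h3 : j + (k + 1) ≤ n := by omega
        simp only [h0, h2, h3, if_true]
        exact td j k h1
      · have h2 : ¬ (j + 1 + k ≤ n) := by omega
        have h3 : ¬ (j + (k + 1) ≤ n) := by omega
        simp only [h0, h2, h3, if_true, if_false]
        have h4 : j + k = n := by omega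
        have h5 := hct j k h4
        have h6 := hcc j (by omega)
        rw [h5] at h6
        exact ⟨h6.2.1.symm, h6.1.1.symm, hge j (by omega)⟩

end CLQ
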