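import Pool.Agent.CLQ.FLT

/-!
# Clique dynamics at local girth six: FMP

From the flat triangle of side `n = 3 R` (`flat_tri`) to a map `T` on all pairs of integers (used
for even `a`, `b`): let `j = max 0 (min (a / 2 + R) (3 R))`,
`k = max 0 (min (b / 2 + R) (3 R - j))` (so `j, k ≥ 0`, `j + k ≤ 3 R`) and
`T a b = t j.toNat k.toNat`.
First claim: for even `a, b, a', b'` with the differences ≤ 2 the half differences are ≤ 1, and
the clamped values satisfy `|j - j'| ≤ 1`, `|k - k'| ≤ 1`, `|(j + k) - (j' + k')| ≤ 1` (omega after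
unfolding max and min); then `t j k`, `t j' k'` are equal or adjacent by (d).
Second claim: in the range `|a|, |b|, |a + b| ≤ 2 R` nothing is clamped (`j = a / 2 + R`,
`k = b / 2 + R`, `j + k ≤ 3 R`), and `|j - j'| ≤ dist` by the distances to `u` and the triangle
inequality, `|k - k'| ≤ dist` by the distances to `v`.
-/

namespace CLQ

universe u

variable {V : Type u} {G : SimpleGraph V}

/-- the clamped first coordinate -/
def FMPj (R : ℕ) (a : ℤ) : ℤ := max 0 (min (a / 2 + R) (3 * R))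

/-- the clamped second coordinate -/
def FMPk (R : ℕ) (a b : ℤ) : ℤ := max 0 (min (b / 2 + R) (3 * R - FMPj R a))

theorem FMPjk (R : ℕ) (a b : ℤ) : 0 ≤ FMPj R a ∧ 0 ≤ FMPk R a b ∧ FMPj R a + FMPk R a b ≤ 3 * R := by
  unfold FMPk FMPj
  omega

theorem FMPstep (R : ℕ) {a b a' b' : ℤ} (ha : a % 2 = 0) (hb : b % 2 = 0) (ha' : a' % 2 = 0)
    (hb' : b' % 2 = 0) (h1 : |a - a'| ≤ 2) (h2 : |b - b'| ≤ 2)
    (h3 : |(a + b) - (a' + b')| ≤ 2) :
    (FMPj R a - FMPj R a' ≤ 1 ∧ FMPj R a' - FMPj R a ≤ 1) ∧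
    (FMPk R a b - FMPk R a' b' ≤ 1 ∧ FMPk R a' b' - FMPk R a b ≤ 1) ∧
    ((FMPj R a + FMPk R a b) - (FMPj R a' + FMPk R a' b') ≤ 1 ∧
      (FMPj R a' + FMPk R a' b') - (FMPj R a + FMPk R a b) ≤ 1) := by
  rw [abs_le] at h1 h2 h3
  obtain ⟨α, rfl⟩ : ∃ α, a = 2 * α := ⟨a / 2, by omega⟩
  obtain ⟨β, rfl⟩ : ∃ β, b = 2 * β := ⟨b / 2, by omega⟩
  obtain ⟨α', rfl⟩ : ∃ α', a' = 2 * α' := ⟨a' / 2, by omega⟩
  obtain ⟨β', rfl⟩ : ∃ β', b' = 2 * β' := ⟨b' / 2, by omega⟩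
  have e1 : 2 * α / 2 = α := by omega
  have e2 : 2 * α' / 2 = α' := by omega
  have e3 : 2 * β / 2 = β := by omega
  have e4 : 2 * β' / 2 = β' := by omega
  unfold FMPk FMPj
  rw [e1, e2, e3, e4]
  omega

theorem FMPcadj {n : ℕ} {t : ℕ → ℕ → V}
    (hd : ∀ j k, j + k + 1 ≤ n → G.Adj (t j k) (t (j + 1) k) ∧ G.Adj (t j k) (t j (k + 1)) ∧
        G.Adj (t (j + 1) k) (t j (k + 1))) {j k j' k' : ℕ} (h : j + k ≤ n) (h' : j' + k' ≤ n)
    (h1 : j ≤ j' + 1 ∧ j' ≤ j + 1) (h2 : k ≤ k' + 1 ∧ k' ≤ k + 1)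
    (h3 : j + k ≤ j' + k' + 1 ∧ j' + k' ≤ j + k + 1) : CAdj G (t j k) (t j' k') := by
  have hcases : (j' = j ∧ k' = k) ∨ (j' = j + 1 ∧ k' = k) ∨ (j = j' + 1 ∧ k' = k) ∨
      (j' = j ∧ k' = k + 1) ∨ (j' = j ∧ k = k' + 1) ∨ (j' = j + 1 ∧ k = k' + 1) ∨
      (j = j' + 1 ∧ k' = k + 1) := by omega
  rcases hcases with ⟨rfl, rfl⟩ | ⟨rfl, rfl⟩ | ⟨rfl, rfl⟩ | ⟨rfl, rfl⟩ | ⟨rfl, rfl⟩ |
    ⟨rfl, rfl⟩ | ⟨rfl, rfl⟩
  · exact CAdj.refl _
  · exact Or.inr (hd _ _ (by omega)).1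
  · exact Or.inr (hd _ _ (by omega)).1.symm
  · exact Or.inr (hd _ _ (by omega)).2.1
  · exact Or.inr (hd _ _ (by omega)).2.1.symm
  · exact Or.inr (hd _ _ (by omega)).2.2.symm
  · exact Or.inr (hd _ _ (by omega)).2.2

theorem flat_map (hS : Sys G) (R : ℕ) (h : HasTri G (3 * R)) :
    ∃ T : ℤ → ℤ → V,
      (∀ a b a' b' : ℤ, a % 2 = 0 → b % 2 = 0 → a' % 2 = 0 → b' % 2 = 0 → |a - a'| ≤ 2 →
        |b - b'| ≤ 2 → |(a + b) - (a' + b')| ≤ 2 → CAdj G (T a b) (T a' b')) ∧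
      (∀ a b a' b' : ℤ, a % 2 = 0 → b % 2 = 0 → a' % 2 = 0 → b' % 2 = 0 → |a| ≤ 2 * R →
        |b| ≤ 2 * R → |a + b| ≤ 2 * R → |a'| ≤ 2 * R → |b'| ≤ 2 * R → |a' + b'| ≤ 2 * R →
        |a - a'| ≤ 2 * (G.dist (T a b) (T a' b') : ℤ) ∧
        |b - b'| ≤ 2 * (G.dist (T a b) (T a' b') : ℤ)) := by
  have hc := hS.conn
  obtain ⟨x, u, v, hxuv⟩ := h
  obtain ⟨t, hta, htb, htc, htd⟩ := flat_tri hS (3 * R) x u v hxuv
  refine ⟨fun a b => t (FMPj R a).toNat (FMPk R a b).toNat, ?_, ?_⟩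
  · intro a b a' b' ha hb ha' hb' h1 h2 h3
    obtain ⟨p1, p2, p3⟩ := FMPjk R a b
    obtain ⟨q1, q2, q3⟩ := FMPjk R a' b'
    obtain ⟨s1, s2, s3⟩ := FMPstep R ha hb ha' hb' h1 h2 h3
    refine FMPcadj htd ?_ ?_ ?_ ?_ ?_ <;> omega
  · intro a b a' b' ha hb ha' hb' h1 h2 h3 h1' h2' h3'
    rw [abs_le] at h1 h2 h3 h1' h2' h3'
    have ej : FMPj R a = a / 2 + R := by
      unfold FMPj
      omega
    have ek : FMPk R a b = b / 2 + R := by
      unfold FMPk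
      rw [ej]
      omega
    have ej' : FMPj R a' = a' / 2 + R := by
      unfold FMPj
      omega
    have ek' : FMPk R a' b' = b' / 2 + R := by
      unfold FMPk
      rw [ej']
      omega
    obtain ⟨p1, p2, p3⟩ := FMPjk R a b
    obtain ⟨q1, q2, q3⟩ := FMPjk R a' b'
    have hb1 := htb (FMPj R a).toNat (FMPk R a b).toNat (by omega)
    have hb2 := htb (FMPj R a').toNat (FMPk R a' b').toNat (by omega)
    have hc1 := htc (FMPj R a).toNat (FMPk R a b).toNat (by omega)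
    have hc2 := htc (FMPj R a').toNat (FMPk R a' b').toNat (by omega)
    simp only
    generalize t (FMPj R a).toNat (FMPk R a b).toNat = z at *
    generalize t (FMPj R a').toNat (FMPk R a' b').toNat = z' at *
    have t1 := tri hc u z z'
    have t2 := tri hc u z' z
    have t3 := tri hc v z z'
    have t4 := tri hc v z' z
    have e5 : G.dist z' z = G.dist z z' := SimpleGraph.dist_comm
    rw [abs_le, abs_le]
    omega

end CLQ
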