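import Pool.Agent.CLQ.SCKa

/-!
# Clique dynamics at local girth six: SCK

The clique graph of a simply connected graph is simply connected.  Let `q : Y → X.k` be a cover
and `y0 : Y.V`, `Q0 = q y0`.  Choose `v0 ∈ Q0` and lift `cq v0` to `y00` near `y0`.
`h` applied to `XT X.G Y q` and the point `(v0, y00)` gives a section `s`; write
`s v = (v, t v)`, `q (t v) = cq v`, `t v0 = y00`.
Define `S Q` (`Q : KV X.G`) as the lift of `Q` near `t v` for a chosen `v ∈ Q` (`Q` and `cq v`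
share `v`).  Claim: for every `w ∈ Q`, `CAdj (t w) (S Q)`.
-/

namespace CLQ

universe u

theorem SC.k {X : Gph.{u}} (h : SC X) : SC X.k := by
  classical
  intro Y q hq y0
  have hq' : TriCover Y.G (kG X.G) q := hq
  obtain ⟨v0, hv0⟩ := (q y0).2.1
  obtain ⟨y00, hy00, hqy00⟩ := hq'.clift y0 (cq v0)
    (CAdj_kG.2 ⟨v0, hv0, cq_mem v0⟩)
  obtain ⟨s, hs1, hs2, hs3⟩ := h (XT X.G Y q) (fun a => a.1.1) (XT_cover Y q hq')
    ⟨(v0, y00), hqy00⟩
  -- the second component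
  have hst : ∀ v, (s v).1.1 = v := hs2
  let t : X.V → Y.V := fun v => (s v).1.2
  have hqt : ∀ v, q (t v) = cq v := by
    intro v
    have h1 := (s v).2
    rw [hst v] at h1
    exact h1
  have ht0 : t v0 = y00 := by
    have h1 : s v0 = ⟨(v0, y00), hqy00⟩ := hs3
    show (s v0).1.2 = y00
    rw [h1]
  have hadj : ∀ v w, X.G.Adj v w → ∃ z : Y.V, v ∈ (q z).1 ∧ w ∈ (q z).1 ∧
      CAdj Y.G (t v) z ∧ CAdj Y.G z (t w) := by
    intro v w hvw
    obtain ⟨-, z, hz1, hz2, hz3, hz4⟩ := hs1 v w hvw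
    rw [hst v] at hz1
    rw [hst w] at hz2
    exact ⟨z, hz1, hz2, hz3, hz4⟩
  -- lifts near `t v`
  have hL : ∀ Q : KV X.G, ∃ z : Y.V, q z = Q ∧ CAdj Y.G (t (Classical.choose Q.2.1)) z := by
    intro Q
    have hv := Classical.choose_spec Q.2.1
    obtain ⟨z, hz1, hz2⟩ := hq'.clift (t (Classical.choose Q.2.1)) Q
      (CAdj_kG.2 ⟨Classical.choose Q.2.1, by rw [hqt]; exact cq_mem _, hv⟩)
    exact ⟨z, hz2, hz1⟩
  choose S hS1 hS2 using hL
  have claim : ∀ (Q : KV X.G) (w : X.V), w ∈ Q.1 → CAdj Y.G (t w) (S Q) := by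
    intro Q w hw
    have hv := Classical.choose_spec Q.2.1
    have h2 := hS2 Q
    have h1 := hS1 Q
    generalize Classical.choose Q.2.1 = v at hv h2
    rcases Q.cadj hv hw with rfl | hvw
    · exact h2
    · obtain ⟨z, hz1, hz2, hz3, hz4⟩ := hadj v w hvw
      have h3 : CAdj Y.G z (S Q) := hq'.ctri hz3 h2 (CAdj_kG.2 ⟨v, hz1, by rw [h1]; exact hv⟩)
      exact hq'.ctri hz4 h3 (CAdj_kG.2 ⟨w, by rw [hqt]; exact cq_mem w, by rw [h1]; exact hw⟩)
  have hom : ∀ Q R : KV X.G, (kG X.G).Adj Q R → Y.G.Adj (S Q) (S R) := by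
    rintro Q R ⟨hne, v, hvQ, hvR⟩
    have h1 : CAdj Y.G (S Q) (S R) := hq'.ctri (claim Q v hvQ) (claim R v hvR)
      (CAdj_kG.2 ⟨v, by rw [hS1]; exact hvQ, by rw [hS1]; exact hvR⟩)
    rcases h1 with h1 | h1
    · exact absurd (by rw [← hS1 Q, h1, hS1 R]) hne
    · exact h1
  refine ⟨S, hom, hS1, ?_⟩
  · have h1 : CAdj Y.G y00 (S (q y0)) := by
      rw [← ht0]
      exact claim (q y0) v0 hv0
    exact hq'.cinj h1 hy00.symm (hS1 (q y0))

end CLQ
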