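import Pool.Agent.CLQ.EXT

/-!
# Clique dynamics at local girth six: NEW

Let `A = {y | ∀ x ∈ X, dist x y ≤ n + 1}`.
(1) Every `w ∈ X` is within 1 of `A`: if all points of `X` are within `n + 1` of `w` then `w ∈ A`.
Otherwise `GEN` with `Z = X`, `r = n + 1` (constant).  `hss`: if `par z w ∩ par z' w = ∅` then by
MT1 `dist z z' ≥ n + 2`, so `TriAt G (n + 2) w z z'`, contradiction to `hT`.  `hsw`: if
disjoint, `dist z z' ≥ dist z w = n + 2` by MT1, so equality.  `hww`: by MT2 (as in `hsw`)
`par z' w = {p}` and `par z'' w = {p'}`; `p ≠ p'` (else `w, p, a, b` contradicts k4) and `p, p'`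
are not adjacent (else `p, a, b, p'` is a 4-cycle in the link of `w`, c4, `p ≠ b`, `a ≠ p'` by
disjointness), so MT3 gives `dist z' z'' = 2 (n + 1) > n + 2`, contradiction.
(2) `nb G A ⊆ X`: if `y ∈ A` and `dist y y' ≤ 1` then `y'` is within `n + 2` of all of `X`.
(3) `A` has diameter ≤ n: for `y ≠ y'` in `A` extend (`ext`) the geodesic from `y` beyond `y'` to
`y''`, `y'' ∈ nb G A ⊆ X`, so `dist y y' + 1 = dist y y'' ≤ n + 1`.
(4) `A` is maximal: if `v` is within `n` of `A` then by (1) within `n + 1` of all of `X`.
Nonempty by (1).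
-/

namespace CLQ

universe u

variable {V : Type u} {G : SimpleGraph V}

theorem new_iff (hS : Sys G) (hG : Good G) (n : ℕ) (hn : 1 ≤ n)
    (hT : ¬ HasTri G (n + 2)) (X : Set V) (hX : MD G (n + 2) X) :
    ∃ A, MD G n A ∧ nb G A = X := by
  obtain ⟨hX0, hX1, hX2⟩ := hX
  -- step (1)
  have step1 : ∀ w ∈ X, ∃ w', (∀ x ∈ X, G.dist x w' ≤ n + 1) ∧ G.dist w w' ≤ 1 := by
    intro w hw
    by_cases hall : ∀ z ∈ X, G.dist w z ≤ n + 1
    · refine ⟨w, fun x hx => ?_, by simp⟩
      rw [SimpleGraph.dist_comm]
      exact hall x hx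
    · push Not at hall
      obtain ⟨z0, hz0, hz0'⟩ := hall
      have dis : ∀ z ∈ X, ∀ z' ∈ X, G.dist w z = n + 2 → par G z w ∩ par G z' w = ∅ →
          G.dist z z' = n + 2 := by
        intro z hz z' hz' hwz hem
        by_contra hne
        have h1 := hX1 z hz z' hz'
        have h2 := MT1 hS z z' w (by rw [SimpleGraph.dist_comm (u := z) (v := w)]; omega)
        rw [hem] at h2
        exact Set.not_nonempty_empty h2
      have sing : ∀ z ∈ X, ∀ z' ∈ X, G.dist w z = n + 2 → G.dist w z' = n + 1 →
          par G z w ∩ par G z' w = ∅ → ∀ p ∈ par G z' w, par G z' w = {p} := by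
        intro z hz z' hz' hwz hwz' hem p hp
        have h1 := dis z hz z' hz' hwz hem
        have hne : w ≠ z' := by
          rintro rfl
          simp at hwz'
        obtain ⟨v2, hv2, -⟩ := MT2 hS z z' w hne hem (by
          rw [SimpleGraph.dist_comm (u := z) (v := w)]; omega)
        rw [hv2] at hp ⊢
        obtain rfl : p = v2 := hp
        rfl
      obtain ⟨w', hw1, hw2⟩ := GEN hS w X (fun _ => n + 1) (fun z hz => hX1 w hw z hz)
        ⟨z0, hz0, by have := hX1 w hw z0 hz0; omega⟩
        (by
          intro z hz z' hz' h1 h2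
          by_contra hem
          rw [Set.not_nonempty_iff_eq_empty] at hem
          exact hT ⟨w, z, z', h1, h2, dis z hz z' hz' h1 hem, hem⟩)
        (by
          intro z hz z' hz' h1 h2
          refine ⟨?_, ?_⟩
          · rintro rfl
            simp at h2
          · by_cases hem : par G z w ∩ par G z' w = ∅
            · right
              rw [dis z hz z' hz' h1 hem, SimpleGraph.dist_comm, h1]
            · left
              exact Set.nonempty_iff_ne_empty.2 hem)
        (by
          intro z hz z' hz' z'' hz'' h1 h2 h3 e1 e2 p hp p' hp' a ha b hb hab hap hbp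
          have s1 := sing z hz z' hz' h1 h2 e1 p hp
          have s2 := sing z hz z'' hz'' h1 h3 e2 p' hp'
          have hab' : G.Adj a b := hS.par_ne ha hb hab
          have hpb : p ≠ b := by
            rintro rfl
            have : p ∈ par G z w ∩ par G z' w := ⟨hb, hp⟩
            rw [e1] at this
            exact this
          have hap' : a ≠ p' := by
            rintro rfl
            have : a ∈ par G z w ∩ par G z'' w := ⟨ha, hp'⟩
            rw [e2] at this
            exact this
          have hpp : p ≠ p' := by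
            rintro rfl
            exact hS.k4 w p a b hp.1 ha.1 hb.1 hap.symm hab' hbp.symm
          have hnp : ¬ G.Adj p p' := by
            intro hadj
            exact hS.c4 w p a b p' hp.1 ha.1 hb.1 hp'.1 hap.symm hab' hbp hadj.symm hpb hap'
          have h4 := MT3 hS z' z'' w (by
            rw [s1, s2]
            ext t
            simp only [Set.mem_inter_iff, Set.mem_singleton_iff, Set.mem_empty_iff_false,
              iff_false]
            rintro ⟨rfl, h⟩
            exact hpp h) (by
            intro q hq q' hq'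
            rw [s1] at hq
            rw [s2] at hq'
            obtain rfl : q = p := hq
            obtain rfl : q' = p' := hq'
            exact hnp)
          have h5 := hX1 z' hz' z'' hz''
          rw [SimpleGraph.dist_comm (u := z') (v := w)] at h4
          omega)
      refine ⟨w', fun x hx => ?_, (SimpleGraph.dist_eq_one_iff_adj.2 hw1).le⟩
      rw [SimpleGraph.dist_comm]
      exact hw2 x hx
  -- step (2)
  have step2 : ∀ a, (∀ x ∈ X, G.dist x a ≤ n + 1) → ∀ y, G.dist a y ≤ 1 → y ∈ X := by
    intro a ha y hy
    refine hX2 y fun x hx => ?_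
    have h1 := tri hS.conn x a y
    have h2 := ha x hx
    omega
  refine ⟨{y | ∀ x ∈ X, G.dist x y ≤ n + 1}, ⟨?_, ?_, ?_⟩, ?_⟩
  · obtain ⟨w, hw⟩ := hX0
    obtain ⟨w', h1, -⟩ := step1 w hw
    exact ⟨w', h1⟩
  · intro y hy y' hy'
    by_cases hne : y = y'
    · subst hne
      simp
    · obtain ⟨y'', h1, h2⟩ := ext hS hG y y' hne
      have h3 : y'' ∈ X := step2 y' hy' y'' (SimpleGraph.dist_eq_one_iff_adj.2 h1).le
      have h4 := hy y'' h3
      rw [SimpleGraph.dist_comm] at h4
      omega
  · intro v hv x hx
    obtain ⟨w', h1, h2⟩ := step1 x hx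
    have h3 := hv w' h1
    have h4 := tri hS.conn x w' v
    omega
  · ext y
    constructor
    · rintro ⟨a, ha, hay⟩
      exact step2 a ha y hay
    · intro hy
      obtain ⟨w', h1, h2⟩ := step1 y hy
      refine ⟨w', h1, ?_⟩
      rw [SimpleGraph.dist_comm]
      exact h2

end CLQ
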