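import Pool.Agent.CLQ.KK
import Pool.Agent.CLQ.NEW

/-!
# Clique dynamics at local girth six: STG

`S1`: let `A` be a vertex (`MD G n A.1`) and `Q` a clique meeting all cliques through `A`;
`Q.1 = kk G n A'` (`MC_kk`).  For `y ∈ nb G A`: `insert y A` has diameter ≤ n + 1 (`nb_eq`), so it is
contained in some `A''` with `MD G (n + 1) A''` (`exists_MD`), `kk G n A''` is a clique through
`A`, so by `kk_inter` all points of `A'` are within `n + 2` of `y`.  So `A' ⊆ nb G A` by the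
maximality in `grow`, so by `nb_eq` the points of `A` are within `n + 1` of all points of `A'`:
`A ⊆ A'`.
`S3`: if `A`, `B` are in the same cliques then `nb G A = nb G B`: for `y ∈ nb G A` take `A''` as
above, `B ⊆ A''`, so `y ∈ nb G B` by `nb_eq`.  Then `grow_inj`.
`S2`: for `Q ∈ S` write `Q.1 = kk G n (A' Q)`.  The cliques in `S` meet pairwise, so by
`kk_inter` the union `X0` of the sets `A' Q` has diameter ≤ n + 2, take `X ⊇ X0` maximal
(`exists_MD`), `X = nb G A` by `new_iff`.  For `Q ∈ S`: `A' Q ⊆ nb G A`, so all points of `A` are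
within `n + 1` of all points of `A' Q`, so `A ⊆ A' Q`, that is `A ∈ Q`.
-/

namespace CLQ

universe u

variable {V : Type u} {G : SimpleGraph V}

private theorem stg_ext (hS : Sys G) {n : ℕ} {A : Set V} (hA : MD G n A) {y : V}
    (hy : y ∈ nb G A) : ∃ A', MD G (n + 1) A' ∧ A ⊆ A' ∧ y ∈ A' := by
  rw [nb_eq hS hA] at hy
  obtain ⟨A', h1, h2⟩ := exists_MD (G := G) (n + 1) (insert y A) ⟨y, Set.mem_insert _ _⟩ (by
    rintro a (rfl | ha) b (rfl | hb)
    · simp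
    · rw [SimpleGraph.dist_comm]
      exact hy b hb
    · exact hy a ha
    · have := hA.2.1 a ha b hb
      omega)
  exact ⟨A', h1, fun a ha => h2 (Set.mem_insert_of_mem _ ha), h2 (Set.mem_insert _ _)⟩

theorem GG_S1 (hS : Sys G) (hG : Good G) (n : ℕ) : S1 (GG G n).G := by
  intro A Q hQ
  obtain ⟨A', hA', hQA⟩ := MC_kk hS Q.2
  have hkey : ∀ y ∈ nb G A.1, ∀ a ∈ A', G.dist y a ≤ n + 2 := by
    intro y hy a ha
    obtain ⟨B, h1, h2, h3⟩ := stg_ext hS A.2 hy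
    have h4 := hQ ⟨kk G n B, kk_MC hS h1⟩ h2
    rw [hQA] at h4
    have h5 := (kk_inter hS hA' h1).1 h4 a ha y h3
    rw [SimpleGraph.dist_comm]
    exact h5
  have hsub : A' ⊆ nb G A.1 := fun a ha =>
    (grow hS hG A.2).2.2 a (fun y hy => hkey y hy a ha)
  rw [hQA]
  intro a ha
  apply hA'.2.2
  intro y hy
  have h6 := hsub hy
  rw [nb_eq hS A.2] at h6
  rw [SimpleGraph.dist_comm]
  exact h6 a ha

theorem GG_S3 (hS : Sys G) (hG : Good G) (n : ℕ) : S3 (GG G n).G := by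
  intro A B h
  have key : ∀ A B : (GG G n).V, (∀ Q : KV (GG G n).G, A ∈ Q.1 ↔ B ∈ Q.1) →
      nb G A.1 ⊆ nb G B.1 := by
    intro A B h y hy
    obtain ⟨A', h1, h2, h3⟩ := stg_ext hS A.2 hy
    have h4 : B ∈ kk G n A' := (h ⟨kk G n A', kk_MC hS h1⟩).1 h2
    rw [nb_eq hS B.2]
    intro b hb
    exact h1.2.1 b (h4 hb) y h3
  exact Subtype.ext (grow_inj hS hG A.2 B.2
    (Set.Subset.antisymm (key A B h) (key B A fun Q => (h Q).symm)))

theorem GG_S2 (hS : Sys G) (hG : Good G) (n : ℕ) (hn : 1 ≤ n) (hT : ¬ HasTri G (n + 2)) :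
    S2 (GG G n).G := by
  intro S
  have hch : ∀ Q : KV (GG G n).G, ∃ A', MD G (n + 1) A' ∧ Q.1 = kk G n A' :=
    fun Q => MC_kk hS Q.2
  choose f hf1 hf2 using hch
  obtain ⟨Q0, hQ0⟩ := S.2.1
  obtain ⟨X, hX, hsub⟩ := exists_MD (G := G) (n + 2) {x | ∃ Q ∈ S.1, x ∈ f Q} (by
      obtain ⟨x, hx⟩ := (hf1 Q0).1
      exact ⟨x, Q0, hQ0, hx⟩) (by
      rintro a ⟨Q, hQ, ha⟩ b ⟨R, hR, hb⟩
      have h := CAdj_kG.1 (S.2.2.1 Q hQ R hR)
      rw [hf2 Q, hf2 R] at h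
      exact (kk_inter hS (hf1 Q) (hf1 R)).1 h a ha b hb)
  obtain ⟨A, hA, hAX⟩ := new_iff hS hG n hn hT X hX
  refine ⟨⟨A, hA⟩, fun Q hQ => ?_⟩
  rw [hf2 Q]
  intro a ha
  apply (hf1 Q).2.2
  intro y hy
  have h6 : y ∈ nb G A := by
    rw [hAX]
    exact hsub ⟨Q, hQ, hy⟩
  rw [nb_eq hS hA] at h6
  rw [SimpleGraph.dist_comm]
  exact h6 a ha

end CLQ
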