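import Pool.Agent.CLQ.KK
import Pool.Agent.CLQ.KIso

/-!
# Clique dynamics at local girth six: STR

The structure theorem: the `n`-th iterated clique graph is the graph of the maximal sets of
diameter at most `n`.  `GG_zero`: `x ↦ {x}`.  `GG_succ`: the inverse of the isomorphism maps
`A'` to `kk G n A'`; use `Iso.of_bij` (for `(GG G (n+1)) → (GG G n).k`, then `Iso.symm`) with
`kk_MC`, `MC_kk`, `kk_sub`, `kk_inter`, `GG_cadj`, `CAdj_kG`.  `GG_iter`: induction with `Iso.k`.
-/

namespace CLQ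

universe u

variable {V : Type u} {G : SimpleGraph V}

theorem GG_zero (hc : G.Connected) : Iso ⟨V, G⟩ (GG G 0) := by
  have hMD : ∀ x : V, MD G 0 {x} := by
    intro x
    refine ⟨⟨x, rfl⟩, ?_, ?_⟩
    · rintro a rfl b rfl
      simp
    · intro v hv
      have h1 := hv x rfl
      exact ((hc.dist_eq_zero_iff).1 (by omega)).symm
  refine Iso.of_bij (X := ⟨V, G⟩) (Y := GG G 0) (fun x => ⟨{x}, hMD x⟩) ⟨?_, ?_⟩ ?_
  · intro x y hxy
    have h1 : ({x} : Set V) = {y} := congrArg Subtype.val hxy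
    exact Set.singleton_injective h1
  · rintro ⟨A, hA⟩
    obtain ⟨x, hx⟩ := hA.1
    refine ⟨x, Subtype.ext ?_⟩
    apply Set.Subset.antisymm
    · rintro y rfl
      exact hx
    · intro y hy
      have h1 := hA.2.1 x hx y hy
      exact ((hc.dist_eq_zero_iff).1 (by omega)).symm
  · intro a b
    rw [GG_cadj]
    constructor
    · intro h
      exact (dist_le_one hc).1 (h a rfl b rfl)
    · rintro h a' rfl b' rfl
      exact (dist_le_one hc).2 h

theorem GG_succ (hS : Sys G) (n : ℕ) : Iso (GG G n).k (GG G (n + 1)) := by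
  apply Iso.symm
  refine Iso.of_bij (X := GG G (n + 1)) (Y := (GG G n).k)
    (fun A => ⟨kk G n A.1, kk_MC hS A.2⟩) ⟨?_, ?_⟩ ?_
  · intro A B hAB
    have h : kk G n A.1 = kk G n B.1 := congrArg Subtype.val hAB
    exact Subtype.ext (Set.Subset.antisymm (kk_sub hS A.2 h.subset)
      (kk_sub hS B.2 h.symm.subset))
  · rintro ⟨Q, hQ⟩
    obtain ⟨A', hA', h⟩ := MC_kk hS hQ
    exact ⟨⟨A', hA'⟩, Subtype.ext h.symm⟩
  · intro A B
    rw [GG_cadj]
    exact CAdj_kG.trans (kk_inter hS A.2 B.2)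

theorem GG_iter (hS : Sys G) (n : ℕ) : Iso (kIter n ⟨V, G⟩) (GG G n) := by
  induction n with
  | zero => exact GG_zero hS.conn
  | succ n ih => exact (Iso.k ih).trans (GG_succ hS n)

end CLQ
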