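import Pool.Agent.CLQ.Base

/-!
# Clique dynamics at local girth six: Stab

`v ↦ star v = {Q | v ∈ Q}` is an isomorphism from `X` to `X.k.k`.  `star v` is a clique of
`kG X.G`: nonempty (`exists_MC_vertex`), pairwise `CAdj` (`CAdj_kG`), maximal by `S1`.
Injective: `S3`.  Surjective: `S2` gives a common vertex `v` of the members of `S`, so
`S ⊆ star v` and then equality (`KV.eq_of_subset`).  Adjacency (`Iso.of_bij`): `CAdj (star v)
(star w)` iff some clique contains `v` and `w` (`CAdj_kG`) iff `CAdj v w` (`exists_MC_pair`,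
`KV.cadj`).
-/

namespace CLQ

universe u

theorem stab_iso (X : Gph.{u}) (h1 : S1 X.G) (h2 : S2 X.G) (h3 : S3 X.G) : Iso X X.k.k := by
  have hstar : ∀ v : X.V, MC (kG X.G) {Q : KV X.G | v ∈ Q.1} := by
    intro v
    refine ⟨?_, ?_, ?_⟩
    · obtain ⟨Q, hQ⟩ := exists_MC_vertex (G := X.G) v
      exact ⟨Q, hQ⟩
    · intro Q hQ R hR
      rw [CAdj_kG]
      exact ⟨v, hQ, hR⟩
    · intro Q hQ
      apply h1 v Q
      intro R hR
      have h := hQ R hR
      rw [CAdj_kG] at h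
      obtain ⟨w, hw1, hw2⟩ := h
      exact ⟨w, hw2, hw1⟩
  refine Iso.of_bij (X := X) (Y := X.k.k)
    (fun v => (⟨{Q : KV X.G | v ∈ Q.1}, hstar v⟩ : KV (kG X.G))) ⟨?_, ?_⟩ ?_
  · intro v w hvw
    have h : {Q : KV X.G | v ∈ Q.1} = {Q : KV X.G | w ∈ Q.1} := congrArg Subtype.val hvw
    apply h3
    intro Q
    have : Q ∈ {Q : KV X.G | v ∈ Q.1} ↔ Q ∈ {Q : KV X.G | w ∈ Q.1} := by rw [h]
    exact this
  · intro S
    obtain ⟨v, hv⟩ := h2 S
    refine ⟨v, ?_⟩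
    exact (KV.eq_of_subset (Q := S) (R := ⟨{Q : KV X.G | v ∈ Q.1}, hstar v⟩)
      (fun Q hQ => hv Q hQ)).symm
  · intro v w
    constructor
    · intro h
      have h' := (CAdj_kG (G := kG X.G)).1 h
      obtain ⟨Q, hQ1, hQ2⟩ := h'
      exact Q.cadj hQ1 hQ2
    · intro h
      obtain ⟨Q, hQ1, hQ2⟩ := exists_MC_pair h
      exact (CAdj_kG (G := kG X.G)).2 ⟨Q, hQ1, hQ2⟩

end CLQ
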