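import Pool.Agent.CLQ.UnC
import Pool.Agent.CLQ.STG
import Pool.Agent.CLQ.STR
import Pool.Agent.CLQ.Stab
import Pool.Agent.CLQ.DescA
import Pool.Agent.CLQ.DescB
import Pool.Agent.CLQ.DIV
import Pool.Agent.CLQ.SCK
import Pool.Agent.CLQ.CDist

/-!
# Clique dynamics at local girth six: the dichotomy

`jcover_of`: let `h : H.V`; `pW` is surjective (`G` connected), take `w0` with `pW w0 = pH h`, and
`lift` of `pW` through `pH` gives a triangular cover `W → H` with `w0 ↦ h`.
`conv_of`: `kIter n W ≅ GG W.G n` satisfies S1, S2, S3; these descend to `kIter n H`; `stab_iso`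
gives `kIter n H ≅ kIter (n + 2) H`.
`div_of`: an isomorphism of iterated clique graphs of `H` lifts to the universal covers.
-/

namespace CLQ

universe u

theorem jcover_of {W H G : Gph.{u}} (hW : SC W) (hc : G.G.Connected) {pW : W.V → G.V}
    (hpW : TriCover W.G G.G pW) (w : W.V) {pH : H.V → G.V} (hpH : TriCover H.G G.G pH) :
    JCover W H := by
  intro h
  obtain ⟨w0, hw0⟩ := hpW.surjective hc w (pH h)
  obtain ⟨s, hs, -, hs2⟩ := lift hW hpW hpH w0 h hw0
  exact ⟨s, w0, hs, hs2⟩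

theorem SC_iter {W : Gph.{u}} (hW : SC W) (n : ℕ) : SC (kIter n W) := by
  induction n with
  | zero => exact hW
  | succ n ih => exact ih.k

theorem conv_of {W H : Gph.{u}} (hS : Sys W.G) (hG : Good W.G) (n : ℕ) (hn : 1 ≤ n)
    (hT : ¬ HasTri W.G (n + 2)) (h : JCover W H) : Convergent H := by
  have e : Iso (kIter n W) (GG W.G n) := GG_iter hS n
  have j1 : JCover (GG W.G n) (kIter n W) := e.symm.jcover
  have j2 : JCover (kIter n W) (kIter n H) := h.iter n
  have s1 := S1_desc j2 (S1_desc j1 (GG_S1 hS hG n))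
  have s2 := S2_desc j2 (S2_desc j1 (GG_S2 hS hG n hn hT))
  have s3 := S3_desc j2 (S3_desc j1 (GG_S3 hS hG n))
  exact ⟨n, n + 2, by omega, stab_iso _ s1 s2 s3⟩

theorem kIter_ne {H : Gph.{u}} (z : H.V) (n : ℕ) : Nonempty (kIter n H).V := by
  induction n with
  | zero => exact ⟨z⟩
  | succ n ih =>
    obtain ⟨y⟩ := ih
    obtain ⟨Q, -⟩ := exists_MC_vertex (G := (kIter n H).G) y
    exact ⟨Q⟩

theorem iso_lift {W H : Gph.{u}} (hS : Sys W.G) (hW : SC W) (h : JCover W H) (z : H.V)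
    (m n : ℕ) (e : Iso (kIter m H) (kIter n H)) : Iso (kIter m W) (kIter n W) := by
  obtain ⟨y⟩ := kIter_ne z m
  obtain ⟨f⟩ := e
  obtain ⟨a, ya, ha, hya⟩ := h.iter m y
  obtain ⟨b, yb, hb, hyb⟩ := h.iter n (f y)
  have hf : TriCover (kIter m W).G (kIter n H).G (fun x => f (a x)) :=
    ha.comp (TriCover.of_iso f)
  exact uniq (SC_iter hW m) (SC_iter hW n) (cdist W hS.conn m).1 hf hb ya yb
    (by simp only [hya, hyb])

theorem div_of {W H : Gph.{u}} (hS : Sys W.G) (hW : SC W)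
    (hT : ∀ n, 3 ≤ n → HasTri W.G n) (h : JCover W H) (z : H.V) : ¬ Convergent H := by
  rintro ⟨m, n, hmn, e⟩
  rcases Nat.lt_or_ge m n with hlt | hge
  · have e' := iso_lift hS hW h z m n e
    obtain ⟨p, rfl⟩ : ∃ p, n = m + p := ⟨n - m, by omega⟩
    exact div_W W hS hT m p (by omega) e'
  · have e' := iso_lift hS hW h z n m e.symm
    obtain ⟨p, rfl⟩ : ∃ p, m = n + p := ⟨m - n, by omega⟩
    exact div_W W hS hT n p (by omega) e'

theorem dich (G : Gph.{u}) (hG : Good G.G) (hc : G.G.Connected) :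
    (∀ H : Gph.{u}, H.V → ∀ p : H.V → G.V, TriCover H.G G.G p → Convergent H) ∨
    (∀ H : Gph.{u}, H.V → ∀ p : H.V → G.V, TriCover H.G G.G p → ¬ Convergent H) := by
  obtain ⟨g0⟩ := hc.nonempty
  obtain ⟨W, hS, hGW, hW, pW, hpW⟩ := exists_univ G hG g0
  obtain ⟨w⟩ := hS.conn.nonempty
  by_cases hT : ∀ n, 3 ≤ n → HasTri W.G n
  · right
    intro H z p hp
    exact div_of hS hW hT (jcover_of hW hc hpW w hp) z
  · left
    intro H z p hp
    push Not at hT
    obtain ⟨n, hn, hT⟩ := hT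
    obtain ⟨k, rfl⟩ : ∃ k, n = k + 2 := ⟨n - 2, by omega⟩
    exact conv_of hS hGW k (by omega) hT (jcover_of hW hc hpW w hp)

end CLQ
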