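import Pool.Agent.CLQ.Base

/-!
# Clique dynamics at local girth six: MT

Notation: level = distance from `x`.
MT1, by induction on `b = dist w y` (for all `w`), base: `b = 0` impossible.  Let
`a = dist x w`.  `w ≠ y` as the levels differ, so take `g ∈ par y w` (`par_nonempty`).
* level g = a - 1: `g ∈ par x w`, done.
* level g = a: (then `g ≠ y`) by induction there is `g' ∈ par x g ∩ par y g`.  F2 for the edge
  `w g`: `p ∈ par x w ∩ par x g`.  F1: `CAdj p g'`.  So `dist y p ≤ dist y g' + 1 = b - 1` and
  `p ~ w` gives `dist y p ≥ b - 1`: `p ∈ par y w ∩ par x w`.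
* level g = a + 1: by induction there is `g' ∈ par x g ∩ par y g`; `w ∈ par x g`, so `CAdj w g'`,
  `dist y w ≤ dist y g' + 1 = b - 1`, contradiction.
MT2: let `g ∈ par y w`, `a = dist x w`, so `y` has level `a` too.  Level of `g`: `a - 1` is
excluded (`g ∈ par x w ∩ par y w`).  If it is `a + 1`, MT1 for `(x, y, g)` gives
`g' ∈ par x g ∩ par y g`, `w ∈ par x g`, F1: `CAdj w g'`, so `dist y w ≤ dist y g' + 1 =
dist y w - 1`, contradiction.  So every `g ∈ par y w` has level `a` and F2 gives
`p ∈ par x w ∩ par x g`, adjacent to `g`.  If `g ≠ h` are both in `par y w` they are adjacent (F1),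
with `p`, `p'` as above: if `p = p'` then `w, g, h, p` contradicts k4; otherwise `p ~ p'` (F1) and
`g, h, p', p` is a 4-cycle in the link of `w` (`g ≠ p'`, `h ≠ p` by levels): c4.
MT3: let `g` be a vertex on a geodesic from `w` to `y` at distance `t` from `w`.  Claim, by
induction on `t`: level g = dist x w + t.  For all geodesic points (all `g` with
`dist w g = t`, `t + dist g y = dist w y`).  t = 0 clear.  t = 1: `g ∈ par y w`, level g is not
`a - 1` (disjoint), and it is not `a` (F2 would give `p ∈ par x w` adjacent to `g`).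
t + 1 with t ≥ 1: take `h ∈ par w g` (so `dist w h = t`, on the geodesic) and `f ∈ par w h`
(`dist w f = t - 1`), levels `a + t` and `a + t - 1`.  Level of `g`: if it is `a + t - 1` then
`f, g ∈ par x h`, `CAdj f g`, but `dist f g = 2` (as `dist w g = t + 1`, `dist w f = t - 1`):
contradiction.  If it is `a + t`: F2 gives `q ∈ par x h ∩ par x g`; `q` is adjacent to `g` and
`h`; F1: `CAdj q f`, so `dist w q ≤ t`, and `dist w q ≥ t` as `q ~ g`; and `dist q y ≤ dist g y + 1`
so `q` is a geodesic point at distance `t` with level `a + t - 1`, contradiction to the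
induction hypothesis (`q` has level `a + t`).
ball_convex: if `dist x y > n`: MT1 for `(x, a, y)` and `(x, b, y)` gives `p ∈ par x y ∩ par a y`,
`q ∈ par x y ∩ par b y`, `CAdj p q` by F1, so `dist a b ≤ (dist a y - 1) + 1 + (dist b y - 1)`.
-/

namespace CLQ

universe u

variable {V : Type u} {G : SimpleGraph V}

theorem MT1 (hS : Sys G) (x y w : V) (h : G.dist x y < G.dist x w) :
    (par G x w ∩ par G y w).Nonempty := by
  have hc := hS.conn
  obtain ⟨b, hb⟩ : ∃ b, G.dist y w = b := ⟨_, rfl⟩
  induction b using Nat.strong_induction_on generalizing w with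
  | _ b ih =>
    have hwy : w ≠ y := by
      rintro rfl
      exact lt_irrefl _ h
    obtain ⟨g, hg1, hg2⟩ := par_nonempty (x := y) hc hwy
    have hgd := dist_adj hc x (Or.inr hg1)
    have hgd' := dist_adj hc x (Or.inr hg1.symm)
    rcases lt_trichotomy (G.dist x g) (G.dist x w) with h1 | h1 | h1
    · exact ⟨g, ⟨hg1, by omega⟩, ⟨hg1, hg2⟩⟩
    · have hxy : G.dist x y < G.dist x g := by omega
      obtain ⟨g', hg'1, hg'2⟩ := ih (G.dist y g) (by omega) g hxy rfl
      obtain ⟨p, hp1, hp2⟩ := hS.F2 x w g hg1 h1.symm
      have hF := hS.F1 x g p g' hp2 hg'1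
      have h3 := dist_adj hc y hF
      have h4 := dist_adj hc y (Or.inr hp1.1)
      have h5 := hg'2.2
      exact ⟨p, hp1, hp1.1, by omega⟩
    · have hxy : G.dist x y < G.dist x g := by omega
      obtain ⟨g', hg'1, hg'2⟩ := ih (G.dist y g) (by omega) g hxy rfl
      exfalso
      have hw : w ∈ par G x g := ⟨hg1.symm, by omega⟩
      have hF := hS.F1 x g w g' hw hg'1
      have h3 := dist_adj hc y hF
      have h5 := hg'2.2
      omega

/-- steps towards `y` keep the level and have a common parent with `w` -/
theorem MT_level (hS : Sys G) (x y w : V) (h : par G x w ∩ par G y w = ∅)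
    (hd : G.dist x y = G.dist x w) {g : V} (hg : g ∈ par G y w) :
    G.dist x g = G.dist x w ∧ ∃ p, p ∈ par G x w ∧ p ∈ par G x g := by
  have hc := hS.conn
  have hgd := dist_adj hc x (Or.inr hg.1)
  have hgd' := dist_adj hc x (Or.inr hg.1.symm)
  have hg2 := hg.2
  rcases lt_trichotomy (G.dist x g) (G.dist x w) with h1 | h1 | h1
  · exfalso
    have : g ∈ par G x w ∩ par G y w := ⟨⟨hg.1, by omega⟩, hg⟩
    rw [h] at this
    exact this
  · exact ⟨h1, hS.F2 x w g hg.1 h1.symm⟩
  · exfalso
    obtain ⟨g', hg'1, hg'2⟩ := MT1 hS x y g (by omega)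
    have hw : w ∈ par G x g := ⟨hg.1.symm, by omega⟩
    have hF := hS.F1 x g w g' hw hg'1
    have h3 := dist_adj hc y hF
    have h5 := hg'2.2
    omega

theorem MT2 (hS : Sys G) (x y w : V) (hw : w ≠ y) (h : par G x w ∩ par G y w = ∅)
    (hd : G.dist x y = G.dist x w) :
    ∃ v2, par G y w = {v2} ∧ ∃ v1 ∈ par G x w, G.Adj v1 v2 := by
  have hc := hS.conn
  obtain ⟨g, hg⟩ := par_nonempty (x := y) hc hw
  obtain ⟨hgl, p, hp1, hp2⟩ := MT_level hS x y w h hd hg
  refine ⟨g, ?_, p, hp1, hp2.1.symm⟩
  apply Set.eq_singleton_iff_unique_mem.2 ⟨hg, ?_⟩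
  intro f hf
  by_contra hne
  obtain ⟨hfl, p', hp'1, hp'2⟩ := MT_level hS x y w h hd hf
  have hgf : G.Adj g f := hS.par_ne hg hf (fun h => hne h.symm)
  by_cases hpp : p = p'
  · subst hpp
    exact hS.k4 w g f p hg.1 hf.1 hp1.1 hgf hp'2.1 hp2.1
  · have hpp' : G.Adj p' p := hS.par_ne hp'1 hp1 (fun h => hpp h.symm)
    refine hS.c4 w g f p' p hg.1 hf.1 hp'1.1 hp1.1 hgf hp'2.1 hpp' hp2.1.symm ?_ ?_
    · rintro rfl
      have := hp'1.2
      omega
    · rintro rfl
      have := hp1.2
      omega

theorem MT3 (hS : Sys G) (x y w : V) (h : par G x w ∩ par G y w = ∅)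
    (h' : ∀ p ∈ par G x w, ∀ q ∈ par G y w, ¬ G.Adj p q) :
    G.dist x y = G.dist x w + G.dist w y := by
  have hc := hS.conn
  have claim : ∀ t g, G.dist w g = t → t + G.dist g y = G.dist w y →
      G.dist x g = G.dist x w + t := by
    intro t
    induction t using Nat.strong_induction_on with
    | _ t ih =>
      intro g hg hgy
      match t, ih, hg, hgy with
      | 0, _, hg, _ =>
        have : w = g := hc.dist_eq_zero_iff.1 hg
        rw [this, add_zero]
      | 1, _, hg, hgy =>
        have ha : G.Adj w g := SimpleGraph.dist_eq_one_iff_adj.1 hg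
        have hpar : g ∈ par G y w := ⟨ha, by
          rw [SimpleGraph.dist_comm (u := y) (v := w), SimpleGraph.dist_comm (u := y) (v := g)]
          omega⟩
        have hgd := dist_adj hc x (Or.inr ha)
        have hgd' := dist_adj hc x (Or.inr ha.symm)
        rcases lt_trichotomy (G.dist x g) (G.dist x w) with h1 | h1 | h1
        · exfalso
          have : g ∈ par G x w ∩ par G y w := ⟨⟨ha, by omega⟩, hpar⟩
          rw [h] at this
          exact this
        · exfalso
          obtain ⟨p, hp1, hp2⟩ := hS.F2 x w g ha h1.symm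
          exact h' p hp1 g hpar hp2.1.symm
        · omega
      | (s + 2), ih, hg, hgy =>
        have hgw : g ≠ w := by
          rintro rfl
          rw [SimpleGraph.dist_self] at hg
          omega
        obtain ⟨k, hk⟩ := par_nonempty (x := w) hc hgw
        have hk1 := hk.2
        have hkw : k ≠ w := by
          rintro rfl
          rw [SimpleGraph.dist_self] at hk1
          omega
        obtain ⟨f, hf⟩ := par_nonempty (x := w) hc hkw
        have hf1 := hf.2
        have hky : s + 1 + G.dist k y = G.dist w y := by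
          have h1 := tri hc w k y
          have h2 := dist_adj hc y (Or.inr hk.1.symm)
          rw [SimpleGraph.dist_comm (u := y) (v := k), SimpleGraph.dist_comm (u := y) (v := g)] at h2
          omega
        have hfy : s + G.dist f y = G.dist w y := by
          have h1 := tri hc w f y
          have h2 := dist_adj hc y (Or.inr hf.1.symm)
          rw [SimpleGraph.dist_comm (u := y) (v := f), SimpleGraph.dist_comm (u := y) (v := k)] at h2
          omega
        have hkl := ih (s + 1) (by omega) k (by omega) hky
        have hfl := ih s (by omega) f (by omega) hfy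
        have hgd := dist_adj hc x (Or.inr hk.1)
        have hgd' := dist_adj hc x (Or.inr hk.1.symm)
        rcases lt_trichotomy (G.dist x g) (G.dist x k) with h1 | h1 | h1
        · exfalso
          have hgp : g ∈ par G x k := ⟨hk.1.symm, by omega⟩
          have hfp : f ∈ par G x k := ⟨hf.1, by omega⟩
          have hF := hS.F1 x k g f hgp hfp
          have h3 := dist_adj hc w hF
          omega
        · exfalso
          obtain ⟨q, hq1, hq2⟩ := hS.F2 x k g hk.1.symm h1.symm
          have hfp : f ∈ par G x k := ⟨hf.1, by omega⟩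
          have hF := hS.F1 x k q f hq1 hfp
          have h3 := dist_adj hc w hF
          have h4 := dist_adj hc w (Or.inr hq2.1)
          have hqy : s + 1 + G.dist q y = G.dist w y := by
            have h5 := tri hc w q y
            have h6 := dist_adj hc y (Or.inr hq2.1.symm)
            rw [SimpleGraph.dist_comm (u := y) (v := q),
              SimpleGraph.dist_comm (u := y) (v := g)] at h6
            omega
          have hql := ih (s + 1) (by omega) q (by omega) hqy
          have := hq1.2
          omega
        · omega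
  exact claim (G.dist w y) y rfl (by simp)

theorem ball_convex (hS : Sys G) (x a b y : V) (n : ℕ) (ha : G.dist x a ≤ n)
    (hb : G.dist x b ≤ n) (hy : G.dist a y + G.dist y b = G.dist a b) : G.dist x y ≤ n := by
  have hc := hS.conn
  by_contra hlt
  push Not at hlt
  obtain ⟨p, hp1, hp2⟩ := MT1 hS x a y (by omega)
  obtain ⟨q, hq1, hq2⟩ := MT1 hS x b y (by omega)
  have hF := hS.F1 x y p q hp1 hq1
  have h1 := (dist_le_one hc).2 hF
  have h2 := tri hc a p b
  have h3 := tri hc p q b
  have h4 := hp2.2
  have h5 := hq2.2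
  rw [SimpleGraph.dist_comm (u := b) (v := y), SimpleGraph.dist_comm (u := b) (v := q)] at h5
  omega

end CLQ
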