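import Pool.Agent.CLQ.LC
import Pool.Agent.CLQ.MT

/-!
# Clique dynamics at local girth six: GEN

Moving a vertex `w` one step so that it gets close to all points of `Z`.
Apply `LC` to `S = {par G z w | z ∈ Z, dist w z = r z + 1}` and
`T = {par G z w | z ∈ Z, dist w z = r z}`.  `hSS` is `hss`; `hST` from `hsw` and MT2 (with
`x := z`, `y := z'`); `hTT` is `hww`; `hS1` is F1.
The vertex `y` of `LC` works: for strong `z`, `y ∈ par z w`; for weak `z` there is `q ∈ par z w`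
with `CAdj y q`, so `dist z y ≤ dist z q + 1 = dist z w`; for the other `z`, `dist w z < r z`.
-/

namespace CLQ

universe u

variable {V : Type u} {G : SimpleGraph V}

theorem GEN (hS : Sys G) (w : V) (Z : Set V) (r : V → ℕ)
    (hr : ∀ z ∈ Z, G.dist w z ≤ r z + 1) (hex : ∃ z ∈ Z, G.dist w z = r z + 1)
    (hss : ∀ z ∈ Z, ∀ z' ∈ Z, G.dist w z = r z + 1 → G.dist w z' = r z' + 1 →
      (par G z w ∩ par G z' w).Nonempty)
    (hsw : ∀ z ∈ Z, ∀ z' ∈ Z, G.dist w z = r z + 1 → G.dist w z' = r z' →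
      w ≠ z' ∧ ((par G z w ∩ par G z' w).Nonempty ∨ G.dist z z' = G.dist z w))
    (hww : ∀ z ∈ Z, ∀ z' ∈ Z, ∀ z'' ∈ Z, G.dist w z = r z + 1 → G.dist w z' = r z' →
      G.dist w z'' = r z'' → par G z w ∩ par G z' w = ∅ → par G z w ∩ par G z'' w = ∅ →
      ∀ p ∈ par G z' w, ∀ p' ∈ par G z'' w, ∀ a ∈ par G z w, ∀ b ∈ par G z w, a ≠ b →
      G.Adj a p → G.Adj b p' → False) :
    ∃ w', G.Adj w w' ∧ ∀ z ∈ Z, G.dist w' z ≤ r z := by
  classical
  have hc := hS.conn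
  have key := LC hS w
    {s | ∃ z ∈ Z, G.dist w z = r z + 1 ∧ s = par G z w}
    {t | ∃ z ∈ Z, G.dist w z = r z ∧ t = par G z w} ?_ ?_ ?_ ?_ ?_ ?_ ?_
  · obtain ⟨y, hy1, hy2, hy3⟩ := key
    refine ⟨y, hy1, fun z hz => ?_⟩
    have h1 := hr z hz
    rcases lt_trichotomy (G.dist w z) (r z) with h2 | h2 | h2
    · have h3 := dist_adj hc z (Or.inr hy1.symm)
      rw [SimpleGraph.dist_comm (u := z) (v := y), SimpleGraph.dist_comm (u := z) (v := w)] at h3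
      omega
    · obtain ⟨q, hq, hyq⟩ := hy3 _ ⟨z, hz, h2, rfl⟩
      have h3 := dist_adj hc z hyq
      have h4 := hq.2
      rw [SimpleGraph.dist_comm (u := z) (v := y)] at h3
      rw [SimpleGraph.dist_comm (u := z) (v := w)] at h4
      omega
    · have h3 := (hy2 _ ⟨z, hz, by omega, rfl⟩).2
      rw [SimpleGraph.dist_comm (u := z) (v := y), SimpleGraph.dist_comm (u := z) (v := w)] at h3
      omega
  · obtain ⟨z, hz, h⟩ := hex
    exact ⟨_, z, hz, h, rfl⟩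
  · rintro s ⟨z, hz, h, rfl⟩ a ha
    exact ha.1
  · rintro s ⟨z, hz, h, rfl⟩ a ha
    exact ha.1
  · rintro s ⟨z, hz, h, rfl⟩ a ha b hb
    exact hS.F1 z w a b ha hb
  · rintro s ⟨z, hz, h, rfl⟩ t ⟨z', hz', h', rfl⟩
    exact hss z hz z' hz' h h'
  · rintro s ⟨z, hz, h, rfl⟩ t ⟨z', hz', h', rfl⟩
    obtain ⟨hne, h1⟩ := hsw z hz z' hz' h h'
    by_cases h2 : (par G z w ∩ par G z' w).Nonempty
    · exact Or.inl h2
    · rcases h1 with h1 | h1
      · exact Or.inl h1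
      · exact Or.inr (MT2 hS z z' w hne (Set.not_nonempty_iff_eq_empty.1 h2) h1)
  · rintro s ⟨z, hz, h, rfl⟩ t ⟨z', hz', h', rfl⟩ t' ⟨z'', hz'', h'', rfl⟩ e1 e2 p hp p' hp'
      a ha b hb hab h3 h4
    exact hww z hz z' hz' z'' hz'' h h' h'' e1 e2 p hp p' hp' a ha b hb hab h3 h4

end CLQ
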