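import Pool.Agent.CLQ.Fin

/-!
# Clique dynamics at local girth six: families of covers

`Hits Y X z`: the vertex `z` of `X` is in the image of a triangular covering map from `Y`.
Here `G` need not be connected.  `W g = Un G g` is the universal cover of the component of `g`.
Every vertex `h` of a triangular cover `p : H → G` is hit by `W (p h)`.
If for some `n ≥ 1` no `W g` has a flat triangle of side `n + 2` then the arguments for `S1`, `S2`,
`S3` are pointwise and `H` is convergent.  If for every `n` some `W g` has one and `p` is onto then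
an isomorphism of iterated clique graphs of `H` lifts to an isomorphism of a high iterated clique
graph of some `W g` with a low one of some `W a`; this contradicts `squares'` and `NSQ`.
-/

namespace CLQ

universe u

/-- The vertex `z` of `X` is in the image of a triangular covering map from `Y` to `X`. -/
def Hits (Y X : Gph.{u}) (z : X.V) : Prop :=
  ∃ (p : Y.V → X.V) (y : Y.V), TriCover Y.G X.G p ∧ p y = z

theorem Hits.comp {Z Y X : Gph.{u}} {z : X.V} (h : Hits Y X z) (j : JCover Z Y) : Hits Z X z := by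
  obtain ⟨p, y, hp, hy⟩ := h
  obtain ⟨q, x, hq, hx⟩ := j y
  exact ⟨fun a => p (q a), x, hq.comp hp, by simp only [hx, hy]⟩

theorem Hits.k {Y X : Gph.{u}} {z : X.V} (h : Hits Y X z) (Q : KV X.G) (hz : z ∈ Q.1) :
    Hits Y.k X.k Q := by
  obtain ⟨p, y, hp, hy⟩ := h
  obtain ⟨Q', _, h2⟩ := klift hp y Q (by rw [hy]; exact hz)
  exact ⟨kmap hp, Q', kcover hp, h2⟩

theorem Hits.some_iter {Y X : Gph.{u}} {z : X.V} (h : Hits Y X z) (n : ℕ) :
    ∃ z' : (kIter n X).V, Hits (kIter n Y) (kIter n X) z' := by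
  induction n with
  | zero => exact ⟨z, h⟩
  | succ n ih =>
    obtain ⟨y, hy⟩ := ih
    obtain ⟨Q, hQ⟩ := exists_MC_vertex (G := (kIter n X).G) y
    exact ⟨Q, hy.k Q hQ⟩

theorem hits_iter {ι : Type u} (W : ι → Gph.{u}) (X : Gph.{u})
    (h : ∀ x : X.V, ∃ i, Hits (W i) X x) (n : ℕ) :
    ∀ z : (kIter n X).V, ∃ i, Hits (kIter n (W i)) (kIter n X) z := by
  induction n with
  | zero => exact h
  | succ n ih =>
    intro Q
    have hQ : (Q : KV (kIter n X).G).1.Nonempty := Q.2.1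
    obtain ⟨z, hz⟩ := hQ
    obtain ⟨i, hi⟩ := ih z
    exact ⟨i, hi.k Q hz⟩

theorem S1_gen {X : Gph.{u}} (h : ∀ v : X.V, ∃ Y : Gph.{u}, S1 Y.G ∧ Hits Y X v) : S1 X.G := by
  intro v Q hQ
  obtain ⟨Y, h1, p, v', hp, rfl⟩ := h v
  obtain ⟨R0, hR0⟩ := exists_MC_vertex (G := X.G) (p v')
  obtain ⟨u, huQ, huR⟩ := hQ R0 hR0
  have hvu : CAdj X.G (p v') u := R0.cadj hR0 huR
  obtain ⟨u', hvu', rfl⟩ := hp.clift v' u hvu
  obtain ⟨Q', huQ', hQQ⟩ := klift hp u' Q huQ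
  have himg : Q.1 = p '' Q'.1 := by
    rw [← hQQ]; rfl
  have key : v' ∈ Q'.1 := by
    apply h1 v' Q'
    intro R' hR'
    obtain ⟨w, hwQ, hwR⟩ := hQ (kmap hp R') ⟨v', hR', rfl⟩
    obtain ⟨w', hw'R, rfl⟩ := hwR
    have hvw' : CAdj Y.G v' w' := R'.cadj hR' hw'R
    have huw : CAdj X.G (p u') (p w') := Q.cadj huQ hwQ
    have huw' : CAdj Y.G u' w' := hp.ctri hvu' hvw' huw
    rw [himg] at hwQ
    obtain ⟨w'', hw''Q, hw''⟩ := hwQ
    have huw'' : CAdj Y.G u' w'' := Q'.cadj huQ' hw''Q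
    have heq : w'' = w' := hp.cinj huw'' huw' hw''
    exact ⟨w', heq ▸ hw''Q, hw'R⟩
  rw [himg]
  exact ⟨v', key, rfl⟩

theorem S3_gen {X : Gph.{u}} (h : ∀ v : X.V, ∃ Y : Gph.{u}, S3 Y.G ∧ Hits Y X v) : S3 X.G := by
  intro v w hvw
  obtain ⟨Y, h3, p, v', hp, rfl⟩ := h v
  obtain ⟨R0, hR0⟩ := exists_MC_vertex (G := X.G) (p v')
  have hwR : w ∈ R0.1 := (hvw R0).1 hR0
  have hcw : CAdj X.G (p v') w := R0.cadj hR0 hwR
  obtain ⟨w', hvw', rfl⟩ := hp.clift v' w hcw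
  have : v' = w' := by
    apply h3
    intro Q'
    constructor
    · intro hv'
      have h1 : p v' ∈ (kmap hp Q').1 := ⟨v', hv', rfl⟩
      obtain ⟨w'', hw''Q, hw''⟩ := (hvw (kmap hp Q')).1 h1
      have h2 : CAdj Y.G v' w'' := Q'.cadj hv' hw''Q
      have h4 : w'' = w' := hp.cinj h2 hvw' hw''
      exact h4 ▸ hw''Q
    · intro hw'
      have h1 : p w' ∈ (kmap hp Q').1 := ⟨w', hw', rfl⟩
      obtain ⟨v'', hv''Q, hv''⟩ := (hvw (kmap hp Q')).2 h1
      have h2 : CAdj Y.G w' v'' := Q'.cadj hw' hv''Q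
      have h4 : v'' = v' := hp.cinj h2 hvw'.symm hv''
      exact h4 ▸ hv''Q
  rw [this]

theorem S2_gen {X : Gph.{u}} (h : ∀ v : X.V, ∃ Y : Gph.{u}, S2 Y.G ∧ Hits Y X v) : S2 X.G := by
  intro S
  obtain ⟨Q, hQ⟩ := S.2.1
  obtain ⟨z, hz⟩ := Q.2.1
  obtain ⟨Y, h2, p, y, hp, hy⟩ := h z
  have hy' : p y ∈ Q.1 := by
    rw [hy]
    exact hz
  obtain ⟨Q', _, hQQ⟩ := klift hp y Q hy'
  obtain ⟨S', _, hSS⟩ := klift (kcover hp) Q' S (by rw [hQQ]; exact hQ)
  obtain ⟨v, hv⟩ := h2 S'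
  refine ⟨p v, ?_⟩
  intro R hR
  have hR' : R ∈ (kmap (kcover hp) S').1 := by
    rw [hSS]
    exact hR
  obtain ⟨R', hR1, rfl⟩ := hR'
  exact ⟨v, hv R' hR1, rfl⟩

theorem conv_gen {ι : Type u} (W : ι → Gph.{u}) {H : Gph.{u}}
    (h : ∀ x : H.V, ∃ i, Hits (W i) H x) (hS : ∀ i, Sys (W i).G) (hG : ∀ i, Good (W i).G)
    (n : ℕ) (hn : 1 ≤ n) (hT : ∀ i, ¬ HasTri (W i).G (n + 2)) : Convergent H := by
  have hit := hits_iter W H h n
  have j : ∀ i, JCover (GG (W i).G n) (kIter n (W i)) := fun i =>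
    (GG_iter (hS i) n).symm.jcover
  have s1 : S1 (kIter n H).G := S1_gen fun v => by
    obtain ⟨i, hi⟩ := hit v
    exact ⟨_, GG_S1 (hS i) (hG i) n, hi.comp (j i)⟩
  have s2 : S2 (kIter n H).G := S2_gen fun v => by
    obtain ⟨i, hi⟩ := hit v
    exact ⟨_, GG_S2 (hS i) (hG i) n hn (hT i), hi.comp (j i)⟩
  have s3 : S3 (kIter n H).G := S3_gen fun v => by
    obtain ⟨i, hi⟩ := hit v
    exact ⟨_, GG_S3 (hS i) (hG i) n, hi.comp (j i)⟩
  exact ⟨n, n + 2, by omega, stab_iso _ s1 s2 s3⟩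

theorem div_gen {ι : Type u} (W : ι → Gph.{u}) {H : Gph.{u}}
    (h : ∀ x : H.V, ∃ i, Hits (W i) H x) (h' : ∀ i, ∃ x : H.V, Hits (W i) H x)
    (hS : ∀ i, Sys (W i).G) (hW : ∀ i, SC (W i))
    (hT : ∀ n, 1 ≤ n → ∃ i, HasTri (W i).G (n + 2)) : ¬ Convergent H := by
  have key : ∀ m q, 1 ≤ q → ¬ Iso (kIter m H) (kIter (m + q) H) := by
    intro m q hq he
    obtain ⟨M, hM⟩ : ∃ M, M = m + (30 * m + 20) * q := ⟨_, rfl⟩
    have hch := (Iso.chain he (30 * m + 20)).symm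
    rw [← hM] at hch
    have hM1 : 2 * (14 * m + 1) + 10 ≤ M := by
      have : (30 * m + 20) * 1 ≤ (30 * m + 20) * q := Nat.mul_le_mul_left _ hq
      omega
    obtain ⟨i, hi⟩ := hT (3 * (4 * M + 10) - 2) (by omega)
    rw [show 3 * (4 * M + 10) - 2 + 2 = 3 * (4 * M + 10) by omega] at hi
    obtain ⟨x, hx⟩ := h' i
    obtain ⟨z, f, w, hf, hw⟩ := hx.some_iter M
    obtain ⟨e⟩ := hch
    obtain ⟨l, q', w', hq', hw'⟩ := hits_iter W H h m (e z)
    have hfe : TriCover (kIter M (W i)).G (kIter m H).G (fun x => e (f x)) :=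
      hf.comp (TriCover.of_iso e)
    have hiso : Iso (kIter M (W i)) (kIter m (W l)) :=
      uniq (SC_iter (hW i) M) (SC_iter (hW l) m) (cdist (W i) (hS i).conn M).1 hfe hq' w w'
        (by simp only [hw, hw'])
    obtain ⟨a, b, x, y, h1, h2, h3, h4, h5, h6⟩ := squares' (W i) (hS i) (14 * m + 1) M hi hM1
    obtain ⟨g⟩ := hiso
    obtain ⟨cn, c, hc⟩ := cdist (W l) (hS l).conn m
    obtain ⟨cm, -⟩ := cdist (W i) (hS i).conn M
    have hd : ∀ u v : (kIter M (W i)).V,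
        (kIter m (W l)).G.dist (g u) (g v) = (kIter M (W i)).G.dist u v := dist_iso cm cn g
    have e1 := hc (g x) (g a)
    have e2 := hc (g x) (g b)
    have e3 := hc (g y) (g a)
    have e4 := hc (g y) (g b)
    have e5 := hc (g x) (g y)
    have e6 := hc (g a) (g b)
    rw [hd] at e1 e2 e3 e4 e5 e6
    have := NSQ (hS l) (c (g a)) (c (g b)) (c (g x)) (c (g y)) (14 * m + 1) m (by omega)
      (by omega) (by omega) (by omega) (by omega) (by omega)
    omega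
  rintro ⟨m, n, hmn, e⟩
  rcases Nat.lt_or_ge m n with hlt | hge
  · obtain ⟨q, rfl⟩ : ∃ q, n = m + q := ⟨n - m, by omega⟩
    exact key m q (by omega) e
  · obtain ⟨q, rfl⟩ : ∃ q, m = n + q := ⟨m - n, by omega⟩
    exact key n q (by omega) e.symm

theorem un_hits {G H : Gph.{u}} (hG : Good G.G) {p : H.V → G.V} (hp : TriCover H.G G.G p)
    (h : H.V) : Hits (Un G.G (p h)) H h := by
  obtain ⟨s, hs, -, hs2⟩ := lift (un_SC hG (p h)) (un_cover hG (p h)) hp
    (Un.base G.G (p h)) h rfl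
  exact ⟨s, _, hs, hs2⟩

/-- The dichotomy for arbitrary `G`. -/
theorem dich_gen (G : Gph.{u}) (hG : Good G.G) :
    (∀ H : Gph.{u}, ∀ p : H.V → G.V, TriCover H.G G.G p → Convergent H) ∨
    (∀ H : Gph.{u}, ∀ p : H.V → G.V, TriCover H.G G.G p → Function.Surjective p →
      ¬ Convergent H) := by
  have g1 : ∀ g : G.V, Good (Un G.G g).G := fun g => hG.cover (un_cover hG g)
  have s1 : ∀ g : G.V, Sys (Un G.G g).G := fun g =>
    base_all _ (g1 g) (un_conn hG g) (un_SC hG g)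
  by_cases hT : ∀ n, 1 ≤ n → ∃ g : G.V, HasTri (Un G.G g).G (n + 2)
  · right
    intro H p hp hsur
    refine div_gen (fun g : G.V => Un G.G g) (fun x => ⟨p x, un_hits hG hp x⟩) (fun g => ?_) s1
      (fun g => un_SC hG g) hT
    obtain ⟨x, rfl⟩ := hsur g
    exact ⟨x, un_hits hG hp x⟩
  · left
    intro H p hp
    push Not at hT
    obtain ⟨n, hn, hT⟩ := hT
    exact conv_gen (fun g : G.V => Un G.G g) (fun x => ⟨p x, un_hits hG hp x⟩) s1 g1 n hn hT

end CLQ
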