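import Pool.Agent.CLQ.Defs

/-!
# Clique dynamics at local girth six: Gir

From the hypotheses on the girth and the minimum degree of the links to `Good`.
`k4`: a closed walk `a, b, c, a` in the link of `v` is a cycle of length 3 (build it with
`Walk.cons` in `G.induce (G.neighborSet v)`, `IsCycle` by `simp` or `decide`-like lemmas), so
`6 ≤ egirth ≤ 3` is false (`SimpleGraph.le_egirth`).  `c4` (`a ≠ c`, `b ≠ d`): cycle of length 4.
`c5`: first, by `k4`, the five vertices are different (e.g. `a = c` gives the triangle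
`a, d, e`); cycle of length 5.  `deg`: two different elements of a set of cardinality at least 2
(`Set.one_lt_encard_iff` or so).
-/

namespace CLQ

universe u

theorem Gir_cyc {W : Type u} {H : SimpleGraph W} (h : 6 ≤ H.egirth) {a : W} (p : H.Walk a a)
    (hp : p.IsCycle) (hl : p.length ≤ 5) : False := by
  have h1 := SimpleGraph.le_egirth.1 h a p hp
  have h2 : (6 : ℕ) ≤ p.length := by exact_mod_cast h1
  omega

theorem Gir_k3 {W : Type u} {H : SimpleGraph W} (h : 6 ≤ H.egirth) {a b c : W}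
    (hab : H.Adj a b) (hbc : H.Adj b c) (hac : H.Adj a c) : False := by
  refine Gir_cyc h (SimpleGraph.Walk.cons hab (SimpleGraph.Walk.cons hbc
    (SimpleGraph.Walk.cons hac.symm SimpleGraph.Walk.nil))) ?_ (by simp)
  rw [SimpleGraph.Walk.cons_isCycle_iff]
  have h1 := hab.ne
  have h2 := hbc.ne
  have h3 := hac.ne
  refine ⟨?_, ?_⟩
  · simp [SimpleGraph.Walk.cons_isPath_iff, h1.symm, h2, h3.symm]
  · simp [h1, h2, h3, h1.symm]

theorem Gir_k4 {W : Type u} {H : SimpleGraph W} (h : 6 ≤ H.egirth) {a b c d : W}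
    (hab : H.Adj a b) (hbc : H.Adj b c) (hcd : H.Adj c d) (hda : H.Adj d a)
    (hac : a ≠ c) (hbd : b ≠ d) : False := by
  refine Gir_cyc h (SimpleGraph.Walk.cons hab (SimpleGraph.Walk.cons hbc
    (SimpleGraph.Walk.cons hcd (SimpleGraph.Walk.cons hda SimpleGraph.Walk.nil)))) ?_ (by simp)
  rw [SimpleGraph.Walk.cons_isCycle_iff]
  have h1 := hab.ne
  have h2 := hbc.ne
  have h3 := hcd.ne
  have h4 := hda.ne
  refine ⟨?_, ?_⟩
  · simp [SimpleGraph.Walk.cons_isPath_iff, h1.symm, h2, h3, h4, hac.symm, hbd]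
  · simp [h1, h4.symm, hac, hbd]

theorem Gir_k5 {W : Type u} {H : SimpleGraph W} (h : 6 ≤ H.egirth) {a b c d e : W}
    (hab : H.Adj a b) (hbc : H.Adj b c) (hcd : H.Adj c d) (hde : H.Adj d e) (hea : H.Adj e a) :
    False := by
  have hac : a ≠ c := by
    rintro rfl
    exact Gir_k3 h hcd hde hea.symm
  have hbd : b ≠ d := by
    rintro rfl
    exact Gir_k3 h hde hea hab.symm
  have hce : c ≠ e := by
    rintro rfl
    exact Gir_k3 h hea hab hbc.symm
  have hda : d ≠ a := by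
    rintro rfl
    exact Gir_k3 h hab hbc hcd.symm
  have heb : e ≠ b := by
    rintro rfl
    exact Gir_k3 h hbc hcd hde.symm
  refine Gir_cyc h (SimpleGraph.Walk.cons hab (SimpleGraph.Walk.cons hbc
    (SimpleGraph.Walk.cons hcd (SimpleGraph.Walk.cons hde
      (SimpleGraph.Walk.cons hea SimpleGraph.Walk.nil))))) ?_ (by simp)
  rw [SimpleGraph.Walk.cons_isCycle_iff]
  have h1 := hab.ne
  have h2 := hbc.ne
  have h3 := hcd.ne
  have h4 := hde.ne
  have h5 := hea.ne
  refine ⟨?_, ?_⟩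
  · simp [SimpleGraph.Walk.cons_isPath_iff, h1.symm, h2, h3, h4, h5, hac.symm, hbd, hce,
      hda, heb.symm]
  · simp [h1, h5.symm, hac, hbd, hda.symm, heb.symm, h1.symm]

theorem Good_of_girth {V : Type u} (G : SimpleGraph V)
    (h1 : ∀ v, 6 ≤ (G.induce (G.neighborSet v)).egirth)
    (h2 : ∀ v w, G.Adj v w → 2 ≤ (G.neighborSet v ∩ G.neighborSet w).encard) : Good G where
  k4 := by
    intro v a b c ha hb hc hab hbc hac
    exact Gir_k3 (h1 v) (a := ⟨a, ha⟩) (b := ⟨b, hb⟩) (c := ⟨c, hc⟩) hab hbc hac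
  c4 := by
    intro v a b c d ha hb hc hd hab hbc hcd hda hac hbd
    refine Gir_k4 (h1 v) (a := ⟨a, ha⟩) (b := ⟨b, hb⟩) (c := ⟨c, hc⟩) (d := ⟨d, hd⟩)
      hab hbc hcd hda ?_ ?_
    · intro h
      exact hac (congrArg Subtype.val h)
    · intro h
      exact hbd (congrArg Subtype.val h)
  c5 := by
    intro v a b c d e ha hb hc hd he hab hbc hcd hde hea
    exact Gir_k5 (h1 v) (a := ⟨a, ha⟩) (b := ⟨b, hb⟩) (c := ⟨c, hc⟩) (d := ⟨d, hd⟩)
      (e := ⟨e, he⟩) hab hbc hcd hde hea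
  deg := by
    intro v w hvw
    have h3 : 1 < (G.neighborSet v ∩ G.neighborSet w).encard :=
      lt_of_lt_of_le (by norm_num) (h2 v w hvw)
    obtain ⟨a, b, ha, hb, hab⟩ := Set.one_lt_encard_iff.1 h3
    exact ⟨a, b, hab, ha.1, ha.2, hb.1, hb.2⟩

end CLQ
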