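import Pool.Agent.CLQ.ZL
import Pool.Agent.CLQ.Base

/-!
# Clique dynamics at local girth six: IOTA

Mapping the lattice points of level `m` to the `m`-th iterated clique graph, by induction on `m`.
-/

namespace CLQ

universe u

/-- the conclusion of `iota` for one `m` -/
def IotaP (X : Gph.{u}) (T : ℤ → ℤ → X.V) (m : ℕ) (i : ℤ → ℤ → ℤ → (kIter m X).V) : Prop :=
  (∀ a b c a' b' c' : ℤ, Valid m a b c → Valid m a' b' c' → |a - a'| ≤ 2 → |b - b'| ≤ 2 →
        |c - c'| ≤ 2 → CAdj (kIter m X).G (i a b c) (i a' b' c')) ∧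
      ∀ a b c x y z : ℤ, Valid m a b c → Valid 0 x y z → |a - x| ≤ m → |b - y| ≤ m →
        |c - z| ≤ m → Below m X (T x y) (i a b c)

theorem iota_succ (X : Gph.{u}) (T : ℤ → ℤ → X.V) (m : ℕ)
    (i : ℤ → ℤ → ℤ → (kIter m X).V) (hi : IotaP X T m i) :
    ∃ j : ℤ → ℤ → ℤ → KV (kIter m X).G, IotaP X T (m + 1) j := by
  obtain ⟨h1, h2⟩ := hi
  have hch : ∀ a b c : ℤ, ∃ Q : KV (kIter m X).G, ∀ p q r : ℤ, Valid (m + 1) a b c →
      Valid m p q r → |p - a| = 1 → |q - b| = 1 → |r - c| = 1 → i p q r ∈ Q.1 := by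
    intro a b c
    by_cases hv : Valid (m + 1) a b c
    · obtain ⟨p0, q0, r0, k1, k2, k3, k4, -⟩ := Z1 m a b c a b c hv hv (by simp) (by simp)
        (by simp)
      obtain ⟨Q, hQ⟩ := exists_MC (G := (kIter m X).G)
        {w | ∃ p q r : ℤ, Valid m p q r ∧ |p - a| = 1 ∧ |q - b| = 1 ∧ |r - c| = 1 ∧
          w = i p q r} ⟨_, p0, q0, r0, k1, k2, k3, k4, rfl⟩ (by
        rintro _ ⟨p, q, r, e1, e2, e3, e4, rfl⟩ _ ⟨p', q', r', e1', e2', e3', e4', rfl⟩
        refine h1 _ _ _ _ _ _ e1 e1' ?_ ?_ ?_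
        · rw [abs_eq (by norm_num)] at e2 e2'
          rw [abs_le]
          constructor <;> omega
        · rw [abs_eq (by norm_num)] at e3 e3'
          rw [abs_le]
          constructor <;> omega
        · rw [abs_eq (by norm_num)] at e4 e4'
          rw [abs_le]
          constructor <;> omega)
      exact ⟨Q, fun p q r _ f1 f2 f3 f4 => hQ ⟨p, q, r, f1, f2, f3, f4, rfl⟩⟩
    · obtain ⟨Q, _⟩ := exists_MC_vertex (G := (kIter m X).G) (i 0 0 0)
      exact ⟨Q, fun p q r h _ _ _ _ => absurd h hv⟩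
  choose j hj using hch
  refine ⟨j, ?_, ?_⟩
  · intro a b c a' b' c' hv hv' ha hb hc
    change CAdj (kG (kIter m X).G) (j a b c) (j a' b' c')
    rw [CAdj_kG]
    obtain ⟨p, q, r, e1, e2, e3, e4, e5, e6, e7⟩ := Z1 m a b c a' b' c' hv hv' ha hb hc
    exact ⟨i p q r, hj a b c p q r hv e1 e2 e3 e4, hj a' b' c' p q r hv' e1 e5 e6 e7⟩
  · intro a b c x y z hv hx ha hb hc
    push_cast at ha hb hc
    obtain ⟨p, q, r, e1, e2, e3, e4, e5, e6, e7⟩ := Z2 m a b c x y z hv hx ha hb hc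
    exact ⟨i p q r, hj a b c p q r hv e1 e2 e3 e4, h2 p q r x y z e1 hx e5 e6 e7⟩

theorem iota (X : Gph.{u}) (T : ℤ → ℤ → X.V)
    (hT : ∀ a b a' b' : ℤ, a % 2 = 0 → b % 2 = 0 → a' % 2 = 0 → b' % 2 = 0 → |a - a'| ≤ 2 →
      |b - b'| ≤ 2 → |(a + b) - (a' + b')| ≤ 2 → CAdj X.G (T a b) (T a' b')) (m : ℕ) :
    ∃ i : ℤ → ℤ → ℤ → (kIter m X).V,
      (∀ a b c a' b' c' : ℤ, Valid m a b c → Valid m a' b' c' → |a - a'| ≤ 2 → |b - b'| ≤ 2 →
        |c - c'| ≤ 2 → CAdj (kIter m X).G (i a b c) (i a' b' c')) ∧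
      ∀ a b c x y z : ℤ, Valid m a b c → Valid 0 x y z → |a - x| ≤ m → |b - y| ≤ m →
        |c - z| ≤ m → Below m X (T x y) (i a b c) := by
  change ∃ i : ℤ → ℤ → ℤ → (kIter m X).V, IotaP X T m i
  induction m with
  | zero =>
    refine ⟨fun a b _ => T a b, ?_, ?_⟩
    · intro a b c a' b' c' hv hv' ha hb hc
      obtain ⟨v1, v2, v3, v4⟩ := hv
      obtain ⟨w1, w2, w3, w4⟩ := hv'
      push_cast at v1 v2 v3 v4 w1 w2 w3 w4
      rw [abs_le] at v4 w4
      refine hT a b a' b' (by omega) (by omega) (by omega) (by omega) ha hb ?_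
      rw [abs_le] at hc ⊢
      constructor <;> omega
    · intro a b c x y z hv hx ha hb hc
      push_cast at ha hb hc
      have e1 : a - x = 0 := abs_nonpos_iff.1 ha
      have e2 : b - y = 0 := abs_nonpos_iff.1 hb
      change T x y = T a b
      rw [show x = a by omega, show y = b by omega]
  | succ m ih =>
    obtain ⟨i, hi⟩ := ih
    exact iota_succ X T m i hi

end CLQ
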