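import Pool.Agent.CLQ.Base

/-!
# Clique dynamics at local girth six: KConn

The clique graph of a connected graph is connected, and the distances differ by at most one.
Proofs.  `kG_dist_le`: let `q = v_0, ..., v_l = r` be a shortest walk of `G`; choose cliques
`Q_i` containing `v_i` and `v_{i+1}` (`exists_MC_pair`); then `Q, Q_0, ..., Q_{l-1}, R` are
successively equal or adjacent (`CAdj_kG`).  By induction on the length of a walk: for all `Q, R`
and `q ∈ Q`, `r ∈ R` and every walk of length `l` from `q` to `r` there is a walk from `Q` to `R`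
of length at most `l + 1`.  Connectedness follows (cliques are nonempty; `exists_MC_vertex`).
`dist_le_kG`: for a walk `Q = Q_0, ..., Q_k = R` choose common vertices of consecutive cliques;
by induction on the walk: for every walk of length `k` from `Q` to `R`, all `q ∈ Q`, `r ∈ R` have
`dist q r ≤ k + 1` (two vertices of one clique have distance at most one, `dist_le_one`).
-/

namespace CLQ

universe u

variable {V : Type u} {G : SimpleGraph V}

theorem kConn_walk {q r : V} (w : G.Walk q r) : ∀ Q R : KV G, q ∈ Q.1 → r ∈ R.1 →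
    ∃ w' : (kG G).Walk Q R, w'.length ≤ w.length + 1 := by
  induction w with
  | nil =>
    intro Q R hq hr
    have h : CAdj (kG G) Q R := CAdj_kG.2 ⟨_, hq, hr⟩
    rcases h with rfl | h
    · exact ⟨SimpleGraph.Walk.nil, by simp⟩
    · exact ⟨SimpleGraph.Walk.cons h SimpleGraph.Walk.nil, by simp⟩
  | cons hadj w ih =>
    intro Q R hq hr
    obtain ⟨S, h1, h2⟩ := exists_MC_pair (G := G) (Or.inr hadj)
    obtain ⟨w', hw'⟩ := ih S R h2 hr
    have h : CAdj (kG G) Q S := CAdj_kG.2 ⟨_, hq, h1⟩
    rcases h with h | h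
    · subst h
      exact ⟨w', by simp only [SimpleGraph.Walk.length_cons]; omega⟩
    · exact ⟨SimpleGraph.Walk.cons h w', by simp only [SimpleGraph.Walk.length_cons]; omega⟩

theorem kG_connected (hc : G.Connected) : (kG G).Connected := by
  have hne : Nonempty V := hc.nonempty
  obtain ⟨v⟩ := hne
  obtain ⟨Q0, _⟩ := exists_MC_vertex (G := G) v
  have : Nonempty (KV G) := ⟨Q0⟩
  refine ⟨fun Q R => ?_⟩
  obtain ⟨q, hq⟩ := Q.2.1
  obtain ⟨r, hr⟩ := R.2.1
  obtain ⟨w⟩ := hc.preconnected q r
  obtain ⟨w', _⟩ := kConn_walk w Q R hq hr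
  exact ⟨w'⟩

theorem kG_dist_le (hc : G.Connected) (Q R : KV G) {q r : V} (hq : q ∈ Q.1) (hr : r ∈ R.1) :
    (kG G).dist Q R ≤ G.dist q r + 1 := by
  obtain ⟨w, hw⟩ := hc.exists_walk_length_eq_dist q r
  obtain ⟨w', hw'⟩ := kConn_walk w Q R hq hr
  exact (SimpleGraph.dist_le w').trans (by omega)

theorem kConn_walk' (hc : G.Connected) {Q R : KV G} (w : (kG G).Walk Q R) :
    ∀ q r : V, q ∈ Q.1 → r ∈ R.1 → G.dist q r ≤ w.length + 1 := by
  induction w with
  | nil =>
    intro q r hq hr
    have := (dist_le_one hc).2 (KV.cadj _ hq hr)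
    simpa using this
  | cons hadj w ih =>
    intro q r hq hr
    obtain ⟨x, hx1, hx2⟩ := hadj.2
    have h1 := ih x r hx2 hr
    have h2 := (dist_le_one hc).2 (KV.cadj _ hq hx1)
    have h3 := tri hc q x r
    simp only [SimpleGraph.Walk.length_cons]
    omega

theorem dist_le_kG (hc : G.Connected) (Q R : KV G) {q r : V} (hq : q ∈ Q.1) (hr : r ∈ R.1) :
    G.dist q r ≤ (kG G).dist Q R + 1 := by
  obtain ⟨w, hw⟩ := (kG_connected hc).exists_walk_length_eq_dist Q R
  have := kConn_walk' hc w q r hq hr
  omega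

end CLQ
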