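import Pool.Agent.CLQ.KMap

/-!
# Clique dynamics at local girth six: KCov

A triangular cover `p : H → G` induces a triangular cover `kmap hp : kG H → kG G`.
Use `TriCover.of_closed` and `CAdj_kG` (in the clique graph `CAdj` means: share a vertex).
(1) clear.  (2) given `Q` and `R` with `p '' Q ∩ R ≠ ∅`: take `a ∈ Q` with `p a ∈ R` and lift
`R` through `a` (`klift`).  (3) let `Q` share `a` with `A` and `b` with `B`, and
`kmap A = kmap B`.  Then `CAdj a b`.  `p b ∈ kmap B = kmap A`: there is `b' ∈ A` with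
`p b' = p b`; `CAdj a b'` and `CAdj a b` so `b' = b ∈ A`, now `klift_unique` at `b`.
(4) let `Q` share `a` with `A` and `b` with `B` and let `p a' = p b'` with `a' ∈ A`, `b' ∈ B`.
`CAdj a a'`, `CAdj b b'`, `CAdj a b`.  At `a` : `b` and `a'` are near `a`, and
`CAdj (p b) (p a')` because `p a' = p b'`; so `CAdj b a'` (`ctri`); now `a'`, `b'` are both near
`b` with the same image: `a' = b'` (`cinj`), so `A` and `B` share a vertex.
`JCover.k`: given a clique `Q` of `X` take `z ∈ Q`, a cover `p` and `y` with `p y = z`, and lift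
`Q` through `y`.
-/

namespace CLQ

universe u

variable {V W : Type u} {H : SimpleGraph V} {G : SimpleGraph W}

theorem kcover {p : V → W} (hp : TriCover H G p) : TriCover (kG H) (kG G) (kmap hp) := by
  apply TriCover.of_closed
  · intro A B h
    obtain ⟨a, h1, h2⟩ := CAdj_kG.1 h
    exact CAdj_kG.2 ⟨p a, ⟨a, h1, rfl⟩, ⟨a, h2, rfl⟩⟩
  · intro Q R h
    obtain ⟨w, ⟨a, ha, rfl⟩, h2⟩ := CAdj_kG.1 h
    obtain ⟨R', h3, h4⟩ := klift hp a R h2
    exact ⟨R', CAdj_kG.2 ⟨a, ha, h3⟩, h4⟩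
  · intro Q A B hA hB hAB
    obtain ⟨a, ha1, ha2⟩ := CAdj_kG.1 hA
    obtain ⟨b, hb1, hb2⟩ := CAdj_kG.1 hB
    have h1 : p b ∈ (kmap hp A).1 := by
      rw [hAB]
      exact ⟨b, hb2, rfl⟩
    obtain ⟨b', hb', hpb⟩ := h1
    have h2 : b' = b := hp.cinj (A.cadj ha2 hb') (Q.cadj ha1 hb1) hpb
    subst h2
    exact klift_unique hp b' A B hb' hb2 hAB
  · intro Q A B hA hB hAB
    obtain ⟨a, ha1, ha2⟩ := CAdj_kG.1 hA
    obtain ⟨b, hb1, hb2⟩ := CAdj_kG.1 hB
    obtain ⟨w, ⟨a', ha', hpa⟩, ⟨b', hb', hpb⟩⟩ := CAdj_kG.1 hAB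
    have h0 : p a' = p b' := by rw [hpa, hpb]
    have h1 : CAdj G (p b) (p a') := by
      rw [h0]
      exact hp.cadj (B.cadj hb2 hb')
    have h2 : CAdj H b a' := hp.ctri (Q.cadj ha1 hb1) (A.cadj ha2 ha') h1
    have h3 : a' = b' := hp.cinj h2 (B.cadj hb2 hb') h0
    subst h3
    exact CAdj_kG.2 ⟨a', ha', hb'⟩

theorem JCover.k {Y X : Gph.{u}} (h : JCover Y X) : JCover Y.k X.k := by
  intro Q
  obtain ⟨z, hz⟩ := Q.2.1
  obtain ⟨p, y, hp, hy⟩ := h z
  obtain ⟨Q', _, h2⟩ := klift hp y Q (by rw [hy]; exact hz)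
  exact ⟨kmap hp, Q', kcover hp, h2⟩

theorem JCover.iter {Y X : Gph.{u}} (h : JCover Y X) (n : ℕ) :
    JCover (kIter n Y) (kIter n X) := by
  induction n with
  | zero => exact h
  | succ n ih => exact ih.k

end CLQ
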