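import Pool.Agent.CLQ.GEN

/-!
# Clique dynamics at local girth six: KEY

If no `c ∈ C` has `dist w c = n + 1` and no `b ∈ B` has `dist w b = n + 2`, take `w' = w`.
Otherwise apply `GEN` with `Z = A ∪ B` and `r z = n` if `z ∈ C`, `r z = n + 1` otherwise
(`A ∪ B ⊇ C`; note `dist w z ≤ n + 1` for `z ∈ A`, so the strong points are: (F1) `c ∈ C` with
`dist w c = n + 1`, (F4) `b ∈ B \ C` with `dist w b = n + 2`; the weak points: (F2) `c ∈ C` with
`dist w c = n`, (F3) `a ∈ A \ C` with `dist w a = n + 1`, (F5) `b ∈ B \ C` with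
`dist w b = n + 1`.)
`hss`: F1-F1: distance ≤ n < n + 1; F1-F4, F4-F4: both in `B`, distance ≤ n + 1 < n + 2: MT1
(in the form: `dist z z' < dist z w` gives `(par z w ∩ par z' w).Nonempty`).
`hsw`: F1-F2: distance ≤ n < dist z w, MT1.  F4-F2, F4-F5: both in `B`, distance
≤ n + 1 < n + 2, MT1.  F1-F3 and F1-F5: distance ≤ n + 1 = dist z w: MT1 or equality.
F4-F3: distance ≤ n + 2 = dist z w: MT1 or equality.  `w ≠ z'`: if `z' = w` then `r z' = 0`, so
`n = 0` and `w ∈ C`; but then a strong point `z` would have `dist w z ≥ 1` with `z, w ∈ C` (diameter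
0), or `z ∈ B`, `w ∈ B`, `dist w z = 2 > n + 1`: impossible.
`hww`: let `z` be strong with `a ≠ b` in `par z w`.
If `z` is F1: a weak point `z'` with `par z w ∩ par z' w = ∅` is F3 or F5 with
`dist z z' = n + 1 = dist z' w` (MT1 in both directions), MT2 with the roles exchanged
(`x := z'`, `y := z`) says that `par z w` is a singleton: contradiction.
If `z` is F4: F2 and F5 are not disjoint from it (MT1), so `z'`, `z''` are F3, both in `A`.
By MT2 `par z' w = {p}` and `par z'' w = {p'}`.  If `p = p'`: `w, p, a, b` contradicts k4.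
Otherwise `par z' w ∩ par z'' w = ∅`, so (MT1) `dist z' z'' = n + 1`, and MT2 gives
`p ~ p'`, and `p, a, b, p'` is a 4-cycle in the link of `w` (`p ≠ b`, `a ≠ p'` by
disjointness): c4.
-/

namespace CLQ

universe u

variable {V : Type u} {G : SimpleGraph V}

theorem KEY_mt (hS : Sys G) {z z' w : V}
    (h : G.dist z z' < G.dist w z ∨ G.dist z z' < G.dist w z') :
    (par G z w ∩ par G z' w).Nonempty := by
  rcases h with h | h
  · exact MT1 hS z z' w (by rw [SimpleGraph.dist_comm (u := z) (v := w)]; exact h)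
  · rw [Set.inter_comm]
    exact MT1 hS z' z w (by
      rw [SimpleGraph.dist_comm (u := z') (v := w), SimpleGraph.dist_comm (u := z') (v := z)]
      exact h)

theorem KEY (hS : Sys G) (n : ℕ) (A B C : Set V) (hCA : C ⊆ A) (hCB : C ⊆ B)
    (dC : ∀ a ∈ C, ∀ b ∈ C, G.dist a b ≤ n) (dA : ∀ a ∈ A, ∀ b ∈ A, G.dist a b ≤ n + 1)
    (dB : ∀ a ∈ B, ∀ b ∈ B, G.dist a b ≤ n + 1)
    (dAB : ∀ a ∈ A, ∀ b ∈ B, G.dist a b ≤ n + 2) (w : V) (hw : w ∈ A) :
    ∃ w', G.dist w w' ≤ 1 ∧ (∀ c ∈ C, G.dist w' c ≤ n) ∧ (∀ a ∈ A, G.dist w' a ≤ n + 1) ∧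
      ∀ b ∈ B, G.dist w' b ≤ n + 1 := by
  classical
  have hc := hS.conn
  have hdc : ∀ a b : V, G.dist a b = G.dist b a := fun a b => SimpleGraph.dist_comm
  by_cases hcase : (∀ c ∈ C, G.dist w c ≤ n) ∧ ∀ b ∈ B, G.dist w b ≤ n + 1
  · exact ⟨w, by simp, hcase.1, fun a ha => dA w hw a ha, hcase.2⟩
  set r : V → ℕ := fun z => if z ∈ C then n else n + 1 with hrdef
  have hrC : ∀ z ∈ C, r z = n := fun z hz => if_pos hz
  have hrN : ∀ z, z ∉ C → r z = n + 1 := fun z hz => if_neg hz
  have hwC : ∀ c ∈ C, G.dist w c ≤ n + 1 := fun c hc => dA w hw c (hCA hc)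
  -- strong points
  have strong : ∀ z ∈ A ∪ B, G.dist w z = r z + 1 →
      (z ∈ C ∧ G.dist w z = n + 1) ∨ (z ∉ C ∧ z ∈ B ∧ G.dist w z = n + 2) := by
    intro z hz h
    by_cases hzC : z ∈ C
    · left
      exact ⟨hzC, by rw [h, hrC z hzC]⟩
    · right
      rw [hrN z hzC] at h
      refine ⟨hzC, ?_, by omega⟩
      rcases hz with hz | hz
      · have := dA w hw z hz
        omega
      · exact hz
  -- weak points
  have weak : ∀ z ∈ A ∪ B, G.dist w z = r z →
      (z ∈ C ∧ G.dist w z = n) ∨ (z ∉ C ∧ G.dist w z = n + 1) := by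
    intro z hz h
    by_cases hzC : z ∈ C
    · left
      exact ⟨hzC, by rw [h, hrC z hzC]⟩
    · right
      exact ⟨hzC, by rw [h, hrN z hzC]⟩
  -- distances between strong and weak points
  have hle : ∀ z ∈ A ∪ B, ∀ z' ∈ A ∪ B, G.dist w z = r z + 1 → G.dist w z' = r z' →
      G.dist z z' ≤ G.dist w z := by
    intro z hz z' hz' h h'
    rcases strong z hz h with ⟨h1, h2⟩ | ⟨h1, h2, h3⟩
    · rw [h2]
      rcases hz' with hz' | hz'
      · exact dA z (hCA h1) z' hz'
      · exact dB z (hCB h1) z' hz'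
    · rw [h3]
      rcases hz' with hz' | hz'
      · rw [hdc]
        exact dAB z' hz' z h2
      · have := dB z h2 z' hz'
        omega
  have hne0 : ∀ z ∈ A ∪ B, ∀ z' ∈ A ∪ B, G.dist w z = r z + 1 → G.dist w z' = r z' →
      w ≠ z' := by
    intro z hz z' hz' h h' hwz
    subst hwz
    rw [SimpleGraph.dist_self] at h'
    rcases weak w hz' (by rw [SimpleGraph.dist_self]; exact h') with ⟨h1, h2⟩ | ⟨h1, h2⟩
    · rw [SimpleGraph.dist_self] at h2
      rcases strong z hz h with ⟨h3, h4⟩ | ⟨h3, h4, h5⟩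
      · have := dC w h1 z h3
        omega
      · have := dB w (hCB h1) z h4
        omega
    · rw [SimpleGraph.dist_self] at h2
      omega
  have key := GEN hS w (A ∪ B) r ?_ ?_ ?_ ?_ ?_
  · obtain ⟨w', hw'1, hw'2⟩ := key
    refine ⟨w', (dist_le_one hc).2 (Or.inr hw'1), fun c hcC => ?_, fun a ha => ?_, fun b hb => ?_⟩
    · have := hw'2 c (Or.inl (hCA hcC))
      rwa [hrC c hcC] at this
    · have h1 := hw'2 a (Or.inl ha)
      by_cases haC : a ∈ C
      · rw [hrC a haC] at h1
        omega
      · rwa [hrN a haC] at h1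
    · have h1 := hw'2 b (Or.inr hb)
      by_cases haC : b ∈ C
      · rw [hrC b haC] at h1
        omega
      · rwa [hrN b haC] at h1
  · -- hr
    intro z hz
    by_cases hzC : z ∈ C
    · rw [hrC z hzC]
      exact hwC z hzC
    · rw [hrN z hzC]
      rcases hz with hz | hz
      · have := dA w hw z hz
        omega
      · exact dAB w hw z hz
  · -- hex
    by_contra hno
    push Not at hno
    apply hcase
    constructor
    · intro c hcC
      by_contra hlt
      have h1 := hno c (Or.inl (hCA hcC))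
      rw [hrC c hcC] at h1
      have := hwC c hcC
      omega
    · intro b hb
      by_contra hlt
      have hbC : b ∉ C := fun hbC => by
        have := hwC b hbC
        omega
      have h1 := hno b (Or.inr hb)
      rw [hrN b hbC] at h1
      have := dAB w hw b hb
      omega
  · -- hss
    intro z hz z' hz' h h'
    apply KEY_mt hS
    rcases strong z hz h with ⟨h1, h2⟩ | ⟨h1, h2, h3⟩ <;>
      rcases strong z' hz' h' with ⟨h1', h2'⟩ | ⟨h1', h2', h3'⟩
    · have := dC z h1 z' h1'
      omega
    · have := dB z (hCB h1) z' h2'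
      omega
    · have := dB z h2 z' (hCB h1')
      omega
    · have := dB z h2 z' h2'
      omega
  · -- hsw
    intro z hz z' hz' h h'
    refine ⟨hne0 z hz z' hz' h h', ?_⟩
    have h1 := hle z hz z' hz' h h'
    rcases Nat.lt_or_ge (G.dist z z') (G.dist w z) with h2 | h2
    · exact Or.inl (KEY_mt hS (Or.inl h2))
    · right
      rw [hdc z w]
      omega
  · -- hww
    intro z hz z' hz' z'' hz'' h h' h'' e1 e2 p hp p' hp' a ha b hb hab hap hbp
    have hn1 : ¬ (G.dist z z' < G.dist w z ∨ G.dist z z' < G.dist w z') := fun hh => by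
      have := KEY_mt hS hh
      rw [e1] at this
      exact Set.not_nonempty_empty this
    have hn2 : ¬ (G.dist z z'' < G.dist w z ∨ G.dist z z'' < G.dist w z'') := fun hh => by
      have := KEY_mt hS hh
      rw [e2] at this
      exact Set.not_nonempty_empty this
    push Not at hn1 hn2
    have hl1 := hle z hz z' hz' h h'
    have hl2 := hle z hz z'' hz'' h h''
    rcases strong z hz h with ⟨h1, h2⟩ | ⟨h1, h2, h3⟩
    · rcases weak z' hz' h' with ⟨h4, h5⟩ | ⟨h4, h5⟩
      · have := dC z h1 z' h4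
        omega
      · have hwz : w ≠ z := by
          rintro rfl
          rw [SimpleGraph.dist_self] at h2
          omega
        obtain ⟨v2, hv2, _⟩ := MT2 hS z' z w hwz (by rw [Set.inter_comm]; exact e1)
          (by rw [hdc z' z, hdc z' w]; omega)
        rw [hv2] at ha hb
        exact hab (ha.trans hb.symm)
    · have inA : ∀ y ∈ A ∪ B, G.dist w y = r y → G.dist w z ≤ G.dist z y →
          y ∈ A ∧ y ∉ C ∧ G.dist w y = n + 1 := by
        intro y hy h4 h5
        rcases weak y hy h4 with ⟨h6, h7⟩ | ⟨h6, h7⟩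
        · have := dB z h2 y (hCB h6)
          omega
        · rcases hy with hy | hy
          · exact ⟨hy, h6, h7⟩
          · have := dB z h2 y hy
            omega
      obtain ⟨hA1, hC1, hd1⟩ := inA z' hz' h' hn1.1
      obtain ⟨hA2, hC2, hd2⟩ := inA z'' hz'' h'' hn2.1
      have hw1 := hne0 z hz z' hz' h h'
      have hw2 := hne0 z hz z'' hz'' h h''
      obtain ⟨v, hv, _⟩ := MT2 hS z z' w hw1 e1 (by rw [hdc z w]; omega)
      obtain ⟨v', hv', _⟩ := MT2 hS z z'' w hw2 e2 (by rw [hdc z w]; omega)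
      have hpv : p = v := by rw [hv] at hp; exact hp
      have hpv' : p' = v' := by rw [hv'] at hp'; exact hp'
      have hab' : G.Adj a b := hS.par_ne ha hb hab
      by_cases hpp : p = p'
      · subst hpp
        exact hS.k4 w p a b hp.1 ha.1 hb.1 hap.symm hab' hbp.symm
      · have hdis : par G z' w ∩ par G z'' w = ∅ := by
          rw [hv, hv', ← hpv, ← hpv']
          ext t
          simp only [Set.mem_inter_iff, Set.mem_singleton_iff, Set.mem_empty_iff_false,
            iff_false, not_and]
          rintro rfl h5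
          exact hpp h5
        have hn3 : ¬ (G.dist z' z'' < G.dist w z' ∨ G.dist z' z'' < G.dist w z'') := fun hh => by
          have := KEY_mt hS hh
          rw [hdis] at this
          exact Set.not_nonempty_empty this
        push Not at hn3
        have h6 := dA z' hA1 z'' hA2
        obtain ⟨v2, hv2, v1, hv1, hv12⟩ := MT2 hS z' z'' w hw2 hdis (by rw [hdc z' w]; omega)
        have e3 : p' = v2 := by rw [hv2] at hp'; exact hp'
        have e4 : v1 = p := by
          rw [hv] at hv1
          rw [hpv]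
          exact hv1
        rw [e4, ← e3] at hv12
        refine hS.c4 w p a b p' hp.1 ha.1 hb.1 hp'.1 hap.symm hab' hbp hv12.symm ?_ ?_
        · rintro rfl
          have : p ∈ par G z w ∩ par G z' w := ⟨hb, hp⟩
          rw [e1] at this
          exact this
        · rintro rfl
          have : a ∈ par G z w ∩ par G z'' w := ⟨ha, hp'⟩
          rw [e2] at this
          exact this

end CLQ
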