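import Pool.Agent.CLQ.MDb

/-!
# Clique dynamics at local girth six: KK

`kk n A'` is the set of the maximal sets of diameter ≤ n contained in `A'`.
`GG_cadj`: from the definition (and `MD`).
`kk_MC`: nonempty by `P1`; pairwise `CAdj` as `A'` has diameter ≤ n + 1; maximal: if `B` is `CAdj`
to all members then for `x ∈ A'` take (`P1`) a member containing `x`: `dist x b ≤ n + 1` for all
`b ∈ B`, so `B ⊆ A'` by the maximality of `A'`.
`MC_kk`: the union `X` of the members of `Q` has diameter ≤ n + 1, let `A' ⊇ X` be maximal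
(`exists_MD`); `Q ⊆ kk n A'` and equality by the maximality of `Q`.
`kk_sub`: `A'` is the union of the members of `kk n A'` (`P1`).
`kk_inter`: `→`: if `A` is in both then `A', B' ⊆ {y | ∀ a ∈ A, dist a y ≤ n + 1}`: `diam2`.
`←`: `P2`.
-/

namespace CLQ

universe u

variable {V : Type u} {G : SimpleGraph V}

/-- the members of `GG G n` contained in `A'` -/
def kk (G : SimpleGraph V) (n : ℕ) (A' : Set V) : Set (GG G n).V := {A | A.1 ⊆ A'}

theorem GG_cadj {n : ℕ} {A B : (GG G n).V} :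
    CAdj (GG G n).G A B ↔ ∀ a ∈ A.1, ∀ b ∈ B.1, G.dist a b ≤ n + 1 := by
  constructor
  · rintro (rfl | h)
    · intro a ha b hb
      have := A.2.2.1 a ha b hb
      omega
    · exact h.2
  · intro h
    by_cases hAB : A = B
    · exact Or.inl hAB
    · exact Or.inr ⟨hAB, h⟩

theorem kk_MC (hS : Sys G) {n : ℕ} {A' : Set V} (hA : MD G (n + 1) A') :
    MC (GG G n).G (kk G n A') := by
  refine ⟨?_, ?_, ?_⟩
  · obtain ⟨x, hx⟩ := hA.1
    obtain ⟨C, hC, hxC, hCA⟩ := MD.P1 hS hA hx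
    exact ⟨⟨C, hC⟩, hCA⟩
  · intro A hA1 B hB1
    rw [GG_cadj]
    intro a ha b hb
    exact hA.2.1 a (hA1 ha) b (hB1 hb)
  · intro B hB b hb
    apply hA.2.2
    intro x hx
    obtain ⟨C, hC, hxC, hCA⟩ := MD.P1 hS hA hx
    exact GG_cadj.1 (hB ⟨C, hC⟩ hCA) x hxC b hb

theorem MC_kk (hS : Sys G) {n : ℕ} {Q : Set (GG G n).V} (hQ : MC (GG G n).G Q) :
    ∃ A', MD G (n + 1) A' ∧ Q = kk G n A' := by
  obtain ⟨A0, hA0⟩ := hQ.1
  obtain ⟨A', hA', hsub⟩ := exists_MD (G := G) (n + 1) {x | ∃ A ∈ Q, x ∈ A.1} (by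
      obtain ⟨x, hx⟩ := A0.2.1
      exact ⟨x, A0, hA0, hx⟩) (by
      rintro a ⟨A, hA, ha⟩ b ⟨B, hB, hb⟩
      exact GG_cadj.1 (hQ.2.1 A hA B hB) a ha b hb)
  refine ⟨A', hA', Set.Subset.antisymm ?_ ?_⟩
  · intro A hA x hx
    exact hsub ⟨A, hA, hx⟩
  · intro B hB
    apply hQ.2.2
    intro A hA
    rw [GG_cadj]
    intro a ha b hb
    exact hA'.2.1 a (hsub ⟨A, hA, ha⟩) b (hB hb)

theorem kk_sub (hS : Sys G) {n : ℕ} {A' B' : Set V} (hA : MD G (n + 1) A')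
    (h : kk G n A' ⊆ kk G n B') : A' ⊆ B' := by
  intro x hx
  obtain ⟨C, hC, hxC, hCA⟩ := MD.P1 hS hA hx
  have h1 : (⟨C, hC⟩ : (GG G n).V) ∈ kk G n B' := h (show C ⊆ A' from hCA)
  exact h1 hxC

theorem kk_inter (hS : Sys G) {n : ℕ} {A' B' : Set V} (hA : MD G (n + 1) A')
    (hB : MD G (n + 1) B') :
    (kk G n A' ∩ kk G n B').Nonempty ↔ ∀ a ∈ A', ∀ b ∈ B', G.dist a b ≤ n + 2 := by
  constructor
  · rintro ⟨A, hA1, hA2⟩ a ha b hb
    exact MD.diam2 hS A.2 (fun x hx => hA.2.1 x (hA1 hx) a ha)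
      (fun x hx => hB.2.1 x (hA2 hx) b hb)
  · intro h
    obtain ⟨C, hC, h1, h2⟩ := MD.P2 hS hA hB h
    exact ⟨⟨C, hC⟩, h1, h2⟩

end CLQ
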