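import Pool.Agent.CLQ.Cov

/-!
# Clique dynamics at local girth six: KMap

The image of a clique under a triangular cover is a clique, and cliques can be lifted.
`kmap_MC`: nonempty and pairwise `CAdj`: clear (`cadj`).  Maximality: let `w` be `CAdj` to all
`p a`, `a ∈ Q`; fix `a0 ∈ Q` and lift `w` to `b` with `CAdj a0 b` (`clift`); for `a ∈ Q` we have
`CAdj a0 a` and `CAdj (p a) w`, so `CAdj a b` by `ctri`; so `b ∈ Q` by maximality.
`klift`: let `Q' = {a | CAdj H v a ∧ p a ∈ Q}`; it is complete by `ctri`; it is maximal (if `b` is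
`CAdj` to all elements of `Q'` then it is so to `v`, and `p b` is `CAdj` to all elements of `Q`
because every element of `Q` has a lift in `Q'`), and its image is `Q` (`clift`, as `p v ∈ Q`).
`klift_unique`: two cliques `Q, R` of `H` with a common vertex `v` and the same image are equal:
for `a ∈ Q` there is `b ∈ R` with `p b = p a`, and `CAdj v a`, `CAdj v b`, so `a = b` (`cinj`).
-/

namespace CLQ

universe u

variable {V W : Type u} {H : SimpleGraph V} {G : SimpleGraph W}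

theorem kmap_MC {p : V → W} (hp : TriCover H G p) (Q : KV H) : MC G (p '' Q.1) := by
  refine ⟨Q.2.1.image p, ?_, ?_⟩
  · rintro _ ⟨a, ha, rfl⟩ _ ⟨b, hb, rfl⟩
    exact hp.cadj (Q.cadj ha hb)
  · intro w hw
    obtain ⟨a0, ha0⟩ := Q.2.1
    obtain ⟨b, hb, rfl⟩ := hp.clift a0 w (hw (p a0) ⟨a0, ha0, rfl⟩)
    refine ⟨b, ?_, rfl⟩
    refine Q.mem fun a ha => ?_
    exact hp.ctri (Q.cadj ha0 ha) hb (hw (p a) ⟨a, ha, rfl⟩)

/-- the map of cliques -/
def kmap {p : V → W} (hp : TriCover H G p) (Q : KV H) : KV G := ⟨p '' Q.1, kmap_MC hp Q⟩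

theorem klift {p : V → W} (hp : TriCover H G p) (v : V) (Q : KV G) (h : p v ∈ Q.1) :
    ∃ Q' : KV H, v ∈ Q'.1 ∧ kmap hp Q' = Q := by
  have hv : v ∈ {a | CAdj H v a ∧ p a ∈ Q.1} := ⟨CAdj.refl _, h⟩
  have hlift : ∀ w ∈ Q.1, ∃ a, a ∈ {a | CAdj H v a ∧ p a ∈ Q.1} ∧ p a = w := by
    intro w hw
    obtain ⟨a, ha, hpa⟩ := hp.clift v w (Q.cadj h hw)
    exact ⟨a, ⟨ha, by rw [hpa]; exact hw⟩, hpa⟩
  have hMC : MC H {a | CAdj H v a ∧ p a ∈ Q.1} := by
    refine ⟨⟨v, hv⟩, ?_, ?_⟩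
    · rintro a ⟨ha, hpa⟩ b ⟨hb, hpb⟩
      exact hp.ctri ha hb (Q.cadj hpa hpb)
    · intro b hb
      refine ⟨hb v hv, ?_⟩
      refine Q.mem fun w hw => ?_
      obtain ⟨a, ha, rfl⟩ := hlift w hw
      exact hp.cadj (hb a ha)
  refine ⟨⟨_, hMC⟩, hv, ?_⟩
  apply Subtype.ext
  apply Set.Subset.antisymm
  · rintro _ ⟨a, ha, rfl⟩
    exact ha.2
  · intro w hw
    obtain ⟨a, ha, hpa⟩ := hlift w hw
    exact ⟨a, ha, hpa⟩

theorem klift_unique {p : V → W} (hp : TriCover H G p) (v : V) (Q R : KV H) (hQ : v ∈ Q.1)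
    (hR : v ∈ R.1) (h : kmap hp Q = kmap hp R) : Q = R := by
  refine KV.eq_of_subset ?_
  intro a ha
  have h1 : p a ∈ (kmap hp R).1 := by
    rw [← h]
    exact ⟨a, ha, rfl⟩
  obtain ⟨b, hb, hpb⟩ := h1
  have h2 : b = a := hp.cinj (R.cadj hR hb) (Q.cadj hQ ha) hpb
  rw [← h2]
  exact hb

end CLQ
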