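import Pool.Agent.CLQ.Base

/-!
# Clique dynamics at local girth six: LC

Choice in the link of `w`: `S` are the strong sets, `T` the weak sets.
(1) There is a vertex in all `s ∈ S`, more precisely: take `s0 ∈ S`; it has one or two elements
(three pairwise adjacent neighbours of `w` contradict k4).  If `s0 = {u, v}` and neither `u` nor
`v` is in all `s`: `s1 ∌ u`, `s2 ∌ v`, so `v ∈ s1`, `u ∈ s2`, take `z ∈ s1 ∩ s2`; `z, u, v` are
pairwise adjacent neighbours of `w`: k4.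
(2) Choice of `y`.  (i) If some `s0 ∈ S` is a singleton `{y}`: `y` is in all `s`, and for `t ∈ T`
either `y ∈ t` or `t = {v2}` with `y ~ v2`.  (ii) All `s ∈ S` have exactly two elements, and two of
them are different, `s = {u0, v}`, `s' = {u0, v'}`, `v ≠ v'`; then `u0` is in all `s` (a set
containing neither... use (1): the common vertex must be `u0`); take `y = u0`.  For `t ∈ T`: if
`t` meets `s` or `s'` in `z` then `CAdj u0 z`.  Otherwise `t = {v2}` with `v2` adjacent to an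
element of `s` and to an element of `s'`; if one of these is `u0` we are done, otherwise
`v2, v, u0, v'` is a 4-cycle in the link of `w` (`v2 ≠ u0`, `v ≠ v'`): c4.
(iii) `S = {e}`, `e = {u0, v0}`, `u0 ≠ v0`.  If every `t ∈ T` disjoint from `e` has an element
adjacent to `u0`: `y = u0`.  Otherwise some `t' = {v2'}` is disjoint from `e`, with `v2' ~ v0`; then
`y = v0`: for `t` meeting `e` clear; for `t = {v2}` disjoint from `e`: if `v2 ~ v0` fine,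
otherwise `v2 ~ u0`, contradiction to `hTT`.
-/

namespace CLQ

universe u

variable {V : Type u} {G : SimpleGraph V}

/-- the case where every strong set contains `u`, and `s0 = {u, v}` -/
private theorem lc_two (hS : Sys G) (w : V) (S T : Set (Set V))
    (hSN : ∀ s ∈ S, ∀ a ∈ s, G.Adj w a) (hTN : ∀ t ∈ T, ∀ a ∈ t, G.Adj w a)
    (hS1 : ∀ s ∈ S, ∀ a ∈ s, ∀ b ∈ s, CAdj G a b)
    (hST : ∀ s ∈ S, ∀ t ∈ T, (s ∩ t).Nonempty ∨ ∃ v2, t = {v2} ∧ ∃ v1 ∈ s, G.Adj v1 v2)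
    (hTT : ∀ s ∈ S, ∀ t ∈ T, ∀ t' ∈ T, s ∩ t = ∅ → s ∩ t' = ∅ → ∀ p ∈ t, ∀ p' ∈ t', ∀ a ∈ s,
      ∀ b ∈ s, a ≠ b → G.Adj a p → G.Adj b p' → False)
    (s0 : Set V) (hs0 : s0 ∈ S) (u v : V) (hu : u ∈ s0) (hv : v ∈ s0) (huv : u ≠ v)
    (hall : ∀ s ∈ S, u ∈ s) :
    ∃ y, G.Adj w y ∧ (∀ s ∈ S, y ∈ s) ∧ ∀ t ∈ T, ∃ z ∈ t, CAdj G y z := by
  have hne : ∀ s ∈ S, ∀ a ∈ s, ∀ b ∈ s, a ≠ b → G.Adj a b := fun s hs a ha b hb hab =>
    (hS1 s hs a ha b hb).resolve_left hab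
  have h2 : ∀ a ∈ s0, a = u ∨ a = v := by
    intro a ha
    by_contra hcon
    push Not at hcon
    exact hS.k4 w a u v (hSN s0 hs0 a ha) (hSN s0 hs0 u hu) (hSN s0 hs0 v hv)
      (hne s0 hs0 a ha u hu hcon.1) (hne s0 hs0 u hu v hv huv) (hne s0 hs0 a ha v hv hcon.2)
  by_cases hB : ∀ s ∈ S, v ∈ s
  · by_cases hU : ∀ t ∈ T, ∃ z ∈ t, CAdj G u z
    · exact ⟨u, hSN s0 hs0 u hu, hall, hU⟩
    · push Not at hU
      obtain ⟨t', ht', hU⟩ := hU
      have hdis' : s0 ∩ t' = ∅ := by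
        rw [Set.eq_empty_iff_forall_notMem]
        rintro z ⟨hz1, hz2⟩
        exact hU z hz2 (hS1 s0 hs0 u hu z hz1)
      rcases hST s0 hs0 t' ht' with h | ⟨v2', ht2', v1', hv1', hadj'⟩
      · rw [hdis'] at h
        exact absurd h Set.not_nonempty_empty
      have hv2' : v2' ∈ t' := by rw [ht2']; rfl
      have hv1eq : v1' = v := by
        rcases h2 v1' hv1' with h | h
        · subst h
          exact absurd (Or.inr hadj') (hU v2' hv2')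
        · exact h
      subst hv1eq
      refine ⟨v1', hSN s0 hs0 _ hv, hB, fun t ht => ?_⟩
      by_cases hdis : (s0 ∩ t).Nonempty
      · obtain ⟨z, hz1, hz2⟩ := hdis
        exact ⟨z, hz2, hS1 s0 hs0 _ hv z hz1⟩
      rcases hST s0 hs0 t ht with h | ⟨v2, ht2, v1, hv1, hadj⟩
      · exact absurd h hdis
      have hv2 : v2 ∈ t := by rw [ht2]; rfl
      rcases h2 v1 hv1 with h | h
      · subst h
        exact (hTT s0 hs0 t ht t' ht' (Set.not_nonempty_iff_eq_empty.1 hdis) hdis' v2 hv2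
          v2' hv2' v1 hu v1' hv huv hadj hadj').elim
      · subst h
        exact ⟨v2, hv2, Or.inr hadj⟩
  · push Not at hB
    obtain ⟨s', hs', hvs'⟩ := hB
    refine ⟨u, hSN s0 hs0 u hu, hall, fun t ht => ?_⟩
    rcases hST s0 hs0 t ht with ⟨z, hz1, hz2⟩ | ⟨v2, ht2, v1, hv1, hadj⟩
    · exact ⟨z, hz2, hS1 s0 hs0 u hu z hz1⟩
    have hv2 : v2 ∈ t := by rw [ht2]; rfl
    rcases hST s' hs' t ht with ⟨z, hz1, hz2⟩ | ⟨v3, ht3, v1', hv1', hadj'⟩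
    · exact ⟨z, hz2, hS1 s' hs' u (hall s' hs') z hz1⟩
    have hv3 : v3 = v2 := by
      rw [ht3] at hv2
      exact (Set.mem_singleton_iff.1 hv2).symm
    subst hv3
    refine ⟨v3, hv2, ?_⟩
    by_cases h1 : v1 = u
    · subst h1
      exact Or.inr hadj
    by_cases h1' : v1' = u
    · subst h1'
      exact Or.inr hadj'
    have hv : v1 = v := (h2 v1 hv1).resolve_left h1
    subst hv
    by_cases h3 : u = v3
    · exact Or.inl h3
    exact (hS.c4 w v3 v1 u v1' (hTN t ht v3 hv2) (hSN s0 hs0 v1 hv1) (hSN s0 hs0 u hu)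
      (hSN s' hs' v1' hv1') hadj.symm (hne s0 hs0 v1 hv1 u hu h1)
      (hne s' hs' u (hall s' hs') v1' hv1' (Ne.symm h1')) hadj' (Ne.symm h3)
      (fun h => hvs' (h ▸ hv1'))).elim

theorem LC (hS : Sys G) (w : V) (S T : Set (Set V)) (hS0 : S.Nonempty)
    (hSN : ∀ s ∈ S, ∀ a ∈ s, G.Adj w a) (hTN : ∀ t ∈ T, ∀ a ∈ t, G.Adj w a)
    (hS1 : ∀ s ∈ S, ∀ a ∈ s, ∀ b ∈ s, CAdj G a b)
    (hSS : ∀ s ∈ S, ∀ t ∈ S, (s ∩ t).Nonempty)
    (hST : ∀ s ∈ S, ∀ t ∈ T, (s ∩ t).Nonempty ∨ ∃ v2, t = {v2} ∧ ∃ v1 ∈ s, G.Adj v1 v2)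
    (hTT : ∀ s ∈ S, ∀ t ∈ T, ∀ t' ∈ T, s ∩ t = ∅ → s ∩ t' = ∅ → ∀ p ∈ t, ∀ p' ∈ t', ∀ a ∈ s,
      ∀ b ∈ s, a ≠ b → G.Adj a p → G.Adj b p' → False) :
    ∃ y, G.Adj w y ∧ (∀ s ∈ S, y ∈ s) ∧ ∀ t ∈ T, ∃ z ∈ t, CAdj G y z := by
  have hne : ∀ s ∈ S, ∀ a ∈ s, ∀ b ∈ s, a ≠ b → G.Adj a b := fun s hs a ha b hb hab =>
    (hS1 s hs a ha b hb).resolve_left hab
  obtain ⟨s0, hs0⟩ := hS0
  obtain ⟨u, hu, -⟩ := hSS s0 hs0 s0 hs0
  by_cases hsing : ∀ a ∈ s0, a = u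
  · refine ⟨u, hSN s0 hs0 u hu, fun s hs => ?_, fun t ht => ?_⟩
    · obtain ⟨z, hz1, hz2⟩ := hSS s0 hs0 s hs
      rw [hsing z hz1] at hz2
      exact hz2
    · rcases hST s0 hs0 t ht with ⟨z, hz1, hz2⟩ | ⟨v2, ht2, v1, hv1, hadj⟩
      · exact ⟨z, hz2, hS1 s0 hs0 u hu z hz1⟩
      · rw [hsing v1 hv1] at hadj
        exact ⟨v2, by rw [ht2]; rfl, Or.inr hadj⟩
  · push Not at hsing
    obtain ⟨v, hv, hvu⟩ := hsing
    have h2 : ∀ a ∈ s0, a = u ∨ a = v := by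
      intro a ha
      by_contra hcon
      push Not at hcon
      exact hS.k4 w a u v (hSN s0 hs0 a ha) (hSN s0 hs0 u hu) (hSN s0 hs0 v hv)
        (hne s0 hs0 a ha u hu hcon.1) (hne s0 hs0 u hu v hv (Ne.symm hvu))
        (hne s0 hs0 a ha v hv hcon.2)
    by_cases hU : ∀ s ∈ S, u ∈ s
    · exact lc_two hS w S T hSN hTN hS1 hST hTT s0 hs0 u v hu hv (Ne.symm hvu) hU
    by_cases hV : ∀ s ∈ S, v ∈ s
    · exact lc_two hS w S T hSN hTN hS1 hST hTT s0 hs0 v u hv hu hvu hV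
    exfalso
    push Not at hU hV
    obtain ⟨s1, hs1, hus1⟩ := hU
    obtain ⟨s2, hs2, hvs2⟩ := hV
    have hv1 : v ∈ s1 := by
      obtain ⟨z, hz1, hz2⟩ := hSS s0 hs0 s1 hs1
      rcases h2 z hz1 with h | h
      · subst h
        exact absurd hz2 hus1
      · subst h
        exact hz2
    have hu2 : u ∈ s2 := by
      obtain ⟨z, hz1, hz2⟩ := hSS s0 hs0 s2 hs2
      rcases h2 z hz1 with h | h
      · subst h
        exact hz2
      · subst h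
        exact absurd hz2 hvs2
    obtain ⟨z, hz1, hz2⟩ := hSS s1 hs1 s2 hs2
    have hzu : z ≠ u := fun h => hus1 (h ▸ hz1)
    have hzv : z ≠ v := fun h => hvs2 (h ▸ hz2)
    exact hS.k4 w z u v (hSN s1 hs1 z hz1) (hSN s0 hs0 u hu) (hSN s0 hs0 v hv)
      (hne s2 hs2 z hz2 u hu2 hzu) (hne s0 hs0 u hu v hv (Ne.symm hvu))
      (hne s1 hs1 z hz1 v hv1 hzv)

end CLQ
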