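import Pool.Agent.CLQ.DefsU

/-!
# Clique dynamics at local girth six: Lev

The levels of the universal triangular cover of `G`.  A level has vertices `S`, a sibling
relation, the map `p` to `G` and the set `P a` of the images of the parents of `a`.  A vertex of
the next level is a pair `(g, C)`: its image `g` and the set `C` of its parents.
-/

namespace CLQ

universe u

variable {V : Type u} {G : SimpleGraph V}

theorem lev0_OK (g0 : V) : (lev0 G g0).OK where
  symm := fun _ _ h => h.elim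
  adj := fun _ _ h => h.elim
  Padj := fun _ q h => by
    change q ∈ (∅ : Set V) at h
    exact h.elim
  Pcl := fun _ q h => by
    change q ∈ (∅ : Set V) at h
    exact h.elim
  sibP := fun _ _ h => h.elim
  sibC := fun _ _ h => h.elim
  sib_ex := fun _ _ _ _ h => by
    obtain ⟨q, h, _⟩ := h
    change q ∈ (∅ : Set V) at h
    exact h.elim
  sib_inj := fun _ _ _ h => h.elim

theorem self_cls (L : Lvl G) {a : L.S} {g : V} (h : Ch L a g) : a ∈ cls L a g :=
  ⟨Or.inl rfl, h.1⟩

/-- a child direction of `a` adjacent to a sibling `b` of `a` is a child direction of `b` -/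
theorem Ch.sib (hG : Good G) (L : Lvl G) (hL : L.OK) {a b : L.S} {g : V} (h : Ch L a g)
    (hab : L.sib a b) (hbg : G.Adj (L.p b) g) : Ch L b g := by
  obtain ⟨h1, h2, h3⟩ := h
  obtain ⟨q, hqa, hqb⟩ := hL.sibC a b hab
  have hgb : g ∉ L.P b := by
    intro hg
    rcases hL.Pcl b q hqb g hg with e | e
    · exact h2 (e ▸ hqa)
    · exact h3 q hqa e
  refine ⟨hbg, hgb, ?_⟩
  intro q' hq' hadj
  -- `g, p a, q, q'` is a cycle in the link of `p b`
  have hne : q ≠ q' := fun e => h3 q hqa (e ▸ hadj)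
  have hqq : G.Adj q q' := (hL.Pcl b q hqb q' hq').resolve_left hne
  exact hG.c4 (L.p b) g (L.p a) q q' hbg (hL.adj a b hab).symm (hL.Padj b q hqb)
    (hL.Padj b q' hq') h1.symm (hL.Padj a q hqa) hqq hadj
    (fun e => h2 (e ▸ hqa)) (fun e => hL.sibP b a (hL.symm a b hab) (e ▸ hq'))

/-- two siblings adjacent to the same child direction are equal -/
theorem Ch.unique (hG : Good G) (L : Lvl G) (hL : L.OK) {b a c : L.S} {g : V} (h : Ch L b g)
    (hba : L.sib b a) (hbc : L.sib b c) (hag : G.Adj (L.p a) g) (hcg : G.Adj (L.p c) g) :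
    a = c := by
  by_contra hne
  obtain ⟨h1, h2, h3⟩ := h
  have hpne : L.p a ≠ L.p c := fun e => hne (hL.sib_inj b a c hba hbc e)
  obtain ⟨q, hqb, hqa⟩ := hL.sibC b a hba
  obtain ⟨q', hqb', hqc⟩ := hL.sibC b c hbc
  have hgq : g ≠ q := fun e => h2 (e ▸ hqb)
  by_cases e : q = q'
  · subst e
    exact hG.c4 (L.p b) g (L.p a) q (L.p c) h1 (hL.adj b a hba) (hL.Padj b q hqb)
      (hL.adj b c hbc) hag.symm (hL.Padj a q hqa) (hL.Padj c q hqc).symm hcg hgq hpne
  · have hqq : G.Adj q q' := (hL.Pcl b q hqb q' hqb').resolve_left e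
    exact hG.c5 (L.p b) g (L.p a) q q' (L.p c) h1 (hL.adj b a hba) (hL.Padj b q hqb)
      (hL.Padj b q' hqb') (hL.adj b c hbc) hag.symm (hL.Padj a q hqa) hqq
      (hL.Padj c q' hqc).symm hcg

theorem cls_eq (hG : Good G) (L : Lvl G) (hL : L.OK) {a b : L.S} {g : V} (h : Ch L a g)
    (hb : b ∈ cls L a g) : Ch L b g ∧ cls L b g = cls L a g := by
  obtain ⟨hb1, hb2⟩ := hb
  rcases hb1 with rfl | hab
  · exact ⟨h, rfl⟩
  have hC := Ch.sib hG L hL h hab hb2
  refine ⟨hC, ?_⟩
  ext x
  constructor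
  · rintro ⟨hx1, hx2⟩
    rcases hx1 with rfl | hx
    · exact ⟨Or.inr hab, hb2⟩
    · have : a = x := Ch.unique hG L hL hC (hL.symm a b hab) hx h.1 hx2
      exact ⟨Or.inl this.symm, hx2⟩
  · rintro ⟨hx1, hx2⟩
    rcases hx1 with rfl | hx
    · exact ⟨Or.inr (hL.symm _ _ hab), h.1⟩
    · have : b = x := Ch.unique hG L hL h hab hx hb2 hx2
      exact ⟨Or.inl this.symm, hx2⟩

end CLQ
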