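import Pool.Agent.CLQ.Lev

/-!
# Clique dynamics at local girth six: LevB

The next level satisfies the invariants.  For `x : (nxt L).S`, `x = (g, C)`, and `c ∈ C` we have
`Ch L c g` and `C = cls L c g` (`cls_eq`): this is `nxt_mem`.  Two different members `b, c` of `C` are
siblings (`b ∈ C = cls L c g`).
symm, adj: clear.  Padj: `G.Adj (p b) g` for `b ∈ cls`.  Pcl: siblings are adjacent.
sibP: `sib x y`, common parent `c`; suppose `p b = g'` (`g' = p y`) with `b ∈ x.2`.  `b = c`: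
`p c ~ g'` irreflexive.  `b ≠ c`: `sib c b`, `sibC` gives `q ∈ P c ∩ P b`, `q ~ p b = g'` (`Padj`),
contradiction to `Ch L c g'`.
sibC: `p c` for the common parent `c`.
sib_ex: `x = (g, C)`, `s ~ g`, `s ∉ P x`, `p c ~ s` with `c ∈ C`.  `Ch L c s`: `s ∈ P c` would
contradict `Ch L c g` (`s ~ g`); if `q ∈ P c` is adjacent to `s` then `sib_ex` gives `b` with `sib c b`,
`p b = s`, `b ∈ cls L c g = C`, so `s ∈ P x`, contradiction.  Take `y = (s, cls L c s)`.
sib_inj: `c ∈ x.2 ∩ y.2`, `c' ∈ x.2 ∩ y'.2`, `p y = p y' = s`.  If `c = c'` then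
`y.2 = cls L c s = y'.2`.  Otherwise `sib c c'`, and `g, s, p c, p c'` are pairwise adjacent
(`p c ~ s` as `c ∈ y.2 = cls L c s`): k4.
-/

namespace CLQ

universe u

variable {V : Type u} {G : SimpleGraph V}

theorem nxt_mem (hG : Good G) (L : Lvl G) (hL : L.OK) (x : (nxt L).S) {c : L.S}
    (hc : c ∈ x.1.2) : Ch L c x.1.1 ∧ x.1.2 = cls L c x.1.1 := by
  obtain ⟨a, ha, hx⟩ := x.2
  have hc' := hc
  rw [hx] at hc'
  obtain ⟨h1, h2⟩ := cls_eq hG L hL ha hc'
  exact ⟨h1, by rw [h2]; exact hx⟩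

private theorem nxt_sib (hG : Good G) (L : Lvl G) (hL : L.OK) (x : (nxt L).S) {b c : L.S}
    (hb : b ∈ x.1.2) (hc : c ∈ x.1.2) : b = c ∨ L.sib c b := by
  obtain ⟨-, h2⟩ := nxt_mem hG L hL x hc
  rw [h2] at hb
  exact hb.1

private theorem nxt_adj (hG : Good G) (L : Lvl G) (hL : L.OK) (x : (nxt L).S) {c : L.S}
    (hc : c ∈ x.1.2) : G.Adj (L.p c) x.1.1 := (nxt_mem hG L hL x hc).1.1

theorem nxt_OK (hG : Good G) (L : Lvl G) (hL : L.OK) : (nxt L).OK := by
  refine ⟨?_, ?_, ?_, ?_, ?_, ?_, ?_, ?_⟩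
  · rintro x y ⟨h1, a, h2, h3⟩
    exact ⟨h1.symm, a, h3, h2⟩
  · rintro x y ⟨h1, -⟩
    exact h1
  · rintro x q ⟨b, hb, rfl⟩
    exact (nxt_adj hG L hL x hb).symm
  · rintro x q ⟨b, hb, rfl⟩ q' ⟨b', hb', rfl⟩
    rcases nxt_sib hG L hL x hb hb' with h | h
    · rw [h]; exact CAdj.refl _
    · exact Or.inr (hL.adj _ _ h).symm
  · rintro x y ⟨hxy, c, hcx, hcy⟩ ⟨b, hb, hby⟩
    change L.p b = y.1.1 at hby
    have hcy' := (nxt_mem hG L hL y hcy).1
    rcases nxt_sib hG L hL x hb hcx with h | h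
    · subst h
      have := hcy'.1
      rw [hby] at this
      exact G.loopless.irrefl _ this
    · obtain ⟨q, hq1, hq2⟩ := hL.sibC _ _ h
      have h3 := hL.Padj b q hq2
      rw [hby] at h3
      exact hcy'.2.2 q hq1 h3.symm
  · rintro x y ⟨hxy, c, hcx, hcy⟩
    exact ⟨L.p c, ⟨c, hcx, rfl⟩, ⟨c, hcy, rfl⟩⟩
  · rintro x s hxs hs ⟨q, ⟨c, hc, rfl⟩, hcs⟩
    change G.Adj x.1.1 s at hxs
    obtain ⟨hch, hcls⟩ := nxt_mem hG L hL x hc
    have hch' : Ch L c s := by
      refine ⟨hcs, ?_, ?_⟩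
      · intro hsP
        exact hch.2.2 s hsP hxs.symm
      · intro q hq hqs
        by_cases hsP : s ∈ L.P c
        · exact hch.2.2 s hsP hxs.symm
        · obtain ⟨b, hb1, hb2⟩ := hL.sib_ex c s hcs hsP ⟨q, hq, hqs⟩
          apply hs
          refine ⟨b, ?_, hb2⟩
          rw [hcls]
          refine ⟨Or.inr hb1, ?_⟩
          rw [hb2]
          exact hxs.symm
    refine ⟨⟨(s, cls L c s), c, hch', rfl⟩, ⟨hxs, c, hc, ?_⟩, rfl⟩
    exact self_cls L hch'
  · rintro x y y' ⟨h1, c, hcx, hcy⟩ ⟨h2, c', hcx', hcy'⟩ hp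
    change y.1.1 = y'.1.1 at hp
    have hy := nxt_mem hG L hL y hcy
    have hy' := nxt_mem hG L hL y' hcy'
    by_cases hcc : c = c'
    · subst hcc
      apply Subtype.ext
      apply Prod.ext
      · exact hp
      · rw [hy.2, hy'.2, hp]
    · exfalso
      have hsib : L.sib c' c := by
        rcases nxt_sib hG L hL x hcx hcx' with h | h
        · exact absurd h hcc
        · exact h
      have h3 := hL.adj _ _ hsib
      have h4 := nxt_adj hG L hL x hcx
      have h5 := nxt_adj hG L hL x hcx'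
      have h6 := hy.1.1
      have h7 := hy'.1.1
      rw [← hp] at h7
      exact hG.k4 x.1.1 y.1.1 (L.p c) (L.p c') h1 h4.symm h5.symm h6.symm h3.symm h7.symm

theorem lev_OK (hG : Good G) (g0 : V) (n : ℕ) : (lev G g0 n).OK := by
  induction n with
  | zero => exact lev0_OK g0
  | succ n ih => exact nxt_OK hG _ ih

end CLQ
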