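import Pool.Agent.CLQ.KEY

/-!
# Clique dynamics at local girth six: MDb

Consequences of `KEY`.
`nbhd`: `KEY` with `C := A`, `A := B := insert y A`, `w := y`: `w' ∈ A` by maximality.
`diam2`: `nbhd` for `y` and `z`.
`sub`: `A`, `B` maximal sets of diameter ≤ n + 1 with union of diameter ≤ n + 2, `C` maximal among
the subsets of `A ∩ B` of diameter ≤ n.  For every `w ∈ A`, `KEY` gives `w'` near `w` with
`w' ∈ A ∩ B` (maximality of `A`, `B`) and within `n` of `C`, so `w' ∈ C`.  In particular `C` is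
nonempty, and every point of `A` (and by symmetry of `B`) is within 1 of `C`.  If `v` is within
`n` of all of `C` then it is within `n + 1` of `A` and of `B`, so `v ∈ A ∩ B`, so `v ∈ C`.
`P1`: `sub` with `B = A` and `C` from `exists_rel_MD n A {x}`.  `P2`: `sub` with `C` from
`exists_rel_MD n (A ∩ B) ∅`.
-/

namespace CLQ

universe u

variable {V : Type u} {G : SimpleGraph V}

theorem MD.nbhd (hS : Sys G) {n : ℕ} {A : Set V} (hA : MD G n A) {y : V}
    (h : ∀ a ∈ A, G.dist a y ≤ n + 1) : ∃ a ∈ A, G.dist a y ≤ 1 := by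
  have hdA : ∀ a ∈ insert y A, ∀ b ∈ insert y A, G.dist a b ≤ n + 1 := by
    rintro a (rfl | ha) b (rfl | hb)
    · simp
    · rw [SimpleGraph.dist_comm]
      exact h b hb
    · exact h a ha
    · have := hA.2.1 a ha b hb
      omega
  obtain ⟨w', h1, h2, h3, h4⟩ := KEY hS n (insert y A) (insert y A) A (Set.subset_insert _ _)
    (Set.subset_insert _ _) hA.2.1 hdA hdA (fun a ha b hb => by
      have := hdA a ha b hb
      omega) y (Set.mem_insert _ _)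
  refine ⟨w', hA.2.2 w' fun a ha => ?_, ?_⟩
  · rw [SimpleGraph.dist_comm]
    exact h2 a ha
  · rw [SimpleGraph.dist_comm]
    exact h1

theorem MD.diam2 (hS : Sys G) {n : ℕ} {A : Set V} (hA : MD G n A) {y z : V}
    (hy : ∀ a ∈ A, G.dist a y ≤ n + 1) (hz : ∀ a ∈ A, G.dist a z ≤ n + 1) :
    G.dist y z ≤ n + 2 := by
  have hc := hS.conn
  obtain ⟨a, ha, h1⟩ := hA.nbhd hS hy
  obtain ⟨b, hb, h2⟩ := hA.nbhd hS hz
  have h3 := hA.2.1 a ha b hb
  have h4 := tri hc y a z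
  have h5 := tri hc a b z
  rw [SimpleGraph.dist_comm] at h1
  omega

/-- `KEY` gives a point of `C` near every point of `A` -/
theorem MDb_near (hS : Sys G) {n : ℕ} {A B C : Set V} (hA : MD G (n + 1) A)
    (hB : MD G (n + 1) B) (h : ∀ a ∈ A, ∀ b ∈ B, G.dist a b ≤ n + 2) (hCA : C ⊆ A)
    (hCB : C ⊆ B) (dC : ∀ a ∈ C, ∀ b ∈ C, G.dist a b ≤ n)
    (hmax : ∀ v ∈ A ∩ B, (∀ c ∈ C, G.dist c v ≤ n) → v ∈ C) {w : V} (hw : w ∈ A) :
    ∃ c ∈ C, G.dist w c ≤ 1 := by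
  obtain ⟨w', h1, h2, h3, h4⟩ := KEY hS n A B C hCA hCB dC hA.2.1 hB.2.1 h w hw
  have hwA : w' ∈ A := hA.2.2 w' fun a ha => by
    rw [SimpleGraph.dist_comm]
    exact h3 a ha
  have hwB : w' ∈ B := hB.2.2 w' fun a ha => by
    rw [SimpleGraph.dist_comm]
    exact h4 a ha
  exact ⟨w', hmax w' ⟨hwA, hwB⟩ (fun c hcC => by
    rw [SimpleGraph.dist_comm]
    exact h2 c hcC), h1⟩

theorem MD.sub (hS : Sys G) {n : ℕ} {A B C : Set V} (hA : MD G (n + 1) A)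
    (hB : MD G (n + 1) B) (h : ∀ a ∈ A, ∀ b ∈ B, G.dist a b ≤ n + 2) (hCA : C ⊆ A)
    (hCB : C ⊆ B) (dC : ∀ a ∈ C, ∀ b ∈ C, G.dist a b ≤ n)
    (hmax : ∀ v ∈ A ∩ B, (∀ c ∈ C, G.dist c v ≤ n) → v ∈ C) : MD G n C := by
  have hc := hS.conn
  refine ⟨?_, dC, ?_⟩
  · obtain ⟨w, hw⟩ := hA.1
    obtain ⟨c, hcC, _⟩ := MDb_near hS hA hB h hCA hCB dC hmax hw
    exact ⟨c, hcC⟩
  · intro v hv
    refine hmax v ⟨hA.2.2 v fun a ha => ?_, hB.2.2 v fun b hb => ?_⟩ hv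
    · obtain ⟨c, hcC, h1⟩ := MDb_near hS hA hB h hCA hCB dC hmax ha
      have h2 := tri hc a c v
      have h3 := hv c hcC
      omega
    · obtain ⟨c, hcC, h1⟩ := MDb_near hS hB hA (fun a ha b hb => by
        rw [SimpleGraph.dist_comm]
        exact h b hb a ha) hCB hCA dC (fun v hv => hmax v ⟨hv.2, hv.1⟩) hb
      have h2 := tri hc b c v
      have h3 := hv c hcC
      omega

theorem MD.P1 (hS : Sys G) {n : ℕ} {A : Set V} (hA : MD G (n + 1) A) {x : V} (hx : x ∈ A) :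
    ∃ C, MD G n C ∧ x ∈ C ∧ C ⊆ A := by
  obtain ⟨C, h1, h2, h3, h4⟩ := exists_rel_MD (G := G) n A {x}
    (Set.singleton_subset_iff.2 hx) (by
      rintro a rfl b rfl
      simp)
  refine ⟨C, MD.sub hS hA hA (fun a ha b hb => ?_) h2 h2 h3 (fun v hv => h4 v hv.1),
    h1 rfl, h2⟩
  have := hA.2.1 a ha b hb
  omega

theorem MD.P2 (hS : Sys G) {n : ℕ} {A B : Set V} (hA : MD G (n + 1) A)
    (hB : MD G (n + 1) B) (h : ∀ a ∈ A, ∀ b ∈ B, G.dist a b ≤ n + 2) :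
    ∃ C, MD G n C ∧ C ⊆ A ∧ C ⊆ B := by
  obtain ⟨C, h1, h2, h3, h4⟩ := exists_rel_MD (G := G) n (A ∩ B) ∅ (Set.empty_subset _)
    (fun a ha => absurd ha (Set.notMem_empty a))
  exact ⟨C, MD.sub hS hA hB h (h2.trans Set.inter_subset_left) (h2.trans Set.inter_subset_right)
    h3 h4, h2.trans Set.inter_subset_left, h2.trans Set.inter_subset_right⟩

end CLQ
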