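import Pool.Agent.CLQ.GenC
import Pool.Agent.CLQ.Gir

/-!
# Cover stability of clique dynamics at local girth six
-/

namespace CLQ

universe u

/-- The closed neighbourhood of `v`. -/
def closedNbhd {V : Type u} (G : SimpleGraph V) (v : V) : Set V := {w | w = v ∨ G.Adj v w}

/-- Triangular covering maps: a graph homomorphism which maps, for every vertex `v`, the closed
neighbourhood of `v` bijectively onto the closed neighbourhood of `p v`, and this is an isomorphism
of the induced subgraphs. -/
def IsTriangularCovering {V W : Type u} (H : SimpleGraph V) (G : SimpleGraph W) (p : V → W) :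
    Prop :=
  (∀ a b, H.Adj a b → G.Adj (p a) (p b)) ∧
  ∀ v, Set.BijOn p (closedNbhd H v) (closedNbhd G (p v)) ∧
    ∀ a ∈ closedNbhd H v, ∀ b ∈ closedNbhd H v, G.Adj (p a) (p b) → H.Adj a b

theorem IsTriangularCovering.triCover {V W : Type u} {H : SimpleGraph V} {G : SimpleGraph W}
    {p : V → W} (h : IsTriangularCovering H G p) : TriCover H G p where
  adj := fun {a b} hab => h.1 a b hab
  surj := by
    intro v w hvw
    obtain ⟨a, ha, hpa⟩ := (h.2 v).1.surjOn (Or.inr hvw : w ∈ closedNbhd G (p v))
    rcases ha with rfl | ha
    · rw [hpa] at hvw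
      exact absurd hvw (G.loopless.irrefl _)
    · exact ⟨a, ha, hpa⟩
  inj := fun v a b ha hb hab => (h.2 v).1.injOn (Or.inr ha) (Or.inr hb) hab
  tri := fun v a b ha hb hab => (h.2 v).2 a (Or.inr ha) b (Or.inr hb) hab

/-- The local girth of `G` is at least six: for every vertex the subgraph induced on its open
neighbourhood has girth at least six. -/
def LocalGirthSix {V : Type u} (G : SimpleGraph V) : Prop :=
  ∀ v, 6 ≤ (G.induce (G.neighborSet v)).egirth

/-- The local minimum degree of `G` is at least two: for adjacent `v`, `w` the degree of `w` in the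
subgraph induced on the open neighbourhood of `v` is at least two. -/
def LocalMinDegreeTwo {V : Type u} (G : SimpleGraph V) : Prop :=
  ∀ v w, G.Adj v w → 2 ≤ (G.neighborSet v ∩ G.neighborSet w).encard

/-- `G` is arbitrary.  If `G` is convergent then so is every triangular cover of `G`; if the
triangular covering map is onto (for instance if `G` is connected and `H` is nonempty) then the
converse holds as well. -/
theorem final (G H : Gph.{u}) (p : H.V → G.V) (h1 : LocalGirthSix G.G)
    (h2 : LocalMinDegreeTwo G.G) (hp : IsTriangularCovering H.G G.G p) :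
    (Convergent G → Convergent H) ∧
    ((Function.Surjective p ∨ (G.G.Connected ∧ Nonempty H.V)) →
      (Convergent H ↔ Convergent G)) := by
  have hG : Good G.G := Good_of_girth G.G h1 h2
  have hid : TriCover G.G G.G (fun a => a) := TriCover.id G.G
  rcases dich_gen G hG with h | h
  · exact ⟨fun _ => h H p hp.triCover, fun _ => ⟨fun _ => h G _ hid, fun _ => h H p hp.triCover⟩⟩
  · have hn : ¬ Convergent G := h G _ hid fun a => ⟨a, rfl⟩
    refine ⟨fun h' => absurd h' hn, fun hs => ⟨fun h' => ?_, fun h' => absurd h' hn⟩⟩
    have hsur : Function.Surjective p := by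
      rcases hs with hs | ⟨hc, ⟨z⟩⟩
      · exact hs
      · exact hp.triCover.surjective hc z
    exact absurd h' (h H p hp.triCover hsur)

end CLQ
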