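import Pool.Agent.CLQ.CovA

/-!
# Clique dynamics at local girth six: Pull

Lifting through triangular covers.
-/

namespace CLQ

universe u

/-- the fibre product -/
def fibP {X Y Z : Gph.{u}} (f : X.V → Z.V) (q : Y.V → Z.V) : Gph.{u} where
  V := {a : X.V × Y.V // f a.1 = q a.2}
  G :=
    { Adj := fun a b => X.G.Adj a.1.1 b.1.1 ∧ Y.G.Adj a.1.2 b.1.2
      symm := ⟨fun _ _ h => ⟨h.1.symm, h.2.symm⟩⟩
      loopless := ⟨fun _ h => X.G.loopless.irrefl _ h.1⟩ }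

theorem fibP_cover {X Y Z : Gph.{u}} {f : X.V → Z.V} {q : Y.V → Z.V}
    (hf : TriCover X.G Z.G f) (hq : TriCover Y.G Z.G q) :
    TriCover (fibP f q).G X.G (fun a : {a : X.V × Y.V // f a.1 = q a.2} => a.1.1) where
  adj := fun h => h.1
  surj := by
    rintro ⟨⟨x, y⟩, hxy⟩ x' h
    have hxy' : f x = q y := hxy
    have h' : X.G.Adj x x' := h
    have h1 : Z.G.Adj (q y) (f x') := by
      rw [← hxy']
      exact hf.adj h'
    obtain ⟨y', h2, h3⟩ := hq.surj y (f x') h1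
    exact ⟨⟨⟨x', y'⟩, h3.symm⟩, ⟨h', h2⟩, rfl⟩
  inj := by
    rintro ⟨⟨x, y⟩, hxy⟩ ⟨⟨x1, y1⟩, h1⟩ ⟨⟨x2, y2⟩, h2⟩ ha hb he
    have he' : x1 = x2 := he
    have h1' : f x1 = q y1 := h1
    have h2' : f x2 = q y2 := h2
    have hy : y1 = y2 := hq.inj y y1 y2 ha.2 hb.2 (by rw [← h1', ← h2', he'])
    apply Subtype.ext
    exact Prod.ext he' hy
  tri := by
    rintro ⟨⟨x, y⟩, hxy⟩ ⟨⟨x1, y1⟩, h1⟩ ⟨⟨x2, y2⟩, h2⟩ ha hb he
    have he' : X.G.Adj x1 x2 := he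
    have h1' : f x1 = q y1 := h1
    have h2' : f x2 = q y2 := h2
    refine ⟨he', hq.tri y y1 y2 ha.2 hb.2 ?_⟩
    rw [← h1', ← h2']
    exact hf.adj he'

theorem lift {X Y Z : Gph.{u}} (hX : SC X) {f : X.V → Z.V} {q : Y.V → Z.V}
    (hf : TriCover X.G Z.G f) (hq : TriCover Y.G Z.G q) (x : X.V) (y : Y.V) (hxy : f x = q y) :
    ∃ s : X.V → Y.V, TriCover X.G Y.G s ∧ (∀ a, q (s a) = f a) ∧ s x = y := by
  obtain ⟨s, h1, h2, h3⟩ := hX (fibP f q) _ (fibP_cover hf hq) ⟨⟨x, y⟩, hxy⟩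
  have h2' : ∀ a, ((s a).1.1 : X.V) = a := h2
  have h4 : ∀ a, q (s a).1.2 = f a := by
    intro a
    have h5 : f (s a).1.1 = q (s a).1.2 := (s a).2
    rw [← h5, h2' a]
  refine ⟨fun a => (s a).1.2, ?_, h4, ?_⟩
  · exact TriCover.factor hf hq _ (fun a b hab => (h1 a b hab).2) h4
  · exact congrArg (fun z : {a : X.V × Y.V // f a.1 = q a.2} => z.1.2) h3

theorem cover_bij {X Y : Gph.{u}} (hY : SC Y) (cX : X.G.Connected) {p : X.V → Y.V}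
    (hp : TriCover X.G Y.G p) :
    Function.Bijective p ∧ ∀ a b, Y.G.Adj (p a) (p b) ↔ X.G.Adj a b := by
  obtain ⟨x0⟩ := cX.nonempty
  obtain ⟨s, h1, h2, h3⟩ := hY X p hp x0
  have hid : ∀ a, s (p a) = a :=
    TriCover.unique_lift (GZ := Y.G) (q := p) cX hp (fun a => s (p a)) (fun a => a)
      (fun a b hab => h1 _ _ (hp.adj hab)) (fun a b hab => hab) (fun a => h2 (p a)) x0 h3
  refine ⟨⟨fun a b hab => ?_, fun b => ⟨s b, h2 b⟩⟩, fun a b => ⟨fun h => ?_, fun h => hp.adj h⟩⟩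
  · rw [← hid a, ← hid b, hab]
  · have := h1 _ _ h
    rwa [hid a, hid b] at this

theorem uniq {X Y Z : Gph.{u}} (hX : SC X) (hY : SC Y) (cX : X.G.Connected)
    {f : X.V → Z.V} {q : Y.V → Z.V} (hf : TriCover X.G Z.G f) (hq : TriCover Y.G Z.G q)
    (x : X.V) (y : Y.V) (hxy : f x = q y) : Iso X Y := by
  obtain ⟨s, h1, -, -⟩ := lift hX hf hq x y hxy
  obtain ⟨h2, h3⟩ := cover_bij hY cX h1
  exact ⟨⟨Equiv.ofBijective s h2, by
    intro a b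
    exact h3 a b⟩⟩

end CLQ
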