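import Pool.Agent.CLQ.CovA

/-!
# Clique dynamics at local girth six: SCB

A connected graph satisfying F1 and F2 with respect to one base point `x` is simply connected.
Let `q : Y → X` be a triangular cover and `y : Y.V`; first suppose `q y = x` (general case below).
Let `R` be the inductive relation between `X.V` and `Y.V`: `R x y`; if `R p z`, `p ∈ par x w`,
`z ~ z'` and `q z' = w` then `R w z'`.  `R w z` implies `q z = w`.
Existence of `z` with `R w z`: induction on the distance (`par_nonempty`, `hq.surj`).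
By simultaneous induction on the level: (U) if `R w z1`, `R w z2` then `z1 = z2`;
(H) if `w ~ w'` are on the same level, `R w z`, `R w' z'` then `z ~ z'`.
(U) at level `n + 1`: `R p1 c1`, `R p2 c2`, `p1, p2 ∈ par x w`, `CAdj p1 p2` (F1); if `p1 = p2`
then `c1 = c2` by (U) and `z1 = z2` by `inj`; if `p1 ~ p2` then `c1 ~ c2` by (H), and at `c1`: `c2`
and `z1` are near `c1` with adjacent images, so `c2 ~ z1`, and `z1 = z2` by `inj` at `c2`.
(H) from (U) at the same level: F2 gives `p ∈ par x w ∩ par x w'`, take `c` with `R p c` and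
neighbours of `c` over `w`, `w'`; by (U) they are `z`, `z'`; `tri` gives `z ~ z'`.
Let `s w` be the unique `z` with `R w z`.  It is a homomorphism: for `w ~ w'` on the same level
(H); if `w ∈ par x w'` then `s w'` is the neighbour of `s w` over `w'` (by (U)).  `s x = y`.
General base: for arbitrary `y : Y.V` walk from `q y` to `x` and lift the walk to `Y` (`surj`), get
`y'` over `x` connected to `y`; the section `s` with `s x = y'` satisfies `s (q y) = y` (the lift of
a walk is unique: along the walk from `x` to `q y` the lift starting at `y'` ends at `y` and at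
`s (q y)`; use `inj` step by step).
-/

namespace CLQ

universe u

/-- The lifting relation of SCB. -/
inductive SCBRel (X Y : Gph.{u}) (q : Y.V → X.V) (x : X.V) (y0 : Y.V) : X.V → Y.V → Prop
  | base : SCBRel X Y q x y0 x y0
  | step (w p : X.V) (z z' : Y.V) : SCBRel X Y q x y0 p z → p ∈ par X.G x w →
      Y.G.Adj z z' → q z' = w → SCBRel X Y q x y0 w z'

private theorem SCBRel.img {X Y : Gph.{u}} {q : Y.V → X.V} {x : X.V} {y0 : Y.V}
    (hy : q y0 = x) {w : X.V} {z : Y.V} (h : SCBRel X Y q x y0 w z) : q z = w := by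
  cases h with
  | base => exact hy
  | step _ p c c' h1 h2 h3 h4 => exact h4

private theorem SCBRel.ex {X Y : Gph.{u}} {q : Y.V → X.V} {x : X.V} {y0 : Y.V}
    (hc : X.G.Connected) (hq : TriCover Y.G X.G q) (hy : q y0 = x) :
    ∀ n w, X.G.dist x w = n → ∃ z, SCBRel X Y q x y0 w z := by
  intro n
  induction n with
  | zero =>
    intro w hw
    have : x = w := (hc.dist_eq_zero_iff).1 hw
    subst this
    exact ⟨y0, SCBRel.base⟩
  | succ n ih =>
    intro w hw
    have hne : w ≠ x := by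
      rintro rfl
      rw [SimpleGraph.dist_self] at hw
      omega
    obtain ⟨p, hp⟩ := par_nonempty hc hne
    have hp' := hp
    obtain ⟨hp1, hp2⟩ := hp'
    obtain ⟨z, hz⟩ := ih p (by omega)
    have hzp := hz.img hy
    obtain ⟨z', h1, h2⟩ := hq.surj z w (by rw [hzp]; exact hp1.symm)
    exact ⟨z', SCBRel.step w p z z' hz hp h1 h2⟩

private theorem SCBRel.uh {X Y : Gph.{u}} {q : Y.V → X.V} {x : X.V} {y0 : Y.V}
    (hc : X.G.Connected)
    (h1 : ∀ w p q, p ∈ par X.G x w → q ∈ par X.G x w → CAdj X.G p q)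
    (h2 : ∀ w v, X.G.Adj w v → X.G.dist x w = X.G.dist x v →
      ∃ p, p ∈ par X.G x w ∧ p ∈ par X.G x v)
    (hq : TriCover Y.G X.G q) (hy : q y0 = x) :
    ∀ n, (∀ w, X.G.dist x w = n → ∀ z1 z2, SCBRel X Y q x y0 w z1 →
        SCBRel X Y q x y0 w z2 → z1 = z2) ∧
      (∀ w w', X.G.dist x w = n → X.G.dist x w' = n → X.G.Adj w w' → ∀ z z',
        SCBRel X Y q x y0 w z → SCBRel X Y q x y0 w' z' → Y.G.Adj z z') := by
  intro n
  induction n with
  | zero =>
    refine ⟨?_, ?_⟩
    · intro w hw z1 z2 hz1 hz2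
      have hb : ∀ z, SCBRel X Y q x y0 w z → z = y0 := by
        intro z hz
        cases hz with
        | base => rfl
        | step _ p c c' g1 g2 g3 g4 =>
          have := g2.2
          omega
      rw [hb z1 hz1, hb z2 hz2]
    · intro w w' hw hw' hww
      have g1 : x = w := (hc.dist_eq_zero_iff).1 hw
      have g2 : x = w' := (hc.dist_eq_zero_iff).1 hw'
      rw [← g1, ← g2] at hww
      exact absurd hww (X.G.loopless.irrefl _)
  | succ n ih =>
    obtain ⟨ihU, ihH⟩ := ih
    have hU : ∀ w, X.G.dist x w = n + 1 → ∀ z1 z2, SCBRel X Y q x y0 w z1 →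
        SCBRel X Y q x y0 w z2 → z1 = z2 := by
      intro w hw z1 z2 hz1 hz2
      have hb : ∀ z, SCBRel X Y q x y0 w z → ∃ p c, SCBRel X Y q x y0 p c ∧
          p ∈ par X.G x w ∧ Y.G.Adj c z ∧ q z = w := by
        intro z hz
        cases hz with
        | base => rw [SimpleGraph.dist_self] at hw; omega
        | step _ p c c' g1 g2 g3 g4 => exact ⟨_, _, g1, g2, g3, g4⟩
      obtain ⟨p1, c1, a1, b1, e1, f1⟩ := hb z1 hz1
      obtain ⟨p2, c2, a2, b2, e2, f2⟩ := hb z2 hz2
      have hd1 : X.G.dist x p1 = n := by have := b1.2; omega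
      have hd2 : X.G.dist x p2 = n := by have := b2.2; omega
      rcases h1 w p1 p2 b1 b2 with h | h
      · subst h
        have hcc : c1 = c2 := ihU p1 hd1 c1 c2 a1 a2
        subst hcc
        exact hq.inj c1 z1 z2 e1 e2 (by rw [f1, f2])
      · have hcc := ihH p1 p2 hd1 hd2 h c1 c2 a1 a2
        have hcz : Y.G.Adj c2 z1 := by
          refine hq.tri c1 c2 z1 hcc e1 ?_
          rw [a2.img hy, f1]
          exact b2.1.symm
        exact hq.inj c2 z1 z2 hcz e2 (by rw [f1, f2])
    refine ⟨hU, ?_⟩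
    intro w w' hw hw' hww z z' hz hz'
    obtain ⟨p, hp1, hp2⟩ := h2 w w' hww (by rw [hw, hw'])
    have hd : X.G.dist x p = n := by have := hp1.2; omega
    obtain ⟨c, hcR⟩ := SCBRel.ex hc hq hy n p hd
    have hcp := hcR.img hy
    obtain ⟨a, ha1, ha2⟩ := hq.surj c w (by rw [hcp]; exact hp1.1.symm)
    obtain ⟨a', ha1', ha2'⟩ := hq.surj c w' (by rw [hcp]; exact hp2.1.symm)
    have e1 : z = a := hU w hw z a hz (SCBRel.step w p c a hcR hp1 ha1 ha2)
    have e2 : z' = a' := hU w' hw' z' a' hz' (SCBRel.step w' p c a' hcR hp2 ha1' ha2')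
    rw [e1, e2]
    exact hq.tri c a a' ha1 ha1' (by rw [ha2, ha2']; exact hww)

private theorem SCB_section {X Y : Gph.{u}} {q : Y.V → X.V} {x : X.V} {y0 : Y.V}
    (hc : X.G.Connected)
    (h1 : ∀ w p q, p ∈ par X.G x w → q ∈ par X.G x w → CAdj X.G p q)
    (h2 : ∀ w v, X.G.Adj w v → X.G.dist x w = X.G.dist x v →
      ∃ p, p ∈ par X.G x w ∧ p ∈ par X.G x v)
    (hq : TriCover Y.G X.G q) (hy : q y0 = x) :
    ∃ s : X.V → Y.V, (∀ a b, X.G.Adj a b → Y.G.Adj (s a) (s b)) ∧ (∀ a, q (s a) = a) ∧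
      s x = y0 := by
  have hex : ∀ w, ∃ z, SCBRel X Y q x y0 w z := fun w => SCBRel.ex hc hq hy _ w rfl
  choose s hs using hex
  have huh := SCBRel.uh hc h1 h2 hq hy
  have hup : ∀ a b, X.G.Adj a b → X.G.dist x b = X.G.dist x a + 1 →
      Y.G.Adj (s a) (s b) := by
    intro a b hab hd
    have ha := (hs a).img hy
    obtain ⟨z, hz1, hz2⟩ := hq.surj (s a) b (by rw [ha]; exact hab)
    have hz : SCBRel X Y q x y0 b z := SCBRel.step b a (s a) z (hs a) ⟨hab.symm, hd⟩ hz1 hz2
    rw [(huh _).1 b rfl (s b) z (hs b) hz]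
    exact hz1
  refine ⟨s, ?_, fun a => (hs a).img hy, (huh _).1 x rfl _ _ (hs x) SCBRel.base⟩
  intro a b hab
  have g1 := dist_adj hc x (Or.inr hab)
  have g2 := dist_adj hc x (Or.inr hab.symm)
  rcases Nat.lt_trichotomy (X.G.dist x a) (X.G.dist x b) with h | h | h
  · exact hup a b hab (by omega)
  · exact (huh _).2 a b rfl h.symm hab _ _ (hs a) (hs b)
  · exact (hup b a hab.symm (by omega)).symm

private theorem SCB_walk {X Y : Gph.{u}} {q : Y.V → X.V} (hq : TriCover Y.G X.G q)
    {a b : X.V} (w : X.G.Walk a b) : ∀ y : Y.V, q y = a → ∃ z, q z = b ∧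
      ∀ s : X.V → Y.V, (∀ a b, X.G.Adj a b → Y.G.Adj (s a) (s b)) → (∀ a, q (s a) = a) →
        s b = z → s a = y := by
  induction w with
  | nil => exact fun y hy => ⟨y, hy, fun s _ _ h => h⟩
  | @cons a a1 b hab w ih =>
    intro y hy
    obtain ⟨y1, g1, g2⟩ := hq.surj y a1 (by rw [hy]; exact hab)
    obtain ⟨z, hz, hs⟩ := ih y1 g2
    refine ⟨z, hz, ?_⟩
    intro s hs1 hs2 hs3
    have g3 := hs s hs1 hs2 hs3
    refine hq.inj y1 (s a) y ?_ g1.symm ?_
    · rw [← g3]
      exact hs1 _ _ hab.symm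
    · rw [hs2, hy]

theorem SC_of_base (X : Gph.{u}) (x : X.V) (hc : X.G.Connected)
    (h1 : ∀ w p q, p ∈ par X.G x w → q ∈ par X.G x w → CAdj X.G p q)
    (h2 : ∀ w v, X.G.Adj w v → X.G.dist x w = X.G.dist x v →
      ∃ p, p ∈ par X.G x w ∧ p ∈ par X.G x v) : SC X := by
  intro Y q hq y
  obtain ⟨w⟩ := hc.preconnected (q y) x
  obtain ⟨z, hz, hs⟩ := SCB_walk hq w y rfl
  obtain ⟨s, hs1, hs2, hs3⟩ := SCB_section hc h1 h2 hq hz
  exact ⟨s, hs1, hs2, hs s hs1 hs2 hs3⟩

end CLQ
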