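import Pool.Agent.CLQ.Cov

/-!
# Clique dynamics at local girth six: SCKa

Pulling back a cover `q : Y → kG G` of the clique graph to a cover of `G`.  Choose for every
vertex `v` a clique `cq v` containing it (`Classical.choose (exists_MC_vertex v)`).
`XT q` is the graph on the pairs `(v, y)` with `q y = cq v`, where `(v, y) ~ (v', y')` iff `v ~ v'`
and there is `z : Y` with `v, v' ∈ q z` and `CAdj y z`, `CAdj z y'`.
The first projection is a triangular cover.  Facts used: if two cliques share a vertex they are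
`CAdj` in `kG G` (`CAdj_kG`); `clift`, `cinj`, `ctri` for `q`.
surj: given `(v, y)` and `v ~ w`, take a clique `Q ∋ v, w`, lift it to `z` near `y` (`q y = cq v`
and `Q` share `v`), lift `cq w` to `y'` near `z`.
inj: `(w, y')`, `(w, y'')` both adjacent to `(v, y)` through `z`, `z'`: `z`, `z'` are near `y` and
`q z`, `q z'` share `v`, so `CAdj z z'`.  `y'` and `z'` are near `z` and their images share `w`:
`CAdj z' y'`.  `y'`, `y''` are near `z'` and have the same image, so `y' = y''`.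
tri: `(v, y) ~ (w, y')` through `z'`, `(v, y) ~ (u, y'')` through `z''`, `w ~ u`.  Take a clique
`R ∋ u, v, w` (`exists_MC`) and its lift `r` near `y`.  As above (`r`, `z'` near `y`, images share
`v`) `CAdj r z'`; `r`, `y'` near `z'`, images share `w`: `CAdj r y'`; in the same way
`CAdj r y''`; so `(w, y') ~ (u, y'')` through `r`.
-/

namespace CLQ

universe u

variable {V : Type u} {G : SimpleGraph V}

/-- a chosen clique through `v` -/
noncomputable def cq (v : V) : KV G := Classical.choose (exists_MC_vertex (G := G) v)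

theorem cq_mem (v : V) : v ∈ (cq (G := G) v).1 :=
  Classical.choose_spec (exists_MC_vertex (G := G) v)

/-- the pulled back graph -/
def XT (G : SimpleGraph V) (Y : Gph.{u}) (q : Y.V → KV G) : Gph.{u} where
  V := {a : V × Y.V // q a.2 = cq a.1}
  G :=
    { Adj := fun a b => G.Adj a.1.1 b.1.1 ∧ ∃ z : Y.V, a.1.1 ∈ (q z).1 ∧ b.1.1 ∈ (q z).1 ∧
        CAdj Y.G a.1.2 z ∧ CAdj Y.G z b.1.2
      symm := ⟨fun _ _ h => ⟨h.1.symm, by
        obtain ⟨z, h1, h2, h3, h4⟩ := h.2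
        exact ⟨z, h2, h1, h4.symm, h3.symm⟩⟩⟩
      loopless := ⟨fun _ h => G.loopless.irrefl _ h.1⟩ }

theorem XT_cover (Y : Gph.{u}) (q : Y.V → KV G) (hq : TriCover Y.G (kG G) q) :
    TriCover (XT G Y q).G G (fun a => a.1.1) := by
  refine { adj := fun h => h.1, surj := ?_, inj := ?_, tri := ?_ }
  · rintro ⟨⟨v, y⟩, hy⟩ w hvw
    have hvw' : G.Adj v w := hvw
    have hy' : q y = cq v := hy
    obtain ⟨Q, hQv, hQw⟩ := exists_MC_pair (G := G) (Or.inr hvw')
    obtain ⟨z, hz, hqz⟩ := hq.clift y Q (CAdj_kG.2 ⟨v, by rw [hy']; exact cq_mem v, hQv⟩)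
    obtain ⟨y', hyz, hqy'⟩ :=
      hq.clift z (cq w) (CAdj_kG.2 ⟨w, by rw [hqz]; exact hQw, cq_mem w⟩)
    exact ⟨⟨(w, y'), hqy'⟩,
      ⟨hvw', z, by rw [hqz]; exact hQv, by rw [hqz]; exact hQw, hz, hyz⟩, rfl⟩
  · rintro ⟨⟨v, y⟩, hy⟩ ⟨⟨w, y'⟩, hy'⟩ ⟨⟨w', y''⟩, hy''⟩ ⟨h1, z, hz1, hz2, hz3, hz4⟩
      ⟨h2, z', hz1', hz2', hz3', hz4'⟩ hab
    have hab' : w = w' := hab
    subst hab'
    have e1 : q y' = cq w := hy'
    have e2 : q y'' = cq w := hy''
    have h3 : CAdj Y.G z z' := hq.ctri hz3 hz3' (CAdj_kG.2 ⟨v, hz1, hz1'⟩)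
    have h4 : CAdj Y.G z' y' :=
      hq.ctri (v := z) h3 hz4 (CAdj_kG.2 ⟨w, hz2', by rw [e1]; exact cq_mem w⟩)
    have h5 : y' = y'' := hq.cinj h4 hz4' (e1.trans e2.symm)
    subst h5
    rfl
  · rintro ⟨⟨v, y⟩, hy⟩ ⟨⟨w, y'⟩, hy'⟩ ⟨⟨x, y''⟩, hy''⟩ ⟨h1, z, hz1, hz2, hz3, hz4⟩
      ⟨h2, z', hz1', hz2', hz3', hz4'⟩ hab
    have hwx : G.Adj w x := hab
    have hvw : G.Adj v w := h1
    have hvx : G.Adj v x := h2
    have e0 : q y = cq v := hy
    have e1 : q y' = cq w := hy'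
    have e2 : q y'' = cq x := hy''
    obtain ⟨R, hR⟩ := exists_MC (G := G) {v, w, x} ⟨v, by simp⟩ (by
      intro a ha b hb
      simp only [Set.mem_insert_iff, Set.mem_singleton_iff] at ha hb
      rcases ha with rfl | rfl | rfl <;> rcases hb with rfl | rfl | rfl
      · exact CAdj.refl _
      · exact Or.inr hvw
      · exact Or.inr hvx
      · exact Or.inr hvw.symm
      · exact CAdj.refl _
      · exact Or.inr hwx
      · exact Or.inr hvx.symm
      · exact Or.inr hwx.symm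
      · exact CAdj.refl _)
    have hRv : v ∈ R.1 := hR (by simp)
    have hRw : w ∈ R.1 := hR (by simp)
    have hRx : x ∈ R.1 := hR (by simp)
    obtain ⟨r, hr, hqr⟩ := hq.clift y R (CAdj_kG.2 ⟨v, by rw [e0]; exact cq_mem v, hRv⟩)
    have k1 : CAdj Y.G r z := hq.ctri hr hz3 (CAdj_kG.2 ⟨v, by rw [hqr]; exact hRv, hz1⟩)
    have k2 : CAdj Y.G r y' := hq.ctri (v := z) k1.symm hz4
      (CAdj_kG.2 ⟨w, by rw [hqr]; exact hRw, by rw [e1]; exact cq_mem w⟩)
    have k3 : CAdj Y.G r z' := hq.ctri hr hz3' (CAdj_kG.2 ⟨v, by rw [hqr]; exact hRv, hz1'⟩)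
    have k4 : CAdj Y.G r y'' := hq.ctri (v := z') k3.symm hz4'
      (CAdj_kG.2 ⟨x, by rw [hqr]; exact hRx, by rw [e2]; exact cq_mem x⟩)
    exact ⟨hwx, r, by rw [hqr]; exact hRw, by rw [hqr]; exact hRx, k2.symm, k4⟩

end CLQ
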