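import Pool.Agent.CLQ.Base

/-!
# Clique dynamics at local girth six: SHD

Shadows.  `Sh G x p t` = descendants of `p` at level `t` (level = distance from `x`).
`sh_step`: the first step of a geodesic from `p` to `z` is in `par x p` (levels).
`sh_same`, by induction on `dist x p - t`: if `dist x p = t`: `z = p`, `z' = p'`.  Otherwise
`z ∈ Sh u`, `u ∈ par x p` (`sh_step`), F2: `p'' ∈ par x p ∩ par x p'`, F1: `CAdj u p''`: if equal
`z ∈ Sh p'' ⊆ Sh p'` (`sh_mono`), otherwise induction for `u ~ p''`.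
`sh_diam`, by induction on `dist x p - t`: `z ∈ Sh u`, `z' ∈ Sh u'`, `u, u' ∈ par x p`; if
`u = u'` induction; otherwise `sh_same` gives `z'' ∈ Sh u'` near `z`.
`sh_adj`: by the levels of `p` and `p'`.  Same level: `sh_same`.  `p' ∈ par x p`: `z ∈ Sh u`,
`u ∈ par x p`, `CAdj u p'`, `sh_same` (unless the level of `p` is `t`, which is excluded by
`t ≤ dist x p'`).  `p ∈ par x p'`: `Sh p ⊆ Sh p'`, take `z' = z`; here the distance is 0.  The
statement is: `dist z z' + dist x p' ≤ dist x p + 1` (descending step from `p'` to `p`: distance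
0; same level: distance ≤ 1; ascending: ≤ 2).
-/

namespace CLQ

universe u

variable {V : Type u} {G : SimpleGraph V}

/-- the descendants of `p` at level `t` -/
def Sh (G : SimpleGraph V) (x p : V) (t : ℕ) : Set V :=
  {z | G.dist x z = t ∧ G.dist x p = t + G.dist z p}

theorem sh_step (hS : Sys G) {x p z : V} {t : ℕ} (hz : z ∈ Sh G x p t) (h : t < G.dist x p) :
    ∃ u ∈ par G x p, z ∈ Sh G x u t := by
  have hc := hS.conn
  obtain ⟨h1, h2⟩ := hz
  have h3 : G.dist p z = G.dist z p := SimpleGraph.dist_comm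
  obtain ⟨c, h4, h5⟩ := exists_between hc p z 1 (by omega)
  have h6 : G.dist c z = G.dist z c := SimpleGraph.dist_comm
  have h7 := tri hc x z c
  have h8 : G.Adj p c := SimpleGraph.dist_eq_one_iff_adj.1 h4
  have h9 := dist_adj hc x (Or.inr h8)
  refine ⟨c, ⟨h8, by omega⟩, h1, by omega⟩

theorem sh_mono (hS : Sys G) {x p u z : V} {t : ℕ} (hu : u ∈ par G x p)
    (hz : z ∈ Sh G x u t) : z ∈ Sh G x p t := by
  have hc := hS.conn
  obtain ⟨h1, h2⟩ := hz
  obtain ⟨h3, h4⟩ := hu
  have h5 := tri hc x z p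
  have h6 := tri hc z u p
  have h7 : G.dist u p = 1 := SimpleGraph.dist_eq_one_iff_adj.2 h3.symm
  exact ⟨h1, by omega⟩

theorem sh_same (hS : Sys G) {x p p' z : V} {t : ℕ} (h : G.Adj p p')
    (hl : G.dist x p = G.dist x p') (hz : z ∈ Sh G x p t) :
    ∃ z' ∈ Sh G x p' t, G.dist z z' ≤ 1 := by
  have hc := hS.conn
  obtain ⟨k, hk⟩ : ∃ k, G.dist x p = t + k := ⟨_, hz.2⟩
  induction k generalizing p p' with
  | zero =>
    have h0 : G.dist z p = 0 := by
      have := hz.2
      omega
    have hzp : z = p := hc.dist_eq_zero_iff.1 h0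
    subst hzp
    refine ⟨p', ⟨?_, ?_⟩, ?_⟩
    · omega
    · rw [SimpleGraph.dist_self]
      omega
    · exact (SimpleGraph.dist_eq_one_iff_adj.2 h).le
  | succ k ih =>
    obtain ⟨u, hu, hzu⟩ := sh_step hS hz (by omega)
    obtain ⟨p'', hp1, hp2⟩ := hS.F2 x p p' h hl
    rcases hS.F1 x p u p'' hu hp1 with he | he
    · subst he
      exact ⟨z, sh_mono hS hp2 hzu, by simp⟩
    · have e1 := hu.2
      have e2 := hp1.2
      obtain ⟨z', hz', hd⟩ := ih he (by omega) hzu (by omega)
      exact ⟨z', sh_mono hS hp2 hz', hd⟩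

theorem sh_diam (hS : Sys G) {x p z z' : V} {t : ℕ} (hz : z ∈ Sh G x p t)
    (hz' : z' ∈ Sh G x p t) : G.dist z z' + t ≤ G.dist x p := by
  have hc := hS.conn
  obtain ⟨k, hk⟩ : ∃ k, G.dist x p = t + k := ⟨_, hz.2⟩
  induction k generalizing p z z' with
  | zero =>
    have h0 : G.dist z p = 0 := by
      have := hz.2
      omega
    have h1 : G.dist z' p = 0 := by
      have := hz'.2
      omega
    have hzp : z = p := hc.dist_eq_zero_iff.1 h0
    have hzp' : z' = p := hc.dist_eq_zero_iff.1 h1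
    rw [hzp, hzp', SimpleGraph.dist_self]
    omega
  | succ k ih =>
    obtain ⟨u, hu, hzu⟩ := sh_step hS hz (by omega)
    obtain ⟨u', hu', hzu'⟩ := sh_step hS hz' (by omega)
    have e1 := hu.2
    have e2 := hu'.2
    rcases hS.F1 x p u u' hu hu' with he | he
    · subst he
      have := ih hzu hzu' (by omega)
      omega
    · obtain ⟨z'', hz'', hd⟩ := sh_same hS he (by omega) hzu
      have h1 := ih hz'' hzu' (by omega)
      have h2 := tri hc z z'' z'
      omega

/-- `p'` is the vertex closer to the start of the walk, `p` the next one -/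
theorem sh_adj (hS : Sys G) {x p p' z : V} {t : ℕ} (h : G.Adj p p') (ht : t ≤ G.dist x p')
    (hz : z ∈ Sh G x p t) :
    ∃ z' ∈ Sh G x p' t, G.dist z z' + G.dist x p' ≤ G.dist x p + 1 := by
  have hc := hS.conn
  have h1 := dist_adj hc x (Or.inr h)
  have h2 := dist_adj hc x (Or.inr h.symm)
  rcases lt_trichotomy (G.dist x p) (G.dist x p') with hlt | heq | hgt
  · refine ⟨z, sh_mono hS (u := p) ⟨h.symm, by omega⟩ hz, ?_⟩
    rw [SimpleGraph.dist_self]
    omega
  · obtain ⟨z', hz', hd⟩ := sh_same hS h heq hz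
    exact ⟨z', hz', by omega⟩
  · obtain ⟨u, hu, hzu⟩ := sh_step hS hz (by omega)
    have e1 := hu.2
    have hp' : p' ∈ par G x p := ⟨h, by omega⟩
    rcases hS.F1 x p u p' hu hp' with he | he
    · subst he
      refine ⟨z, hzu, ?_⟩
      rw [SimpleGraph.dist_self]
      omega
    · obtain ⟨z', hz', hd⟩ := sh_same hS he (by omega) hzu
      exact ⟨z', hz', by omega⟩

end CLQ
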