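import Pool.Agent.CLQ.IOTA
import Pool.Agent.CLQ.CDist
import Pool.Agent.CLQ.FMP

/-!
# Clique dynamics at local girth six: SQ

Squares in the iterated clique graphs.  Take `R = 4 m + 10` and `T` from `flat_map` (`3 R ≥ 3`),
`i` from `iota` for `T`, `d = m % 2`.  The four points are
`a = i (2r + d) d d`, `b = i (-2r + d) d d`, `x = i d (2r + d) d`, `y = i d (-2r + d) d`; they are
valid (`|± 2r + 3d| ≤ m`).
Upper bounds: from `(2r + d, d, d)` to `(d, 2r + d, d)` by `r` steps `(-2, +2, 0)`, the sum stays
`2r + 3d`; from `(2r + d, d, d)` to `(d, -2r + d, d)` by `r` steps `(-2, -2, 0)`, the sum stays in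
`[-2r + 3d, 2r + 3d]`; the other two in the same way.  (A general lemma: if
`f : ℕ → V` has `CAdj (f s) (f (s + 1))` for `s < r` then `dist (f 0) (f r) ≤ r`.)
Lower bound for `a`, `b`: let `X = 2r + d + m` (even) and take the level 0 points
`(X, y1, z1)`, `y1 + z1 = -X`, both even and `y1` one of `-X / 2`, `-X / 2 - 1`, and for `b`
`(X', y2, z2)` with `X' = -2r + d - m`; they are within `m` of the corresponding points (as
`m ≥ 2 r + 10`), so `Below`, and the distance of their images under `T` is at least
`(X - X') / 2 = 2 r + m` by `flat_map`; `below_dist` gives `dist a b ≥ 2 r`.  The same for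
`x`, `y` with the second coordinate.
-/

namespace CLQ

universe u

private theorem chain_dist {V : Type u} {G : SimpleGraph V} (hc : G.Connected) (f : ℕ → V)
    (r : ℕ) (h : ∀ s, s < r → CAdj G (f s) (f (s + 1))) : G.dist (f 0) (f r) ≤ r := by
  induction r with
  | zero => simp
  | succ r ih =>
    have h1 := ih fun s hs => h s (by omega)
    have h2 := (dist_le_one hc).2 (h r (by omega))
    have h3 := tri hc (f 0) (f r) (f (r + 1))
    omega

theorem squares' (X : Gph.{u}) (hS : Sys X.G) (r m : ℕ) (hT : HasTri X.G (3 * (4 * m + 10)))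
    (h : 2 * r + 10 ≤ m) :
    ∃ a b x y : (kIter m X).V, (kIter m X).G.dist x a ≤ r ∧ (kIter m X).G.dist x b ≤ r ∧
      (kIter m X).G.dist y a ≤ r ∧ (kIter m X).G.dist y b ≤ r ∧
      2 * r ≤ (kIter m X).G.dist x y ∧ 2 * r ≤ (kIter m X).G.dist a b := by
  obtain ⟨T, hT1, hT2⟩ := flat_map hS (4 * m + 10) hT
  obtain ⟨i, hi1, hi2⟩ := iota X T hT1 m
  have hcm := (cdist X hS.conn m).1
  obtain ⟨d, hd⟩ : ∃ d : ℤ, d = (m : ℤ) % 2 := ⟨_, rfl⟩
  have hd0 : 0 ≤ d := by omega
  have hd1 : d ≤ 1 := by omega
  have hm : (2 * (r : ℤ) + 10) ≤ m := by exact_mod_cast h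
  have hr0 : (0 : ℤ) ≤ r := by positivity
  -- general connecting lemma
  have hpath : ∀ (e1 e2 s1 s2 : ℤ), (e1 = 1 ∨ e1 = -1) → (e2 = 1 ∨ e2 = -1) →
      (s2 = 1 ∨ s2 = -1) → s1 = 0 → e2 = -s2 →
      (kIter m X).G.dist (i (d + s1) (2 * r * s2 + d) d)
        (i (d + 2 * r * e1) d d) ≤ r := by
    intro e1 e2 s1 s2 he1 he2 hs2 hs1 he
    have h1 := chain_dist hcm
      (fun s : ℕ => i (d + 2 * s * e1) (2 * r * s2 + d + 2 * s * e2) d) r (by
        intro s hs
        have hs' : (s : ℤ) + 1 ≤ r := by exact_mod_cast hs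
        have hs0 : (0 : ℤ) ≤ s := by positivity
        apply hi1
        · refine ⟨?_, ?_, ?_, ?_⟩
          · rcases he1 with rfl | rfl <;> omega
          · rcases he2 with rfl | rfl <;> rcases hs2 with rfl | rfl <;> omega
          · omega
          · rw [abs_le]
            rcases he1 with rfl | rfl <;> rcases he2 with rfl | rfl <;>
              rcases hs2 with rfl | rfl <;> constructor <;> omega
        · push_cast
          refine ⟨?_, ?_, ?_, ?_⟩
          · rcases he1 with rfl | rfl <;> omega
          · rcases he2 with rfl | rfl <;> rcases hs2 with rfl | rfl <;> omega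
          · omega
          · rw [abs_le]
            rcases he1 with rfl | rfl <;> rcases he2 with rfl | rfl <;>
              rcases hs2 with rfl | rfl <;> constructor <;> omega
        · push_cast
          rw [abs_le]
          rcases he1 with rfl | rfl <;> constructor <;> omega
        · push_cast
          rw [abs_le]
          rcases he2 with rfl | rfl <;> constructor <;> omega
        · simp)
    have e3 : (i (d + 2 * ((0 : ℕ) : ℤ) * e1) (2 * r * s2 + d + 2 * ((0 : ℕ) : ℤ) * e2) d) =
        i (d + s1) (2 * r * s2 + d) d := by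
      congr 1
      · rw [hs1]; simp
      · simp
    have e4 : (i (d + 2 * (r : ℤ) * e1) (2 * r * s2 + d + 2 * (r : ℤ) * e2) d) =
        i (d + 2 * r * e1) d d := by
      congr 1
      rw [he]; ring
    rw [← e3, ← e4]
    exact h1
  -- lower bounds
  have hA : 2 * r ≤ (kIter m X).G.dist (i (d + 2 * r * 1) d d) (i (d + 2 * r * (-1)) d d) := by
    obtain ⟨k, hk⟩ : ∃ k : ℤ, 2 * (r : ℤ) + d + m = 2 * k := ⟨(2 * (r : ℤ) + d + m) / 2, by omega⟩
    obtain ⟨l, hl⟩ : ∃ l : ℤ, -2 * (r : ℤ) + d - m = 2 * l :=
      ⟨(-2 * (r : ℤ) + d - m) / 2, by omega⟩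
    have b1 := hi2 (d + 2 * r * 1) d d (2 * k) (-k - k % 2) (-k + k % 2) (by
        refine ⟨by omega, by omega, by omega, ?_⟩
        rw [abs_le]; constructor <;> omega) (by
        refine ⟨by push_cast; omega, by push_cast; omega, by push_cast; omega, ?_⟩
        rw [abs_le]; constructor <;> push_cast <;> omega) (by
        rw [abs_le]; constructor <;> omega) (by
        rw [abs_le]; constructor <;> omega) (by
        rw [abs_le]; constructor <;> omega)
    have b2 := hi2 (d + 2 * r * (-1)) d d (2 * l) (-l - l % 2) (-l + l % 2) (by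
        refine ⟨by omega, by omega, by omega, ?_⟩
        rw [abs_le]; constructor <;> omega) (by
        refine ⟨by push_cast; omega, by push_cast; omega, by push_cast; omega, ?_⟩
        rw [abs_le]; constructor <;> push_cast <;> omega) (by
        rw [abs_le]; constructor <;> omega) (by
        rw [abs_le]; constructor <;> omega) (by
        rw [abs_le]; constructor <;> omega)
    have b3 := below_dist X hS.conn m b1 b2
    have b4 := (hT2 (2 * k) (-k - k % 2) (2 * l) (-l - l % 2) (by omega) (by omega) (by omega)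
      (by omega) (by push_cast; rw [abs_le]; constructor <;> omega)
      (by push_cast; rw [abs_le]; constructor <;> omega)
      (by push_cast; rw [abs_le]; constructor <;> omega)
      (by push_cast; rw [abs_le]; constructor <;> omega)
      (by push_cast; rw [abs_le]; constructor <;> omega)
      (by push_cast; rw [abs_le]; constructor <;> omega)).1
    rw [abs_le] at b4
    have b5 := b4.2
    omega
  have hB : 2 * r ≤ (kIter m X).G.dist (i (d + 0) (2 * r * 1 + d) d)
      (i (d + 0) (2 * r * (-1) + d) d) := by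
    obtain ⟨k, hk⟩ : ∃ k : ℤ, 2 * (r : ℤ) + d + m = 2 * k := ⟨(2 * (r : ℤ) + d + m) / 2, by omega⟩
    obtain ⟨l, hl⟩ : ∃ l : ℤ, -2 * (r : ℤ) + d - m = 2 * l :=
      ⟨(-2 * (r : ℤ) + d - m) / 2, by omega⟩
    have b1 := hi2 (d + 0) (2 * r * 1 + d) d (-k - k % 2) (2 * k) (-k + k % 2) (by
        refine ⟨by omega, by omega, by omega, ?_⟩
        rw [abs_le]; constructor <;> omega) (by
        refine ⟨by push_cast; omega, by push_cast; omega, by push_cast; omega, ?_⟩
        rw [abs_le]; constructor <;> push_cast <;> omega) (by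
        rw [abs_le]; constructor <;> omega) (by
        rw [abs_le]; constructor <;> omega) (by
        rw [abs_le]; constructor <;> omega)
    have b2 := hi2 (d + 0) (2 * r * (-1) + d) d (-l - l % 2) (2 * l) (-l + l % 2) (by
        refine ⟨by omega, by omega, by omega, ?_⟩
        rw [abs_le]; constructor <;> omega) (by
        refine ⟨by push_cast; omega, by push_cast; omega, by push_cast; omega, ?_⟩
        rw [abs_le]; constructor <;> push_cast <;> omega) (by
        rw [abs_le]; constructor <;> omega) (by
        rw [abs_le]; constructor <;> omega) (by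
        rw [abs_le]; constructor <;> omega)
    have b3 := below_dist X hS.conn m b1 b2
    have b4 := (hT2 (-k - k % 2) (2 * k) (-l - l % 2) (2 * l) (by omega) (by omega) (by omega)
      (by omega) (by push_cast; rw [abs_le]; constructor <;> omega)
      (by push_cast; rw [abs_le]; constructor <;> omega)
      (by push_cast; rw [abs_le]; constructor <;> omega)
      (by push_cast; rw [abs_le]; constructor <;> omega)
      (by push_cast; rw [abs_le]; constructor <;> omega)
      (by push_cast; rw [abs_le]; constructor <;> omega)).2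
    rw [abs_le] at b4
    have b5 := b4.2
    omega
  refine ⟨i (d + 2 * r * 1) d d, i (d + 2 * r * (-1)) d d, i (d + 0) (2 * r * 1 + d) d,
    i (d + 0) (2 * r * (-1) + d) d, ?_, ?_, ?_, ?_, hB, hA⟩
  · exact hpath 1 (-1) 0 1 (by simp) (by simp) (by simp) rfl (by norm_num)
  · exact hpath (-1) (-1) 0 1 (by simp) (by simp) (by simp) rfl (by norm_num)
  · exact hpath 1 1 0 (-1) (by simp) (by simp) (by simp) rfl (by norm_num)
  · exact hpath (-1) 1 0 (-1) (by simp) (by simp) (by simp) rfl (by norm_num)

theorem squares (X : Gph.{u}) (hS : Sys X.G) (hT : ∀ n, 3 ≤ n → HasTri X.G n) (r m : ℕ)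
    (h : 2 * r + 10 ≤ m) :
    ∃ a b x y : (kIter m X).V, (kIter m X).G.dist x a ≤ r ∧ (kIter m X).G.dist x b ≤ r ∧
      (kIter m X).G.dist y a ≤ r ∧ (kIter m X).G.dist y b ≤ r ∧
      2 * r ≤ (kIter m X).G.dist x y ∧ 2 * r ≤ (kIter m X).G.dist a b :=
  squares' X hS r m (hT _ (by omega)) h

end CLQ
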