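import Pool.Agent.CLQ.MT

/-!
# Clique dynamics at local girth six: TRI

Equilateral triangles.  `TriAt G n x u v`: `x, u, v` at pairwise distance `n` and
`par u x ∩ par v x = ∅`.
`swap`: symmetry.  `rot`: let `z ∈ par v u ∩ par x u`; then `dist x z = n - 1`,
`dist v z = n - 1 < n = dist v x`, so by MT1 `(v, z, x)`: `par v x ∩ par z x` is nonempty, and
`par z x ⊆ par u x` (`par_mono`, `z` is on a geodesic from `x` to `u`): contradiction.
`shrink`: by `rot` (and `swap`) the pars at `u` towards `x` and `v` are disjoint, and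
`dist v x = dist v u`, so MT2 (`x := v`, `y := x`, `w := u`) gives `par x u = {e}` with
`e ~ f1 ∈ par v u`; in the same way `par x v = {f}`.  `dist x e = dist x f = n`.
`dist v e ≤ dist v f1 + 1 = n + 1` and `dist v e ≥ n + 1` (otherwise `e ∈ par v u`), so
`dist v e = n + 1`.  MT1 for `(e, x, v)` (`dist e x = n < dist e v`): `par e v` meets
`par x v = {f}`, so `dist e f = n`.  `par e x ⊆ par u x`, `par f x ⊆ par v x` by `par_mono`, so
they are disjoint.
`side_dist`: `≤` is `ball_convex`.  If `dist x y < n`: MT1 `(x, y, u)`: `par x u ∩ par y u` is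
nonempty and `par y u ⊆ par v u` (`par_mono`), contradiction to `rot`.
`side_unique`, by induction on `n`, for all `x, u, v, y, z`: if `dist u y = 0` then
`y = u = z`.  Otherwise `par v u = {g}` and, with `x' ∈ par v x`, `TriAt G (n - 1) v g x'` or so
(`shrink` for the corner `v`); `g ∈ par y u ∩ par z u` since `par y u ⊆ par v u = {g}` is nonempty;
`y`, `z` are on the side from `g` to `v` at the same distance from `g`.
-/

namespace CLQ

universe u

variable {V : Type u} {G : SimpleGraph V}

theorem TriAt.swap {n : ℕ} {x u v : V} (h : TriAt G n x u v) : TriAt G n x v u := by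
  obtain ⟨h1, h2, h3, h4⟩ := h
  exact ⟨h2, h1, by rw [SimpleGraph.dist_comm]; exact h3, by rw [Set.inter_comm]; exact h4⟩

theorem TriAt.rot (hS : Sys G) {n : ℕ} {x u v : V} (h : TriAt G n x u v) :
    TriAt G n u v x := by
  obtain ⟨h1, h2, h3, h4⟩ := h
  refine ⟨h3, by rw [SimpleGraph.dist_comm]; exact h1,
    by rw [SimpleGraph.dist_comm]; exact h2, ?_⟩
  by_contra hne
  obtain ⟨z, hz1, hz2⟩ := Set.nonempty_iff_ne_empty.2 hne
  have e1 : G.dist v u = n := by rw [SimpleGraph.dist_comm]; exact h3
  have e2 : G.dist v x = n := by rw [SimpleGraph.dist_comm]; exact h2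
  have hzv := hz1.2
  have hzx := hz2.2
  have huz : G.dist z u = 1 := SimpleGraph.dist_eq_one_iff_adj.2 hz1.1.symm
  obtain ⟨t, ht1, ht2⟩ := MT1 hS v z x (by omega)
  have hm := par_mono hS.conn (w := x) (z := z) (y := u) (by omega) ht2
  have : t ∈ par G u x ∩ par G v x := ⟨hm, ht1⟩
  rw [h4] at this
  exact this

theorem TriAt.shrink (hS : Sys G) {n : ℕ} {x u v : V} (h : TriAt G (n + 1) x u v) :
    ∃ e f, par G x u = {e} ∧ par G x v = {f} ∧ TriAt G n x e f := by
  have hr := h.rot hS
  have hrr := hr.rot hS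
  obtain ⟨h1, h2, h3, h4⟩ := h
  obtain ⟨r1, r2, r3, r4⟩ := hr
  obtain ⟨s1, s2, s3, s4⟩ := hrr
  have hux : u ≠ x := by
    rintro rfl
    simp at h1
  have hvx : v ≠ x := by
    rintro rfl
    simp at h2
  obtain ⟨e, he, f1, hf1, hf1e⟩ := MT2 hS v x u hux r4 (by omega)
  obtain ⟨f, hf, -⟩ := MT2 hS u x v hvx (by rw [Set.inter_comm]; exact s4) (by omega)
  have hee : e ∈ par G x u := by rw [he]; rfl
  have hff : f ∈ par G x v := by rw [hf]; rfl
  have hxe := hee.2
  have hxf := hff.2
  have hvf1 := hf1.2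
  have hve1 : G.dist v e ≤ G.dist v f1 + 1 := dist_adj hS.conn v (Or.inr hf1e.symm)
  have hve2 : G.dist v u ≤ G.dist v e + 1 := dist_adj hS.conn v (Or.inr hee.1)
  have hve : G.dist v e = n + 1 := by
    by_contra hne
    have : e ∈ par G v u ∩ par G x u := ⟨⟨hee.1, by omega⟩, hee⟩
    rw [r4] at this
    exact this
  have hev : G.dist e v = n + 1 := by rw [SimpleGraph.dist_comm]; exact hve
  have hex : G.dist e x = n := by rw [SimpleGraph.dist_comm]; omega
  obtain ⟨g, hg1, hg2⟩ := MT1 hS e x v (by omega)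
  rw [hf] at hg2
  obtain rfl : g = f := hg2
  have hge := hg1.2
  refine ⟨e, g, he, hf, by omega, by omega, by omega, ?_⟩
  by_contra hne
  obtain ⟨z, hz1, hz2⟩ := Set.nonempty_iff_ne_empty.2 hne
  have heu : G.dist e u = 1 := SimpleGraph.dist_eq_one_iff_adj.2 hee.1.symm
  have hgv : G.dist g v = 1 := SimpleGraph.dist_eq_one_iff_adj.2 hff.1.symm
  have m1 := par_mono hS.conn (w := x) (z := e) (y := u) (by omega) hz1
  have m2 := par_mono hS.conn (w := x) (z := g) (y := v) (by omega) hz2
  have : z ∈ par G u x ∩ par G v x := ⟨m1, m2⟩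
  rw [h4] at this
  exact this

theorem TriAt.side_dist (hS : Sys G) {n : ℕ} {x u v y : V} (h : TriAt G n x u v)
    (hy : G.dist u y + G.dist y v = n) : G.dist x y = n := by
  have hr := h.rot hS
  obtain ⟨h1, h2, h3, h4⟩ := h
  have hle : G.dist x y ≤ n := ball_convex hS x u v y n h1.le h2.le (by omega)
  by_contra hne
  obtain ⟨t, ht1, ht2⟩ := MT1 hS x y u (by omega)
  have hm := par_mono hS.conn (w := u) (z := y) (y := v) (by omega) ht2
  have : t ∈ par G v u ∩ par G x u := ⟨hm, ht1⟩
  rw [hr.2.2.2] at this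
  exact this

theorem TriAt.side_unique (hS : Sys G) {n : ℕ} {x u v y z : V} (h : TriAt G n x u v)
    (hy : G.dist u y + G.dist y v = n) (hz : G.dist u z + G.dist z v = n)
    (hyz : G.dist u y = G.dist u z) : y = z := by
  induction n generalizing x u v with
  | zero =>
    have e1 : u = y := hS.conn.dist_eq_zero_iff.1 (by omega)
    have e2 : u = z := hS.conn.dist_eq_zero_iff.1 (by omega)
    exact e1.symm.trans e2
  | succ m ih =>
    rcases Nat.eq_zero_or_pos (G.dist u y) with h0 | h0
    · have e1 : u = y := hS.conn.dist_eq_zero_iff.1 h0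
      have e2 : u = z := hS.conn.dist_eq_zero_iff.1 (by omega)
      exact e1.symm.trans e2
    · obtain ⟨e, g, he, hg, ht⟩ := ((h.rot hS).rot hS).shrink hS
      have key : ∀ t : V, 0 < G.dist u t → G.dist u t + G.dist t v = m + 1 →
          G.dist g t + 1 = G.dist u t := by
        intro t ht0 ht1
        have hut : u ≠ t := by
          rintro rfl
          simp at ht0
        obtain ⟨q, hq⟩ := par_nonempty hS.conn hut
        have hq' := par_mono hS.conn (w := u) (z := t) (y := v) (by
          have := h.2.2.1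
          omega) hq
        rw [hg] at hq'
        obtain rfl : q = g := hq'
        have h2 := hq.2
        rw [SimpleGraph.dist_comm (u := t) (v := u), SimpleGraph.dist_comm (u := t) (v := q)] at h2
        omega
      have k1 := key y h0 hy
      have k2 := key z (by omega) hz
      exact ih (ht.rot hS) (by omega) (by omega) (by omega)

end CLQ
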