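import Pool.Agent.CLQ.LevB

/-!
# Clique dynamics at local girth six: UnA

`un_adj`: `fromRel` adds symmetry and irreflexivity; `UAdj` is symmetric (`OK.symm`) and
irreflexive (siblings have adjacent images).
`un_cover`: let `a` be at level `n`.  Its neighbours: parents (`b ∈ a.2`, `n ≥ 1`, images `P a`),
siblings (images: the vertices outside `P a` adjacent to an element of `P a`; `sibP`, `sibC` and
`Padj`, `sib_ex`), children (`(g, cls a g)` with `Ch a g`, `nxt_mem`, `self_cls`).
surj: `w ~ p a`: `w ∈ P a`: parent (at level 0 `P a = ∅`); or adjacent to an element of `P a`: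
sibling; or `Ch a w`: child.
inj: the three kinds of images are disjoint; parents: two different members of `a.2` are siblings
(`nxt_mem`: `b ∈ cls L c g`), so their images are adjacent, not equal; siblings: `sib_inj`;
children: `c.2 = cls a g` (`nxt_mem`).
tri: `u, v` neighbours of `a` with adjacent images.
parent-parent: different members of `a.2` are siblings.  parent `b` - sibling `s`: `s` has a
common parent `c` with `a` (definition of `sib` at level `n ≥ 1`); if `c = b` fine; otherwise
`p b, p c, p a, p s` are pairwise adjacent: k4.  parent-child: excluded by `Ch`.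
sibling-sibling: with `q, q' ∈ P a` adjacent to `p s`, `p s'` (`sibC`, `Padj`): if `q = q'` then
`p a, q, p s, p s'` contradicts k4; otherwise `p s, q, q', p s'` is a 4-cycle in the link of `p a`:
c4 (`p s ≠ q'`, `q ≠ p s'` by `sibP`).  sibling `s` - child `y`: `s ∈ cls a (p y) = y.2`.
child-child: siblings with the common parent `a`.
-/

namespace CLQ

universe u

variable {V : Type u} {G : SimpleGraph V}

theorem uadj_symm (hG : Good G) (g0 : V) {x y : Σ n, (lev G g0 n).S} (h : UAdj G g0 x y) :
    UAdj G g0 y x := by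
  cases h with
  | sib a b h => exact UAdj.sib b a ((lev_OK hG g0 _).symm _ _ h)
  | up a b h => exact UAdj.down a b h
  | down a b h => exact UAdj.up a b h

/-- a parent is mapped to a neighbour -/
theorem up_adj (hG : Good G) (g0 : V) {n : ℕ} {a : (lev G g0 n).S} {b : (lev G g0 (n + 1)).S}
    (h : a ∈ b.1.2) : G.Adj ((lev G g0 n).p a) ((lev G g0 (n + 1)).p b) :=
  (nxt_mem hG (lev G g0 n) (lev_OK hG g0 n) b h).1.1

theorem uadj_pr (hG : Good G) (g0 : V) {x y : Σ n, (lev G g0 n).S} (h : UAdj G g0 x y) :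
    G.Adj ((lev G g0 x.1).p x.2) ((lev G g0 y.1).p y.2) := by
  cases h with
  | sib a b h => exact (lev_OK hG g0 _).adj _ _ h
  | up a b h => exact up_adj hG g0 h
  | down a b h => exact (up_adj hG g0 h).symm

theorem un_adj (hG : Good G) (g0 : V) (x y : (Un G g0).V) :
    (Un G g0).G.Adj x y ↔ UAdj G g0 x y := by
  constructor
  · rintro ⟨-, h | h⟩
    · exact h
    · exact uadj_symm hG g0 h
  · intro h
    refine ⟨?_, Or.inl h⟩
    intro e
    have h1 := uadj_pr hG g0 h
    rw [e] at h1
    exact G.loopless.irrefl _ h1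

/-- two members of a parent set are equal or siblings -/
theorem par_sib (hG : Good G) (g0 : V) {n : ℕ} {b c : (lev G g0 n).S}
    {a : (lev G g0 (n + 1)).S} (hb : b ∈ a.1.2) (hc : c ∈ a.1.2) :
    b = c ∨ (lev G g0 n).sib c b := by
  have h := (nxt_mem hG (lev G g0 n) (lev_OK hG g0 n) a hc).2
  rw [h] at hb
  exact hb.1

/-- the image of a child is a child direction -/
theorem child_Ch (hG : Good G) (g0 : V) {n : ℕ} {a : (lev G g0 n).S}
    {b : (lev G g0 (n + 1)).S} (h : a ∈ b.1.2) :
    Ch (lev G g0 n) a ((lev G g0 (n + 1)).p b) :=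
  (nxt_mem hG (lev G g0 n) (lev_OK hG g0 n) b h).1

theorem child_eq (hG : Good G) (g0 : V) {n : ℕ} {a : (lev G g0 n).S}
    {b c : (lev G g0 (n + 1)).S} (hb : a ∈ b.1.2) (hc : a ∈ c.1.2)
    (h : (lev G g0 (n + 1)).p b = (lev G g0 (n + 1)).p c) : b = c := by
  have h1 := (nxt_mem hG (lev G g0 n) (lev_OK hG g0 n) b hb).2
  have h2 := (nxt_mem hG (lev G g0 n) (lev_OK hG g0 n) c hc).2
  have h' : b.1.1 = c.1.1 := h
  apply Subtype.ext
  apply Prod.ext h'
  rw [h1, h2, h']

/-- the image of a sibling is adjacent to the image of a parent -/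
theorem sib_dir (hG : Good G) (g0 : V) {n : ℕ} {a b : (lev G g0 n).S}
    (h : (lev G g0 n).sib a b) :
    ∃ q ∈ (lev G g0 n).P a, G.Adj q ((lev G g0 n).p b) := by
  obtain ⟨q, h1, h2⟩ := (lev_OK hG g0 n).sibC a b h
  exact ⟨q, h1, ((lev_OK hG g0 n).Padj b q h2).symm⟩

theorem un_tri (hG : Good G) (g0 : V) {x y z : Σ n, (lev G g0 n).S} (hy : UAdj G g0 x y)
    (hz : UAdj G g0 x z)
    (h : G.Adj ((lev G g0 y.1).p y.2) ((lev G g0 z.1).p z.2)) : UAdj G g0 y z := by
  cases hy with
  | @sib n a b hab =>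
    have hL := lev_OK hG g0 n
    cases hz with
    | sib a c hac =>
      -- sibling, sibling: impossible
      exfalso
      obtain ⟨q, hq1, hq2⟩ := sib_dir hG g0 hab
      obtain ⟨q', hq1', hq2'⟩ := sib_dir hG g0 hac
      rcases hL.Pcl a q hq1 q' hq1' with e | e
      · subst e
        exact hG.k4 ((lev G g0 n).p a) q ((lev G g0 n).p b) ((lev G g0 n).p c)
          (hL.Padj a q hq1) (hL.adj _ _ hab) (hL.adj _ _ hac) hq2 h hq2'
      · exact hG.c4 ((lev G g0 n).p a) ((lev G g0 n).p b) q q' ((lev G g0 n).p c)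
          (hL.adj _ _ hab) (hL.Padj a q hq1) (hL.Padj a q' hq1') (hL.adj _ _ hac) hq2.symm e
          hq2' h.symm (fun e' => hL.sibP a b hab (e' ▸ hq1'))
          (fun e' => hL.sibP a c hac (e' ▸ hq1))
    | up a c hac =>
      -- sibling, child
      refine UAdj.up b c ?_
      have h1 := (nxt_mem hG (lev G g0 n) hL c hac).2
      rw [h1]
      exact ⟨Or.inr hab, h⟩
    | @down m c a hac =>
      -- sibling, parent
      have hab' := hab
      obtain ⟨-, d, hda, hdb⟩ := hab'
      rcases par_sib hG g0 hac hda with e | e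
      · subst e
        exact UAdj.down c b hdb
      · exfalso
        exact hG.k4 ((lev G g0 (m + 1)).p a) ((lev G g0 m).p d) ((lev G g0 m).p c)
          ((lev G g0 (m + 1)).p b) (up_adj hG g0 hda).symm (up_adj hG g0 hac).symm
          ((lev_OK hG g0 (m + 1)).adj a b hab) ((lev_OK hG g0 m).adj _ _ e)
          h.symm (up_adj hG g0 hdb)
  | @up n a b hab =>
    have hL := lev_OK hG g0 n
    cases hz with
    | sib a c hac =>
      -- child, sibling
      refine UAdj.down c b ?_
      have h1 := (nxt_mem hG (lev G g0 n) hL b hab).2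
      rw [h1]
      exact ⟨Or.inr hac, h.symm⟩
    | up a c hac => exact UAdj.sib b c ⟨h, a, hab, hac⟩
    | @down m c a hac =>
      exact absurd h.symm ((child_Ch hG g0 hab).2.2 _ ⟨c, hac, rfl⟩)
  | @down m b a hab =>
    cases hz with
    | sib a c hac =>
      -- parent, sibling
      have hac' := hac
      obtain ⟨-, d, hda, hdc⟩ := hac'
      rcases par_sib hG g0 hab hda with e | e
      · subst e
        exact UAdj.up b c hdc
      · exfalso
        exact hG.k4 ((lev G g0 (m + 1)).p a) ((lev G g0 m).p d) ((lev G g0 m).p b)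
          ((lev G g0 (m + 1)).p c) (up_adj hG g0 hda).symm (up_adj hG g0 hab).symm
          ((lev_OK hG g0 (m + 1)).adj a c hac) ((lev_OK hG g0 m).adj _ _ e)
          h (up_adj hG g0 hdc)
    | up a c hac =>
      exact absurd h ((child_Ch hG g0 hac).2.2 _ ⟨b, hab, rfl⟩)
    | down c a hac =>
      rcases par_sib hG g0 hab hac with e | e
      · subst e
        exact absurd h (G.loopless.irrefl _)
      · exact UAdj.sib b c ((lev_OK hG g0 m).symm _ _ e)

theorem un_inj (hG : Good G) (g0 : V) {x y z : Σ n, (lev G g0 n).S} (hy : UAdj G g0 x y)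
    (hz : UAdj G g0 x z)
    (h : (lev G g0 y.1).p y.2 = (lev G g0 z.1).p z.2) : y = z := by
  cases hy with
  | @sib n a b hab =>
    have hL := lev_OK hG g0 n
    cases hz with
    | sib a c hac => rw [hL.sib_inj a b c hab hac h]
    | up a c hac =>
      exfalso
      obtain ⟨q, hq1, hq2⟩ := sib_dir hG g0 hab
      have h' : (lev G g0 n).p b = (lev G g0 (n + 1)).p c := h
      rw [h'] at hq2
      exact (child_Ch hG g0 hac).2.2 q hq1 hq2
    | @down m c a hac =>
      exfalso
      have h' : (lev G g0 (m + 1)).p b = (lev G g0 m).p c := h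
      exact hL.sibP a b hab (h' ▸ ⟨c, hac, rfl⟩)
  | @up n a b hab =>
    have hL := lev_OK hG g0 n
    cases hz with
    | sib a c hac =>
      exfalso
      obtain ⟨q, hq1, hq2⟩ := sib_dir hG g0 hac
      have h' : (lev G g0 (n + 1)).p b = (lev G g0 n).p c := h
      rw [← h'] at hq2
      exact (child_Ch hG g0 hab).2.2 q hq1 hq2
    | up a c hac => rw [child_eq hG g0 hab hac h]
    | @down m c a hac =>
      exfalso
      have h' : (lev G g0 (m + 1 + 1)).p b = (lev G g0 m).p c := h
      exact (child_Ch hG g0 hab).2.1 (h' ▸ ⟨c, hac, rfl⟩)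
  | @down m b a hab =>
    cases hz with
    | sib a c hac =>
      exfalso
      have h' : (lev G g0 m).p b = (lev G g0 (m + 1)).p c := h
      exact (lev_OK hG g0 (m + 1)).sibP a c hac (h' ▸ ⟨b, hab, rfl⟩)
    | up a c hac =>
      exfalso
      have h' : (lev G g0 m).p b = (lev G g0 (m + 1 + 1)).p c := h
      exact (child_Ch hG g0 hac).2.1 (h' ▸ ⟨b, hab, rfl⟩)
    | down c a hac =>
      rcases par_sib hG g0 hab hac with e | e
      · rw [e]
      · exfalso
        have h1 := (lev_OK hG g0 m).adj _ _ e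
        have h' : (lev G g0 m).p b = (lev G g0 m).p c := h
        rw [h'] at h1
        exact G.loopless.irrefl _ h1

theorem un_cover (hG : Good G) (g0 : V) : TriCover (Un G g0).G G (Un.pr G g0) where
  adj := fun {a b} h => uadj_pr hG g0 ((un_adj hG g0 a b).1 h)
  surj := by
    rintro ⟨n, a⟩ w hw
    have hL := lev_OK hG g0 n
    change G.Adj ((lev G g0 n).p a) w at hw
    by_cases h1 : w ∈ (lev G g0 n).P a
    · cases n with
      | zero => exact absurd h1 (Set.notMem_empty _)
      | succ m =>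
        obtain ⟨b, hb, hbw⟩ := h1
        exact ⟨⟨m, b⟩, (un_adj hG g0 _ _).2 (UAdj.down b a hb), hbw⟩
    · by_cases h2 : ∃ q ∈ (lev G g0 n).P a, G.Adj q w
      · obtain ⟨b, hb, hbw⟩ := hL.sib_ex a w hw h1 h2
        exact ⟨⟨n, b⟩, (un_adj hG g0 _ _).2 (UAdj.sib a b hb), hbw⟩
      · push Not at h2
        have hch : Ch (lev G g0 n) a w := ⟨hw, h1, h2⟩
        let y : (lev G g0 (n + 1)).S := ⟨(w, cls (lev G g0 n) a w), a, hch, rfl⟩
        exact ⟨⟨n + 1, y⟩, (un_adj hG g0 _ _).2 (UAdj.up a y (self_cls _ hch)), rfl⟩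
  inj := by
    intro v a b ha hb hab
    exact un_inj hG g0 ((un_adj hG g0 _ _).1 ha) ((un_adj hG g0 _ _).1 hb) hab
  tri := by
    intro v a b ha hb hab
    exact (un_adj hG g0 _ _).2
      (un_tri hG g0 ((un_adj hG g0 _ _).1 ha) ((un_adj hG g0 _ _).1 hb) hab)

end CLQ
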