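import Pool.Agent.CLQ.UnA

/-!
# Clique dynamics at local girth six: UnB

`un_conn`: every vertex of level `n + 1` has a parent (`self_cls`), so a walk to the base.
`un_dist`: `≤` by induction on the level along parents, `≥` because the level changes by at most
one along an edge.
`un_F1`: by `un_dist` the elements of `par base w` are the parents of `w`; two different parents
are siblings.  `un_F2`: adjacent vertices of the same level are siblings; at level `n + 1` they
have a common parent by definition; at level 0 there are no siblings.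
-/

namespace CLQ

universe u

variable {V : Type u} {G : SimpleGraph V}

/-- every vertex of a positive level has a parent -/
theorem UnB_parent (g0 : V) (n : ℕ) (b : (lev G g0 (n + 1)).S) :
    ∃ a : (lev G g0 n).S, a ∈ b.1.2 := by
  obtain ⟨a, ha, he⟩ := b.2
  refine ⟨a, ?_⟩
  have h1 : a ∈ cls (lev G g0 n) a b.1.1 := self_cls (lev G g0 n) ha
  exact he.symm ▸ h1

theorem UnB_lvl (g0 : V) {x y : (Un G g0).V} (h : UAdj G g0 x y) : y.1 ≤ x.1 + 1 := by
  cases h with
  | sib a b h => exact Nat.le_succ _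
  | up a b h => exact le_refl _
  | down a b h => exact (Nat.le_succ _).trans (Nat.le_succ _)

theorem UnB_walk (hG : Good G) (g0 : V) {x y : (Un G g0).V} (w : (Un G g0).G.Walk x y) :
    y.1 ≤ x.1 + w.length := by
  induction w with
  | nil => simp
  | cons hadj w ih =>
    have h1 := UnB_lvl g0 ((un_adj hG g0 _ _).1 hadj)
    simp only [SimpleGraph.Walk.length_cons]
    omega

theorem UnB_reach (hG : Good G) (g0 : V) (n : ℕ) :
    ∀ a : (lev G g0 n).S, ∃ w : (Un G g0).G.Walk (Un.base G g0) ⟨n, a⟩, w.length ≤ n := by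
  induction n with
  | zero =>
    intro a
    exact ⟨SimpleGraph.Walk.nil, le_refl _⟩
  | succ n ih =>
    intro b
    obtain ⟨a, ha⟩ := UnB_parent g0 n b
    obtain ⟨w, hw⟩ := ih a
    have hadj : (Un G g0).G.Adj ⟨n, a⟩ ⟨n + 1, b⟩ := (un_adj hG g0 _ _).2 (UAdj.up a b ha)
    refine ⟨w.concat hadj, ?_⟩
    rw [SimpleGraph.Walk.length_concat]
    omega

theorem un_conn (hG : Good G) (g0 : V) : (Un G g0).G.Connected := by
  have h : ∀ x : (Un G g0).V, (Un G g0).G.Reachable (Un.base G g0) x := by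
    rintro ⟨n, a⟩
    obtain ⟨w, _⟩ := UnB_reach hG g0 n a
    exact ⟨w⟩
  have : Nonempty (Un G g0).V := ⟨Un.base G g0⟩
  exact ⟨fun x y => (h x).symm.trans (h y)⟩

theorem un_dist (hG : Good G) (g0 : V) (x : (Un G g0).V) :
    (Un G g0).G.dist (Un.base G g0) x = x.1 := by
  apply le_antisymm
  · obtain ⟨n, a⟩ := x
    obtain ⟨w, hw⟩ := UnB_reach hG g0 n a
    exact (SimpleGraph.dist_le w).trans hw
  · obtain ⟨w, hw⟩ := (un_conn hG g0).exists_walk_length_eq_dist (Un.base G g0) x
    have h1 := UnB_walk hG g0 w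
    have h2 : (Un.base G g0).1 = 0 := rfl
    omega

/-- the parents of a vertex -/
theorem UnB_par (hG : Good G) (g0 : V) {w p : (Un G g0).V}
    (hp : p ∈ par (Un G g0).G (Un.base G g0) w) :
    ∃ (n : ℕ) (a : (lev G g0 n).S) (b : (lev G g0 (n + 1)).S), a ∈ b.1.2 ∧ w = ⟨n + 1, b⟩ ∧
      p = ⟨n, a⟩ := by
  obtain ⟨h1, h2⟩ := hp
  rw [un_dist hG, un_dist hG] at h2
  have h3 := (un_adj hG g0 _ _).1 h1
  cases h3 with
  | sib a b h => exact absurd h2 (Nat.succ_ne_self _).symm
  | up a b h =>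
    have h4 : ∀ n : ℕ, n ≠ n + 1 + 1 := fun n => by omega
    exact absurd h2 (h4 _)
  | down a b h => exact ⟨_, a, b, h, rfl, rfl⟩

theorem un_F1 (hG : Good G) (g0 : V) (w p q : (Un G g0).V)
    (hp : p ∈ par (Un G g0).G (Un.base G g0) w) (hq : q ∈ par (Un G g0).G (Un.base G g0) w) :
    CAdj (Un G g0).G p q := by
  obtain ⟨n, a, b, h, rfl, rfl⟩ := UnB_par hG g0 hp
  obtain ⟨n', a', b', h', he, rfl⟩ := UnB_par hG g0 hq
  have hn : n = n' := by
    have := congrArg Sigma.fst he
    simpa using this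
  subst hn
  have hb : b = b' := by
    have := (Sigma.mk.inj he).2
    exact eq_of_heq this
  subst hb
  obtain ⟨_, h2⟩ := nxt_mem hG (lev G g0 n) (lev_OK hG g0 n) b h
  have h3 : a' ∈ cls (lev G g0 n) a b.1.1 := h2 ▸ h'
  rcases h3.1 with h4 | h4
  · exact Or.inl (by rw [h4])
  · exact Or.inr ((un_adj hG g0 _ _).2 (UAdj.sib a a' h4))

theorem un_F2 (hG : Good G) (g0 : V) (w v : (Un G g0).V) (h : (Un G g0).G.Adj w v)
    (hd : (Un G g0).G.dist (Un.base G g0) w = (Un G g0).G.dist (Un.base G g0) v) :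
    ∃ p, p ∈ par (Un G g0).G (Un.base G g0) w ∧ p ∈ par (Un G g0).G (Un.base G g0) v := by
  rw [un_dist hG, un_dist hG] at hd
  have h1 := (un_adj hG g0 _ _).1 h
  cases h1 with
  | @sib n a b h2 =>
    cases n with
    | zero => exact absurd h2 id
    | succ n =>
      obtain ⟨_, c, hc1, hc2⟩ := h2
      refine ⟨⟨n, c⟩, ⟨(un_adj hG g0 _ _).2 (UAdj.down c a hc1), ?_⟩,
        ⟨(un_adj hG g0 _ _).2 (UAdj.down c b hc2), ?_⟩⟩
      · rw [un_dist hG, un_dist hG]
      · rw [un_dist hG, un_dist hG]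
  | up a b h2 => exact absurd hd (Nat.succ_ne_self _).symm
  | down a b h2 => exact absurd hd (Nat.succ_ne_self _)

end CLQ
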