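import Pool.Agent.CLQ.UnB
import Pool.Agent.CLQ.SCB
import Pool.Agent.CLQ.Pull

/-!
# Clique dynamics at local girth six: UnC

`un_SC`: `SC_of_base` at the base point.
`base_all`: let `X` be connected, simply connected, `Good`, and `x : X.V`.  `un_cover` for `X.G` and `x`
gives a triangular cover `Un X.G x → X`, which is a bijection preserving adjacency in both
directions by `cover_bij` (`Un X.G x` is connected), mapping the base point to `x`.  So it preserves
distances (map walks in both directions) and F1, F2 at the base point give F1, F2 at `x`.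
`exists_univ`: `Un G.G g0` is `Good` (`Good.cover`), connected, simply connected; by `base_all`
it is `Sys`.
-/

namespace CLQ

universe u

/-- homomorphisms do not increase distances -/
theorem UnC_dist_le {V W : Type u} {H : SimpleGraph V} {G : SimpleGraph W} (hc : H.Connected)
    (f : V → W) (hf : ∀ a b, H.Adj a b → G.Adj (f a) (f b)) (a b : V) :
    G.dist (f a) (f b) ≤ H.dist a b := by
  obtain ⟨w, hw⟩ := hc.exists_walk_length_eq_dist a b
  have h1 := SimpleGraph.dist_le (w.map (⟨f, fun {a b} h => hf a b h⟩ : H →g G))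
  rw [SimpleGraph.Walk.length_map, hw] at h1
  exact h1

/-- isomorphisms preserve distances -/
theorem UnC_dist {V W : Type u} {H : SimpleGraph V} {G : SimpleGraph W} (hH : H.Connected)
    (hG : G.Connected) (e : H ≃g G) (a b : V) : G.dist (e a) (e b) = H.dist a b := by
  apply le_antisymm
  · exact UnC_dist_le hH (fun x => e x) (fun x y h => e.map_rel_iff.2 h) a b
  · have h1 := UnC_dist_le hG (fun x => e.symm x) (fun x y h => e.symm.map_rel_iff.2 h) (e a)
      (e b)
    simpa using h1

/-- isomorphisms preserve parents -/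
theorem UnC_par {V W : Type u} {H : SimpleGraph V} {G : SimpleGraph W} (hH : H.Connected)
    (hG : G.Connected) (e : H ≃g G) (x a b : V) : e b ∈ par G (e x) (e a) ↔ b ∈ par H x a := by
  rw [mem_par, mem_par, UnC_dist hH hG, UnC_dist hH hG, e.map_rel_iff]

theorem un_SC {V : Type u} {G : SimpleGraph V} (hG : Good G) (g0 : V) : SC (Un G g0) :=
  SC_of_base (Un G g0) (Un.base G g0) (un_conn hG g0) (un_F1 hG g0) (un_F2 hG g0)

theorem UnC_iso (X : Gph.{u}) (hG : Good X.G) (hs : SC X) (x : X.V) :
    ∃ e : (Un X.G x).G ≃g X.G, e (Un.base X.G x) = x := by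
  obtain ⟨hb, ha⟩ := cover_bij hs (un_conn hG x) (un_cover hG x)
  exact ⟨⟨Equiv.ofBijective _ hb, fun {a b} => ha a b⟩, rfl⟩

theorem base_all (X : Gph.{u}) (hG : Good X.G) (hc : X.G.Connected) (hs : SC X) :
    Sys X.G where
  conn := hc
  k4 := hG.k4
  c4 := hG.c4
  c5 := hG.c5
  F1 := by
    intro x w p q hp hq
    obtain ⟨e, he⟩ := UnC_iso X hG hs x
    obtain ⟨w, rfl⟩ := e.surjective w
    obtain ⟨p, rfl⟩ := e.surjective p
    obtain ⟨q, rfl⟩ := e.surjective q
    have h1 : ∀ a b, e b ∈ par X.G x (e a) ↔ b ∈ par (Un X.G x).G (Un.base X.G x) a := by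
      intro a b
      have := UnC_par (un_conn hG x) hc e (Un.base X.G x) a b
      rw [he] at this
      exact this
    rcases un_F1 hG x w p q ((h1 w p).1 hp) ((h1 w q).1 hq) with h | h
    · exact Or.inl (by rw [h])
    · exact Or.inr (e.map_rel_iff.2 h)
  F2 := by
    intro x w v hwv hd
    obtain ⟨e, he⟩ := UnC_iso X hG hs x
    obtain ⟨w, rfl⟩ := e.surjective w
    obtain ⟨v, rfl⟩ := e.surjective v
    have h1 : ∀ a b, e b ∈ par X.G x (e a) ↔ b ∈ par (Un X.G x).G (Un.base X.G x) a := by
      intro a b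
      have := UnC_par (un_conn hG x) hc e (Un.base X.G x) a b
      rw [he] at this
      exact this
    have h2 : ∀ a, X.G.dist x (e a) = (Un X.G x).G.dist (Un.base X.G x) a := by
      intro a
      have := UnC_dist (un_conn hG x) hc e (Un.base X.G x) a
      rw [he] at this
      exact this
    rw [h2, h2] at hd
    obtain ⟨p, hp1, hp2⟩ := un_F2 hG x w v (e.map_rel_iff.1 hwv) hd
    exact ⟨e p, (h1 w p).2 hp1, (h1 v p).2 hp2⟩

theorem exists_univ (G : Gph.{u}) (hG : Good G.G) (g0 : G.V) :
    ∃ W : Gph.{u}, Sys W.G ∧ Good W.G ∧ SC W ∧ ∃ p, TriCover W.G G.G p := by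
  have h1 : Good (Un G.G g0).G := hG.cover (un_cover hG g0)
  exact ⟨Un G.G g0, base_all _ h1 (un_conn hG g0) (un_SC hG g0), h1, un_SC hG g0, _,
    un_cover hG g0⟩

end CLQ
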