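import Pool.Agent.CLQ.Defs

/-!
# Clique dynamics at local girth six: ZL

Lattice lemmas (`Valid m a b c`: `a, b, c ≡ m mod 2`, `|a + b + c| ≤ m`).
-/

namespace CLQ

universe u

/-- one coordinate of the first lemma -/
theorem Z1.aux (m : ℕ) (a a' : ℤ) (ha : (a - (m + 1)) % 2 = 0) (ha' : (a' - (m + 1)) % 2 = 0)
    (h : |a - a'| ≤ 2) :
    ((a = a') ∧ ∀ p, (p = a + 1 ∨ p = a - 1) → |p - a| = 1 ∧ |p - a'| = 1 ∧ (p - m) % 2 = 0) ∨
    ((a ≠ a') ∧ ∃ p, 2 * p = a + a' ∧ |p - a| = 1 ∧ |p - a'| = 1 ∧ (p - m) % 2 = 0) := by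
  rw [abs_le] at h
  by_cases hE : a = a'
  · left
    refine ⟨hE, ?_⟩
    rintro p (rfl | rfl)
    · refine ⟨?_, ?_, ?_⟩
      · rw [abs_eq (by norm_num)]; omega
      · rw [abs_eq (by norm_num)]; omega
      · omega
    · refine ⟨?_, ?_, ?_⟩
      · rw [abs_eq (by norm_num)]; omega
      · rw [abs_eq (by norm_num)]; omega
      · omega
  · right
    refine ⟨hE, (a + a') / 2, ?_, ?_, ?_, ?_⟩
    · omega
    · rw [abs_eq (by norm_num)]; omega
    · rw [abs_eq (by norm_num)]; omega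
    · omega

theorem Z1 (m : ℕ) (a b c a' b' c' : ℤ) (h : Valid (m + 1) a b c)
    (h' : Valid (m + 1) a' b' c') (ha : |a - a'| ≤ 2) (hb : |b - b'| ≤ 2)
    (hc : |c - c'| ≤ 2) :
    ∃ p q r : ℤ, Valid m p q r ∧ |p - a| = 1 ∧ |q - b| = 1 ∧ |r - c| = 1 ∧ |p - a'| = 1 ∧
      |q - b'| = 1 ∧ |r - c'| = 1 := by
  obtain ⟨h1, h2, h3, h4⟩ := h
  obtain ⟨h1', h2', h3', h4'⟩ := h'
  push_cast at h1 h2 h3 h4 h1' h2' h3' h4'
  rw [abs_le] at h4 h4'
  have key : ∀ p q r : ℤ, (|p - a| = 1 ∧ |p - a'| = 1 ∧ (p - m) % 2 = 0) →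
      (|q - b| = 1 ∧ |q - b'| = 1 ∧ (q - m) % 2 = 0) →
      (|r - c| = 1 ∧ |r - c'| = 1 ∧ (r - m) % 2 = 0) → (-(m : ℤ) ≤ p + q + r) →
      (p + q + r ≤ m) →
      ∃ p q r : ℤ, Valid m p q r ∧ |p - a| = 1 ∧ |q - b| = 1 ∧ |r - c| = 1 ∧ |p - a'| = 1 ∧
      |q - b'| = 1 ∧ |r - c'| = 1 := by
    intro p q r hp hq hr hl hu
    exact ⟨p, q, r, ⟨hp.2.2, hq.2.2, hr.2.2, abs_le.2 ⟨hl, hu⟩⟩, hp.1, hq.1, hr.1, hp.2.1,
      hq.2.1, hr.2.1⟩
  rcases Z1.aux m a a' h1 h1' ha with ⟨ea, A⟩ | ⟨ea, p, ep, A⟩ <;>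
  rcases Z1.aux m b b' h2 h2' hb with ⟨eb, B⟩ | ⟨eb, q, eq, B⟩ <;>
  rcases Z1.aux m c c' h3 h3' hc with ⟨ec, C⟩ | ⟨ec, r, er, C⟩
  · -- three free
    subst ea; subst eb; subst ec
    rcases le_or_gt 0 (a + b + c) with hs | hs
    · exact key (a - 1) (b - 1) (c + 1) (A _ (Or.inr rfl)) (B _ (Or.inr rfl))
        (C _ (Or.inl rfl)) (by omega) (by omega)
    · exact key (a + 1) (b + 1) (c - 1) (A _ (Or.inl rfl)) (B _ (Or.inl rfl))
        (C _ (Or.inr rfl)) (by omega) (by omega)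
  · -- a, b free
    subst ea; subst eb
    exact key (a - 1) (b + 1) r (A _ (Or.inr rfl)) (B _ (Or.inl rfl)) C (by omega) (by omega)
  · -- a, c free
    subst ea; subst ec
    exact key (a - 1) q (c + 1) (A _ (Or.inr rfl)) B (C _ (Or.inl rfl)) (by omega) (by omega)
  · -- a free
    subst ea
    rcases le_or_gt 0 (a + q + r) with hs | hs
    · exact key (a - 1) q r (A _ (Or.inr rfl)) B C (by omega) (by omega)
    · exact key (a + 1) q r (A _ (Or.inl rfl)) B C (by omega) (by omega)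
  · subst eb; subst ec
    exact key p (b - 1) (c + 1) A (B _ (Or.inr rfl)) (C _ (Or.inl rfl)) (by omega) (by omega)
  · subst eb
    rcases le_or_gt 0 (p + b + r) with hs | hs
    · exact key p (b - 1) r A (B _ (Or.inr rfl)) C (by omega) (by omega)
    · exact key p (b + 1) r A (B _ (Or.inl rfl)) C (by omega) (by omega)
  · subst ec
    rcases le_or_gt 0 (p + q + c) with hs | hs
    · exact key p q (c - 1) A B (C _ (Or.inr rfl)) (by omega) (by omega)
    · exact key p q (c + 1) A B (C _ (Or.inl rfl)) (by omega) (by omega)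
  · exact key p q r A B C (by omega) (by omega)

theorem Z2 (m : ℕ) (a b c x y z : ℤ) (h : Valid (m + 1) a b c) (hx : Valid 0 x y z)
    (ha : |a - x| ≤ m + 1) (hb : |b - y| ≤ m + 1) (hc : |c - z| ≤ m + 1) :
    ∃ p q r : ℤ, Valid m p q r ∧ |p - a| = 1 ∧ |q - b| = 1 ∧ |r - c| = 1 ∧ |p - x| ≤ m ∧
      |q - y| ≤ m ∧ |r - z| ≤ m := by
  obtain ⟨h1, h2, h3, h4⟩ := h
  obtain ⟨x1, x2, x3, x4⟩ := hx
  push_cast at h1 h2 h3 h4 x1 x2 x3 x4
  rw [abs_le] at h4 ha hb hc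
  rw [abs_le] at x4
  have hs0 : x + y + z = 0 := by omega
  have key : ∀ e f g : ℤ, (e = 1 ∨ e = -1) → (f = 1 ∨ f = -1) → (g = 1 ∨ g = -1) →
      (-(m : ℤ) ≤ a + b + c + (e + f + g)) → (a + b + c + (e + f + g) ≤ m) →
      (-(m : ℤ) ≤ a + e - x) → (a + e - x ≤ m) → (-(m : ℤ) ≤ b + f - y) → (b + f - y ≤ m) →
      (-(m : ℤ) ≤ c + g - z) → (c + g - z ≤ m) →
      ∃ p q r : ℤ, Valid m p q r ∧ |p - a| = 1 ∧ |q - b| = 1 ∧ |r - c| = 1 ∧ |p - x| ≤ m ∧
      |q - y| ≤ m ∧ |r - z| ≤ m := by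
    intro e f g he hf hg k1 k2 k3 k4 k5 k6 k7 k8
    refine ⟨a + e, b + f, c + g, ⟨?_, ?_, ?_, ?_⟩, ?_, ?_, ?_, ?_, ?_, ?_⟩
    · omega
    · omega
    · omega
    · rw [abs_le]; constructor <;> omega
    · rw [abs_eq (by norm_num)]; omega
    · rw [abs_eq (by norm_num)]; omega
    · rw [abs_eq (by norm_num)]; omega
    · rw [abs_le]; constructor <;> omega
    · rw [abs_le]; constructor <;> omega
    · rw [abs_le]; constructor <;> omega
  rcases le_or_gt 0 (a + b + c) with hs | hs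
  · -- one up, two down
    by_cases u1 : a - x ≤ m - 1 ∧ -(m : ℤ) + 1 ≤ b - y ∧ -(m : ℤ) + 1 ≤ c - z
    · exact key 1 (-1) (-1) (by omega) (by omega) (by omega) (by omega) (by omega) (by omega)
        (by omega) (by omega) (by omega) (by omega) (by omega)
    · by_cases u2 : b - y ≤ m - 1 ∧ -(m : ℤ) + 1 ≤ a - x ∧ -(m : ℤ) + 1 ≤ c - z
      · exact key (-1) 1 (-1) (by omega) (by omega) (by omega) (by omega) (by omega) (by omega)
          (by omega) (by omega) (by omega) (by omega) (by omega)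
      · exact key (-1) (-1) 1 (by omega) (by omega) (by omega) (by omega) (by omega) (by omega)
          (by omega) (by omega) (by omega) (by omega) (by omega)
  · by_cases u1 : -(m : ℤ) + 1 ≤ a - x ∧ b - y ≤ m - 1 ∧ c - z ≤ m - 1
    · exact key (-1) 1 1 (by omega) (by omega) (by omega) (by omega) (by omega) (by omega)
        (by omega) (by omega) (by omega) (by omega) (by omega)
    · by_cases u2 : -(m : ℤ) + 1 ≤ b - y ∧ a - x ≤ m - 1 ∧ c - z ≤ m - 1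
      · exact key 1 (-1) 1 (by omega) (by omega) (by omega) (by omega) (by omega) (by omega)
          (by omega) (by omega) (by omega) (by omega) (by omega)
      · exact key 1 1 (-1) (by omega) (by omega) (by omega) (by omega) (by omega) (by omega)
          (by omega) (by omega) (by omega) (by omega) (by omega)

end CLQ
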